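import Pool.Agent.Lib.MP_40ade9_lc.Check

/-! Names given by a ground-model relation; bijections; preservation of cardinals. -/

set_option autoImplicit false

namespace Pool.Agent.Lib.MP_40ade9_lc

open Ordinal Cardinal

variable {P : Type} [Preorder P]

/-- The name `{⟨a x, q⟩ : S q x}`. -/
def relN {X : Type} (S : P → X → Prop) (a : X → PName P) : PName P :=
  PName.mk {xq : X × P // S xq.2 xq.1} (fun xq => a xq.1.1) (fun xq => xq.1.2)

/-- Below `p`, the name `A` has the same elements as `relN S a`. -/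
def Rep {X : Type} (S : P → X → Prop) (a : X → PName P) (A : PName P) (p : P) : Prop :=
  ∀ z, ∀ q ≤ p, ForcesMem z A q ↔ ∀ r ≤ q, ∃ s ≤ r, ∃ x, S s x ∧ ForcesEq z (a x) s

theorem forcesMem_relN {X : Type} {S : P → X → Prop} (hS : ∀ p q x, S p x → q ≤ p → S q x)
    {a : X → PName P} {z : PName P} {q : P} :
    ForcesMem z (relN S a) q ↔ ∀ r ≤ q, ∃ s ≤ r, ∃ x, S s x ∧ ForcesEq z (a x) s := by
  rw [relN, forcesMem_mk]
  constructor
  · intro h r hr
    obtain ⟨s, hs, ⟨⟨x, q'⟩, hx⟩, h1, h2⟩ := h r hr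
    exact ⟨s, hs, x, hS _ _ _ hx h1, h2.symm⟩
  · intro h r hr
    obtain ⟨s, hs, x, h1, h2⟩ := h r hr
    exact ⟨s, hs, ⟨⟨x, s⟩, h1⟩, le_rfl, h2.symm⟩

theorem rep_relN {X : Type} {S : P → X → Prop} (hS : ∀ p q x, S p x → q ≤ p → S q x)
    (a : X → PName P) (p : P) : Rep S a (relN S a) p := fun _ _ _ => forcesMem_relN hS

theorem Rep.mem {X : Type} {S : P → X → Prop} (hS : ∀ p q x, S p x → q ≤ p → S q x)
    {a : X → PName P} {A : PName P} {p q : P} (h : Rep S a A p) (hq : q ≤ p) {x : X}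
    (hx : S q x) : ForcesMem (a x) A q :=
  (h _ q hq).2 fun r hr => ⟨r, le_rfl, x, hS _ _ _ hx hr, ForcesEq.refl _ _⟩

theorem Rep.congr {X : Type} {S : P → X → Prop} {a : X → PName P} {A A' : PName P} {p : P}
    (h : Rep S a A p) (he : ForcesEq A A' p) : Rep S a A' p := fun z q hq => by
  rw [← h z q hq]
  exact ⟨fun h' => h'.congr_right (he.symm.mono hq), fun h' => h'.congr_right (he.mono hq)⟩

variable {one : P} (h1 : ∀ p : P, p ≤ one)
include h1

theorem forcesMem_op_relN {X : Type} {S : P → X → Prop} (hS : ∀ p q x, S p x → q ≤ p → S q x)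
    {a b : X → PName P} {u v : PName P} {q : P} :
    ForcesMem (op one u v) (relN S fun x => op one (a x) (b x)) q ↔
      ∀ r ≤ q, ∃ s ≤ r, ∃ x, S s x ∧ ForcesEq u (a x) s ∧ ForcesEq v (b x) s := by
  rw [forcesMem_relN hS]
  refine forall_congr' fun r => forall_congr' fun _ => exists_congr fun s =>
    and_congr_right fun _ => exists_congr fun x => and_congr_right fun _ => ?_
  exact ⟨fun h => ⟨op_inj_left h1 h, op_inj_right h1 h⟩, fun h => op_congr h1 h.1 h.2⟩

theorem forces_bij_relN {X : Type} {S : P → X → Prop} (hS : ∀ p q x, S p x → q ≤ p → S q x)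
    {a b : X → PName P} {A Y : PName P} {p : P} (hA : Rep S a A p) (hY : Rep S b Y p)
    (hab : ∀ s x x', S s x → S s x' → (ForcesEq (a x) (a x') s ↔ ForcesEq (b x) (b x') s)) :
    Forces (Fm.bij (relN S fun x => op one (a x) (b x)) A Y) p := by
  rw [forces_bij h1]
  refine ⟨fun w q hq hw r hr => ?_, fun u q hq hu r hr => ?_, fun v q hq hv r hr => ?_,
    fun u v v' q hq hv hv' => ?_, fun u u' v q hq hu hu' => ?_⟩
  · obtain ⟨s, hs, x, hx, he⟩ := (forcesMem_relN hS).1 hw r hr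
    have hsp := hs.trans (hr.trans hq)
    exact ⟨s, hs, a x, b x, he, hA.mem hS hsp hx, hY.mem hS hsp hx⟩
  · obtain ⟨s, hs, x, hx, he⟩ := (hA u q hq).1 hu r hr
    exact ⟨s, hs, b x, (forcesMem_op_relN h1 hS).2 fun t ht =>
      ⟨t, le_rfl, x, hS _ _ _ hx ht, he.mono ht, ForcesEq.refl _ _⟩⟩
  · obtain ⟨s, hs, x, hx, he⟩ := (hY v q hq).1 hv r hr
    exact ⟨s, hs, a x, (forcesMem_op_relN h1 hS).2 fun t ht =>
      ⟨t, le_rfl, x, hS _ _ _ hx ht, ForcesEq.refl _ _, he.mono ht⟩⟩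
  · refine ForcesEq.of_dense fun r hr => ?_
    obtain ⟨s, hs, x, hx, e1, e2⟩ := (forcesMem_op_relN h1 hS).1 hv r hr
    obtain ⟨t, ht, x', hx', e1', e2'⟩ := (forcesMem_op_relN h1 hS).1 hv' s (hs.trans hr)
    have := (hab t x x' (hS _ _ _ hx ht) hx').1 ((e1.mono ht).symm.trans e1')
    exact ⟨t, ht.trans hs, (e2.mono ht).trans (this.trans e2'.symm)⟩
  · refine ForcesEq.of_dense fun r hr => ?_
    obtain ⟨s, hs, x, hx, e1, e2⟩ := (forcesMem_op_relN h1 hS).1 hu r hr
    obtain ⟨t, ht, x', hx', e1', e2'⟩ := (forcesMem_op_relN h1 hS).1 hu' s (hs.trans hr)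
    have := (hab t x x' (hS _ _ _ hx ht) hx').2 ((e2.mono ht).symm.trans e2')
    exact ⟨t, ht.trans hs, (e1.mono ht).trans (this.trans e1'.symm)⟩

theorem rep_on {X : Type} {o : Ordinal.{0}} (f : X → Ordinal.{0})
    (hf : ∀ ξ, ξ < o ↔ ∃ x, f x = ξ) (p : P) :
    Rep (fun _ _ => True) (fun x => oN one (f x)) (oN one o) p := by
  intro z q _
  rw [forcesMem_on h1]
  refine forall_congr' fun r => forall_congr' fun _ => exists_congr fun s =>
    and_congr_right fun _ => ?_
  constructor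
  · rintro ⟨a, ha, he⟩
    obtain ⟨x, rfl⟩ := (hf a).1 ha
    exact ⟨x, trivial, he⟩
  · rintro ⟨x, -, he⟩
    exact ⟨f x, (hf _).2 ⟨x, rfl⟩, he⟩

omit h1 in
theorem lt_iff_toType (o ξ : Ordinal.{0}) : ξ < o ↔ ∃ x : o.ToType, (x : Ordinal.{0}) = ξ := by
  constructor
  · intro h
    exact ⟨ToType.mk ⟨ξ, h⟩, by simp⟩
  · rintro ⟨x, rfl⟩
    exact (ToType.toOrd x).2

omit h1 in
theorem toType_strictMono (o : Ordinal.{0}) :
    StrictMono fun x : o.ToType => (x : Ordinal.{0}) := fun _ _ h =>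
  ToType.mk.symm.strictMono h

theorem forces_equinum_on {a b : Ordinal.{0}} (h : a.card = b.card) {y : PName P} {p : P}
    (hy : ForcesEq (oN one b) y p) : Forces (Fm.equinum (oN one a) y) p := by
  obtain ⟨e⟩ : Nonempty (a.ToType ≃ b.ToType) := by
    rw [← Cardinal.eq, mk_toType, mk_toType, h]
  have hA := rep_on h1 (fun x : a.ToType => (x : Ordinal.{0})) (lt_iff_toType a) p
  have hB := (rep_on h1 (o := b) (fun x : a.ToType => (e x : Ordinal.{0})) (fun ξ => by
    rw [lt_iff_toType]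
    exact ⟨fun ⟨x, hx⟩ => ⟨e.symm x, by simpa using hx⟩, fun ⟨x, hx⟩ => ⟨e x, hx⟩⟩) p).congr hy
  refine forces_ex_intro _ (forces_bij_relN h1 (fun _ _ _ _ _ => trivial) hA hB ?_)
  intro s x x' _ _
  rw [forcesEq_on h1, forcesEq_on h1, (toType_strictMono a).injective.eq_iff,
    (toType_strictMono b).injective.eq_iff, e.injective.eq_iff]

theorem forces_isOmega_on (p : P) : Forces (Fm.isOmega (oN one ω)) p := by
  simp only [Fm.isOmega, forces_and, forces_all, forces_imp, forces_sub]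
  refine ⟨forces_isInductive_omega h1 p, fun y q _ hy z r hr hz => ?_⟩
  refine ForcesMem.of_dense fun s hs => ?_
  obtain ⟨t, ht, a, ha, he⟩ := (forcesMem_on h1).1 hz s hs
  obtain ⟨n, rfl⟩ := lt_omega0.1 ha
  exact ⟨t, ht, ((nat_mem_of_isInductive h1 hy n).mono
    (ht.trans (hs.trans hr))).congr_left he.symm⟩

theorem forces_isCardinal_on [Countable P] {c : Cardinal.{0}} (hc : ℵ₀ < c) (p : P) :
    Forces (Fm.isCardinal (oN one c.ord)) p := by
  simp only [Fm.isCardinal, forces_and, forces_all, forces_imp, forces_not, forces_mem]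
  refine ⟨forces_isOrdinal_on h1 _ p, fun y q _ hy r hr hb => ?_⟩
  obtain ⟨s, hs, a, ha, he⟩ := (forcesMem_on h1).1 hy r hr
  obtain ⟨t, ht, g, hg⟩ := forces_ex.1 hb s hs
  have key : ∀ b : c.ord.ToType, ∃ x : P × a.ToType, x.1 ≤ t ∧
      ForcesMem (op one (oN one (x.2 : Ordinal.{0})) (oN one (b : Ordinal.{0}))) g x.1 := by
    intro b
    obtain ⟨w, hw, u, hu⟩ := ((forces_bij h1).1 hg).2.2.1 (oN one (b : Ordinal.{0})) t le_rfl
      ((forcesMem_on_on h1).2 (ToType.toOrd b).2) t le_rfl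
    have huy := (bij_mem h1 (hg.mono hw) hu).1
    have hua := huy.congr_right (he.mono (hw.trans ht))
    obtain ⟨w', hw', a', ha', he'⟩ := (forcesMem_on h1).1 hua w le_rfl
    obtain ⟨x, rfl⟩ := (lt_iff_toType a a').1 ha'
    exact ⟨(w', x), hw'.trans hw, (hu.mono hw').congr_left (op_congr h1 he' (ForcesEq.refl _ _))⟩
  choose F hF1 hF2 using key
  have hinj : Function.Injective F := by
    intro b b' h
    have h2 := hF2 b'
    rw [← h] at h2
    have := ((forces_bij h1).1 hg).2.2.2.1 _ _ _ _ (hF1 b) (hF2 b) h2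
    exact (toType_strictMono _).injective ((forcesEq_on h1).1 this)
  have hle := Cardinal.mk_le_of_injective hinj
  rw [mk_ord_toType, mk_prod, Cardinal.lift_id, Cardinal.lift_id, mk_toType] at hle
  exact absurd hle (not_le.2 (Cardinal.mul_lt_of_lt hc.le (mk_le_aleph0.trans_lt hc)
    (Cardinal.lt_ord.1 ha)))

theorem forces_isSuccCard_on [Countable P] {c : Cardinal.{0}} (hc : ℵ₀ ≤ c) (p : P) :
    Forces (Fm.isSuccCard (oN one (Order.succ c).ord) (oN one c.ord)) p := by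
  simp only [Fm.isSuccCard, forces_and, forces_all, forces_imp, forces_mem]
  refine ⟨forces_isCardinal_on h1 (hc.trans_lt (Order.lt_succ c)) p,
    (forcesMem_on_on h1).2 (Cardinal.ord_lt_ord.2 (Order.lt_succ c)), fun y q _ hy => ?_⟩
  refine forces_or.2 fun r hr => ?_
  obtain ⟨s, hs, a, ha, he⟩ := (forcesMem_on h1).1 hy.1 r hr
  refine ⟨s, hs, ?_⟩
  rcases lt_trichotomy a c.ord with hlt | heq | hlt
  · exact Or.inl (forcesMem_on_of_eq h1 he hlt)
  · exact Or.inr (heq ▸ he)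
  · exfalso
    have hcard : c.ord.card = a.card := by
      rw [Cardinal.card_ord]
      exact le_antisymm (Cardinal.ord_le.1 hlt.le) (Order.lt_succ_iff.1 (Cardinal.lt_ord.1 ha))
    have h2 := hy.2.mono (hs.trans hr)
    simp only [Fm.isCardinal, forces_and, forces_all, forces_imp, forces_not, forces_mem] at h2
    exact h2.2 (oN one c.ord) s le_rfl (((forcesMem_on_on h1).2 hlt).congr_right he.symm) s le_rfl
      (forces_equinum_on h1 hcard he.symm)

theorem forces_isAlephTwo [Countable P] (p : P) :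
    Forces (Fm.isAlephTwo (oN one (ℵ_ 2).ord)) p := by
  have e1 : (ℵ_ 1 : Cardinal.{0}) = Order.succ ℵ₀ := Cardinal.succ_aleph0.symm
  have e2 : (ℵ_ 2 : Cardinal.{0}) = Order.succ (ℵ_ 1) := by
    rw [Cardinal.succ_aleph, one_add_one_eq_two]
  refine forces_ex_intro (oN one ω) (forces_ex_intro (oN one (ℵ_ 1).ord)
    ⟨forces_isOmega_on h1 p, ?_, ?_⟩)
  · have := forces_isSuccCard_on h1 (c := ℵ₀) le_rfl p
    rwa [← e1, Cardinal.ord_aleph0] at this
  · have := forces_isSuccCard_on h1 (c := ℵ_ 1) (Cardinal.aleph0_le_aleph 1) p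
    rwa [← e2] at this

end Pool.Agent.Lib.MP_40ade9_lc
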