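import Pool.Agent.Lib.MP_40ade9_lc.Defs

/-! The bounding number. -/

set_option autoImplicit false

universe u

namespace Pool.Agent.Lib.MP_40ade9_lc

/-- The bounding number satisfies `𝔟(κ) ≤ c`: there is a family of at most `c` functions from `κ`
to `κ` (with `κ` as the well-order `κ.ToType` of the ordinals below it) that is unbounded in the
order of eventual domination: no function `g` from `κ` to `κ` eventually dominates every member of
the family. -/
def BoundingLE (κ : Ordinal.{u}) (c : Cardinal.{u}) : Prop :=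
  ∃ ℬ : Set (κ.ToType → κ.ToType), Cardinal.mk ℬ ≤ c ∧
    ¬ ∃ g : κ.ToType → κ.ToType, ∀ f ∈ ℬ, ∃ ξ₀, ∀ ξ, ξ₀ ≤ ξ → f ξ ≤ g ξ

end Pool.Agent.Lib.MP_40ade9_lc
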