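import Pool.Agent.Lib.MP_40ade9_lc.Defs

/-! Square sequences whose tree of end-extensions has a Baire perfect part. -/

set_option autoImplicit false

universe u

namespace Pool.Agent.Lib.MP_40ade9_lc

/-- `s` lies below `t` in the tree of the sequence `C`: `t` is a limit ordinal, `s < t`, and `s` is
an accumulation point of `C t`. -/
def Below (C : Ordinal.{u} → Set Ordinal.{u}) (s t : Ordinal.{u}) : Prop :=
  Order.IsSuccLimit t ∧ s < t ∧ IsAccPt (C t) s

/-- There is a `□(κ)`-sequence `C` (the three clauses of `Square κ`) and a set `T` of ordinals below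
`κ` such that every `t ∈ T` lies below unboundedly many `u ∈ T` in the tree of `C`, and for any
countably many sets `D n`, each dense in `T` (every `t ∈ T` lies below a member of `T ∩ D n`), there
is one `d < κ` below which, in the tree of `C`, there is a member of every `D n`. -/
def BaireSquare (κ : Ordinal.{u}) : Prop :=
  ∃ C : Ordinal.{u} → Set Ordinal.{u},
    (∀ α < κ, Order.IsSuccLimit α → IsClubIn (C α) α) ∧
    (∀ α < κ, Order.IsSuccLimit α → ∀ β < α, IsAccPt (C α) β → C β = C α ∩ Set.Iio β) ∧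
    (¬ ∃ D, IsClubIn D κ ∧ ∀ α < κ, IsAccPt D α → D ∩ Set.Iio α = C α) ∧
    ∃ T ⊆ Set.Iio κ, (∀ t ∈ T, ∀ ξ < κ, ∃ u ∈ T, ξ < u ∧ Below C t u) ∧
      ∀ D : ℕ → Set Ordinal.{u}, (∀ n, ∀ t ∈ T, ∃ u ∈ T ∩ D n, Below C t u) →
        ∃ d < κ, ∀ n, ∃ u ∈ D n, Below C u d

end Pool.Agent.Lib.MP_40ade9_lc
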