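import Pool.Agent.Lib.MP_40ade9_lc.Forcing

/-! Canonical names of ordinals, and the forcing of statements about them. -/

set_option autoImplicit false

universe u

namespace Pool.Agent.Lib.MP_40ade9_lc

open Ordinal

/-- The canonical name `x̌ = {⟨y̌, 1⟩ : y ∈ x}` of a ground-model set `x`. -/
def check {P : Type u} (one : P) : PSet.{u} → PName P
  | ⟨α, A⟩ => ⟨α, fun a => check one (A a), fun _ => one⟩

variable {P : Type u} [Preorder P]

/-- canonical name of an ordinal -/
noncomputable def oN (one : P) (o : Ordinal.{u}) : PName P := check one o.toPSet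

omit [Preorder P] in
theorem on_eq (one : P) (o : Ordinal.{u}) :
    oN one o = PName.mk o.ToType (fun a => oN one (a : Ordinal.{u})) (fun _ => one) := by
  rw [oN, Ordinal.toPSet]
  rfl

variable {one : P} (h1 : ∀ p : P, p ≤ one)
include h1

theorem forcesEq_check : ∀ {x y : PSet.{u}} {p : P},
    ForcesEq (check one x) (check one y) p ↔ x.Equiv y
  | ⟨_, A⟩, ⟨_, B⟩, p => by
    rw [check, check, forcesEq_mk, PSet.Equiv]
    constructor
    · rintro ⟨ha, hb⟩
      refine ⟨fun a => ?_, fun b => ?_⟩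
      · obtain ⟨r, -, b, -, h⟩ := ha a p le_rfl (h1 _)
        exact ⟨b, forcesEq_check.1 h⟩
      · obtain ⟨r, -, a, -, h⟩ := hb b p le_rfl (h1 _)
        exact ⟨a, forcesEq_check.1 h⟩
    · rintro ⟨ha, hb⟩
      refine ⟨fun a q _ _ => ?_, fun b q _ _ => ?_⟩
      · obtain ⟨b, h⟩ := ha a
        exact ⟨q, le_rfl, b, h1 _, forcesEq_check.2 h⟩
      · obtain ⟨a, h⟩ := hb b
        exact ⟨q, le_rfl, a, h1 _, forcesEq_check.2 h⟩

theorem forcesEq_on {a b : Ordinal.{u}} {p : P} : ForcesEq (oN one a) (oN one b) p ↔ a = b := by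
  rw [oN, oN, forcesEq_check h1]
  constructor
  · intro h
    apply Ordinal.toZFSet_injective
    exact ZFSet.sound h
  · rintro rfl
    exact PSet.Equiv.refl _

theorem forcesMem_on {z : PName P} {o : Ordinal.{u}} {p : P} :
    ForcesMem z (oN one o) p ↔ ∀ q ≤ p, ∃ r ≤ q, ∃ a < o, ForcesEq z (oN one a) r := by
  rw [on_eq, forcesMem_mk]
  constructor
  · intro h q hq
    obtain ⟨r, hr, a, -, h'⟩ := h q hq
    exact ⟨r, hr, a, (ToType.toOrd a).2, h'.symm⟩
  · intro h q hq
    obtain ⟨r, hr, a, ha, h'⟩ := h q hq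
    refine ⟨r, hr, ToType.mk ⟨a, ha⟩, h1 _, ?_⟩
    simpa using h'.symm

theorem forcesMem_on_on {a o : Ordinal.{u}} {p : P} :
    ForcesMem (oN one a) (oN one o) p ↔ a < o := by
  rw [forcesMem_on h1]
  constructor
  · intro h
    obtain ⟨r, -, b, hb, h'⟩ := h p le_rfl
    rwa [(forcesEq_on h1).1 h']
  · intro h q _
    exact ⟨q, le_rfl, a, h, ForcesEq.refl _ _⟩

theorem forcesMem_on_of_eq {z : PName P} {a o : Ordinal.{u}} {p : P}
    (h : ForcesEq z (oN one a) p) (ha : a < o) : ForcesMem z (oN one o) p :=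
  ((forcesMem_on_on h1).2 ha).congr_left h.symm

theorem forces_isOrdinal_on (o : Ordinal.{u}) (p : P) : Forces (Fm.isOrdinal (oN one o)) p := by
  simp only [Fm.isOrdinal, forces_and, forces_all, forces_imp, forces_mem, forces_sub]
  refine ⟨fun y q _ hy z r hr hz => ?_, fun y z q _ hyz => ?_⟩
  · refine ForcesMem.of_dense fun s hs => ?_
    obtain ⟨t, ht, a, ha, h⟩ := (forcesMem_on h1).1 hy s (hs.trans hr)
    have hz' : ForcesMem z (oN one a) t := (hz.mono (ht.trans hs)).congr_right h
    obtain ⟨w, hw, b, hb, h'⟩ := (forcesMem_on h1).1 hz' t le_rfl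
    exact ⟨w, hw.trans ht, forcesMem_on_of_eq h1 h' (hb.trans ha)⟩
  · refine Forces.of_dense fun s hs => ?_
    obtain ⟨t, ht, a, -, ha⟩ := (forcesMem_on h1).1 hyz.1 s hs
    obtain ⟨w, hw, b, -, hb⟩ := (forcesMem_on h1).1 hyz.2 t (ht.trans hs)
    refine ⟨w, hw.trans ht, ?_⟩
    have ha' := ha.mono hw
    rcases lt_trichotomy a b with hab | hab | hab
    · exact forces_or_left (forces_mem.2
        ((forcesMem_on_of_eq h1 ha' hab).congr_right hb.symm))
    · subst hab
      exact forces_or_right (forces_or_left (forces_eq.2 (ha'.trans hb.symm)))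
    · exact forces_or_right (forces_or_right (forces_mem.2
        ((forcesMem_on_of_eq h1 hb hab).congr_right ha'.symm)))

theorem forces_isEmpty_on_zero (p : P) : Forces (Fm.isEmpty (oN one 0)) p := by
  simp only [Fm.isEmpty, forces_all, forces_not, forces_mem]
  intro z q _ hz
  obtain ⟨r, -, a, ha, -⟩ := (forcesMem_on h1).1 hz q le_rfl
  exact absurd ha (not_lt_zero)

theorem eq_zero_of_isEmpty {e : PName P} {p : P} (h : Forces (Fm.isEmpty e) p) :
    ForcesEq e (oN one 0) p := by
  simp only [Fm.isEmpty, forces_all, forces_not, forces_mem] at h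
  refine ForcesEq.ext (fun z q hq hz => absurd hz (h z q hq)) (fun z q _ hz => ?_)
  obtain ⟨r, -, a, ha, -⟩ := (forcesMem_on h1).1 hz q le_rfl
  exact absurd ha (not_lt_zero)

theorem forces_isSucc_iff {s a : PName P} {o : Ordinal.{u}} {p : P}
    (ha : ForcesEq a (oN one o) p) :
    Forces (Fm.isSucc s a) p ↔ ForcesEq s (oN one (o + 1)) p := by
  have key1 : ∀ z, ∀ q ≤ p, ForcesMem z (oN one (o + 1)) q →
      ∀ r ≤ q, ∃ t ≤ r, ForcesMem z a t ∨ ForcesEq z a t := by
    intro z q hq hz r hr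
    obtain ⟨t, ht, b, hb, h⟩ := (forcesMem_on h1).1 hz r hr
    have hat := ha.mono (ht.trans (hr.trans hq))
    rcases (Order.lt_add_one_iff.1 hb).lt_or_eq with hb | hb
    · exact ⟨t, ht, Or.inl ((forcesMem_on_of_eq h1 h hb).congr_right hat.symm)⟩
    · subst hb
      exact ⟨t, ht, Or.inr (h.trans hat.symm)⟩
  have key2 : ∀ z, ∀ q ≤ p, (∀ r ≤ q, ∃ t ≤ r, ForcesMem z a t ∨ ForcesEq z a t) →
      ForcesMem z (oN one (o + 1)) q := by
    intro z q hq hz
    refine ForcesMem.of_dense fun r hr => ?_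
    obtain ⟨t, ht, h | h⟩ := hz r hr
    · have hat := ha.mono (ht.trans (hr.trans hq))
      obtain ⟨w, hw, b, hb, h'⟩ := (forcesMem_on h1).1 (h.congr_right hat) t le_rfl
      exact ⟨w, hw.trans ht, forcesMem_on_of_eq h1 h' (hb.trans (lt_add_one o))⟩
    · have hat := ha.mono (ht.trans (hr.trans hq))
      exact ⟨t, ht, forcesMem_on_of_eq h1 (h.trans hat) (lt_add_one o)⟩
  simp only [Fm.isSucc, forces_all, forces_iff, forces_mem, forces_or, forces_eq]
  constructor
  · intro h
    exact ForcesEq.ext (fun z q hq hz => key2 z q hq ((h z).1 q hq hz))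
      (fun z q hq hz => (h z).2 q hq (key1 z q hq hz))
  · intro h z
    exact ⟨fun q hq hz => key1 z q hq (hz.congr_right (h.mono hq)),
      fun q hq hz => (key2 z q hq hz).congr_right (h.symm.mono hq)⟩

theorem forces_isInductive_omega (p : P) : Forces (Fm.isInductive (oN one ω)) p := by
  simp only [Fm.isInductive, forces_and, forces_all, forces_imp, forces_mem]
  refine ⟨forces_ex_intro (oN one 0) ⟨(forcesMem_on_on h1).2 omega0_pos,
    forces_isEmpty_on_zero h1 p⟩, fun a q _ ha => ?_⟩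
  refine forces_ex.2 fun r hr => ?_
  obtain ⟨t, ht, b, hb, h⟩ := (forcesMem_on h1).1 ha r hr
  refine ⟨t, ht, oN one (b + 1), (forcesMem_on_on h1).2 ?_,
    (forces_isSucc_iff h1 h).2 (ForcesEq.refl _ _)⟩
  exact isSuccLimit_omega0.succ_lt hb

theorem nat_mem_of_isInductive {w : PName P} {p : P} (h : Forces (Fm.isInductive w) p) (n : ℕ) :
    ForcesMem (oN one n) w p := by
  simp only [Fm.isInductive, forces_and, forces_all, forces_imp, forces_mem, forces_ex] at h
  induction n with
  | zero =>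
    refine ForcesMem.of_dense fun q hq => ?_
    obtain ⟨r, hr, e, he, he'⟩ := h.1 q hq
    exact ⟨r, hr, by simpa using he.congr_left (eq_zero_of_isEmpty h1 he')⟩
  | succ n ih =>
    refine ForcesMem.of_dense fun q hq => ?_
    obtain ⟨r, hr, s, hs, hs'⟩ := h.2 _ p le_rfl ih q hq
    refine ⟨r, hr, ?_⟩
    have := (forces_isSucc_iff h1 (ForcesEq.refl (oN one n) r)).1 hs'
    simpa using hs.congr_left this

theorem eq_omega_of_isOmega {w : PName P} {p : P} (h : Forces (Fm.isOmega w) p) :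
    ForcesEq w (oN one ω) p := by
  simp only [Fm.isOmega, forces_and, forces_all, forces_imp] at h
  refine ForcesEq.ext (fun z q hq hz => ?_) (fun z q hq hz => ?_)
  · exact forces_sub.1 (h.2 (oN one ω) p le_rfl (forces_isInductive_omega h1 p)) z q hq hz
  · refine ForcesMem.of_dense fun r hr => ?_
    obtain ⟨t, ht, a, ha, h'⟩ := (forcesMem_on h1).1 hz r hr
    obtain ⟨n, rfl⟩ := lt_omega0.1 ha
    exact ⟨t, ht, ((nat_mem_of_isInductive h1 h.1 n).mono
      (ht.trans (hr.trans hq))).congr_left h'.symm⟩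

theorem forces_functional {f : PName P} {p : P} :
    Forces (Fm.functional f) p ↔ ∀ a b c, ∀ q ≤ p, ForcesMem (op one a b) f q →
      ForcesMem (op one a c) f q → ForcesEq b c q := by
  simp only [Fm.functional, forces_all, forces_imp, forces_and, forces_app h1, forces_eq,
    and_imp]

theorem forces_injective {f : PName P} {p : P} :
    Forces (Fm.injective f) p ↔ ∀ a b c, ∀ q ≤ p, ForcesMem (op one a c) f q →
      ForcesMem (op one b c) f q → ForcesEq a b q := by
  simp only [Fm.injective, forces_all, forces_imp, forces_and, forces_app h1, forces_eq,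
    and_imp]

theorem forces_bij {g x y : PName P} {p : P} :
    Forces (Fm.bij g x y) p ↔
      (∀ w, ∀ q ≤ p, ForcesMem w g q → ∀ r ≤ q, ∃ s ≤ r, ∃ a b,
        ForcesEq w (op one a b) s ∧ ForcesMem a x s ∧ ForcesMem b y s) ∧
      (∀ a, ∀ q ≤ p, ForcesMem a x q → ∀ r ≤ q, ∃ s ≤ r, ∃ b, ForcesMem (op one a b) g s) ∧
      (∀ b, ∀ q ≤ p, ForcesMem b y q → ∀ r ≤ q, ∃ s ≤ r, ∃ a, ForcesMem (op one a b) g s) ∧
      (∀ a b c, ∀ q ≤ p, ForcesMem (op one a b) g q →
        ForcesMem (op one a c) g q → ForcesEq b c q) ∧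
      (∀ a b c, ∀ q ≤ p, ForcesMem (op one a c) g q →
        ForcesMem (op one b c) g q → ForcesEq a b q) := by
  simp only [Fm.bij, forces_and, forces_functional h1, forces_injective h1, forces_all,
    forces_imp, forces_mem, forces_ex, forces_app h1, forces_isPair h1]
  refine and_congr_left fun _ => ?_
  refine forall_congr' fun w => forall_congr' fun q => forall_congr' fun _ =>
    forall_congr' fun _ => ?_
  constructor
  · intro h r hr
    obtain ⟨s, hs, a, h'⟩ := h r hr
    obtain ⟨t, ht, b, h''⟩ := h' s le_rfl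
    exact ⟨t, ht.trans hs, a, b, h''⟩
  · intro h r hr
    obtain ⟨s, hs, a, b, h'⟩ := h r hr
    exact ⟨s, hs, a, fun t ht => ⟨t, le_rfl, b, h'.1.mono ht, h'.2.1.mono ht, h'.2.2.mono ht⟩⟩

/-- If `⟨a, b⟩ ∈ g` is forced, where `g` is forced to be a bijection from `x` to `y`, then
`a ∈ x` and `b ∈ y` are forced. -/
theorem bij_mem {g x y a b : PName P} {p : P} (h : Forces (Fm.bij g x y) p)
    (hab : ForcesMem (op one a b) g p) : ForcesMem a x p ∧ ForcesMem b y p := by
  have h' := ((forces_bij h1).1 h).1 _ p le_rfl hab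
  constructor
  · refine ForcesMem.of_dense fun r hr => ?_
    obtain ⟨s, hs, a', b', he, ha, -⟩ := h' r hr
    exact ⟨s, hs, ha.congr_left (op_inj_left h1 he).symm⟩
  · refine ForcesMem.of_dense fun r hr => ?_
    obtain ⟨s, hs, a', b', he, -, hb⟩ := h' r hr
    exact ⟨s, hs, hb.congr_left (op_inj_right h1 he).symm⟩

end Pool.Agent.Lib.MP_40ade9_lc
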