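import Pool.Agent.Lib.MP_40ade9_lc.Tree

/-! The choice of parameters that makes the tree name have no large antichains or chains. -/

set_option autoImplicit false

namespace Pool.Agent.Lib.MP_40ade9_lc

open Classical Cardinal

section

variable {L W P : Type} [LinearOrder L] [WellFoundedLT L] [LinearOrder W] [Preorder P]

omit [WellFoundedLT L] [LinearOrder W] in
theorem exists_nodes [Infinite W] (hL1 : ∀ a : L, #(Set.Iio a) ≤ #W) :
    ∃ (par : L × W → L × W) (up up' : L → L × W → L × W),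
      (∀ b x, (up b x).1 = b) ∧ (∀ b x, x.1 < b → par (up b x) = x) ∧
      (∀ b x, (up' b x).1 = b) ∧ (∀ b x, x.1 < b → par (up' b x) = x) ∧
      (∀ b x, x.1 < b → up b x ≠ up' b x) ∧ (∀ y a, a < y.1 → (par y).1 < y.1) := by
  have hu : ∀ b : L, Nonempty ((Set.Iio b × W × Bool) ↪ W) := by
    intro b
    rw [← Cardinal.le_def]
    have hW : ℵ₀ ≤ #W := Cardinal.aleph0_le_mk W
    simp only [mk_prod, lift_id]
    have h2 : #W * #Bool = #W :=
      Cardinal.mul_eq_left hW (le_trans (le_of_lt (Cardinal.mk_lt_aleph0_iff.2 inferInstance)) hW)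
        (Cardinal.mk_ne_zero Bool)
    rw [h2]
    exact (mul_le_mul_left (hL1 b) _).trans (Cardinal.mul_eq_self hW).le
  let u : ∀ b : L, (Set.Iio b × W × Bool) ↪ W := fun b => (hu b).some
  let w0 : W := Classical.arbitrary W
  let up : Bool → L → L × W → L × W := fun i b x =>
    (b, if h : x.1 < b then u b (⟨x.1, h⟩, x.2, i) else w0)
  let par : L × W → L × W := fun y =>
    if h : ∃ v, u y.1 v = y.2 then (h.choose.1.1, h.choose.2.1)
    else if h' : ∃ a, a < y.1 then (h'.choose, w0) else y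
  have hpar : ∀ i b x, x.1 < b → par (up i b x) = x := by
    intro i b x hx
    have h1 : up i b x = (b, u b (⟨x.1, hx⟩, x.2, i)) := by simp only [up, dif_pos hx]
    have h2 : ∃ v, u b v = u b (⟨x.1, hx⟩, x.2, i) := ⟨_, rfl⟩
    have h3 : h2.choose = (⟨x.1, hx⟩, x.2, i) := (u b).injective h2.choose_spec
    rw [h1]
    simp only [par]
    rw [dif_pos h2, h3]
  refine ⟨par, up false, up true, fun _ _ => rfl, hpar false, fun _ _ => rfl, hpar true,
    fun b x hx h => ?_, fun y a ha => ?_⟩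
  · simp only [up, dif_pos hx, Prod.mk.injEq, true_and] at h
    have := (u b).injective h
    simp at this
  · simp only [par]
    split_ifs with h h'
    · exact h.choose.1.2
    · exact h'.choose_spec
    · exact absurd ⟨a, ha⟩ h'

theorem exists_evdiff (hW1 : ∀ w : W, (Set.Iio w).Countable)
    (hW2 : ∀ S : Set W, S.Countable → ∃ w, ∀ s ∈ S, s < w)
    (ι : L → L → W) (hι : ∀ b, Set.InjOn (ι b) (Set.Iio b)) :
    ∃ g : L → W → W, ∀ a b j, a < b → ι b a < j → g a j ≠ g b j := by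
  have key : ∀ (b : L) (j : W) (G : ∀ a, a < b → W), ∃ w, ∀ a (h : a < b), ι b a < j →
      G a h < w := by
    intro b j G
    have hc : {a : Set.Iio b | ι b a < j}.Countable := by
      refine Set.Countable.preimage_of_injOn (f := fun a : Set.Iio b => ι b a) (hW1 j) ?_
      intro a _ a' _ h
      exact Subtype.ext (hι b a.2 a'.2 h)
    obtain ⟨w, hw⟩ := hW2 _ (hc.image fun a => G a.1 a.2)
    exact ⟨w, fun a h hj => hw _ ⟨⟨a, h⟩, hj, rfl⟩⟩
  choose nx hnx using key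
  let g : W → L → W := fun j => (wellFounded_lt (α := L)).fix fun b ih => nx b j ih
  refine ⟨fun b j => g j b, fun a b j hab hj => ?_⟩
  have h1 : g j b = nx b j (fun a _ => g j a) := by
    simp only [g]
    rw [WellFounded.fix_eq]
  exact (h1 ▸ hnx b j (fun a _ => g j a) a hab hj).ne

omit [WellFoundedLT L] in
theorem finite_bound {S : Set L} (hS : S.Finite) {a b0 : L} (h0 : b0 < a) (h : ∀ s ∈ S, s < a) :
    ∃ b < a, b0 ≤ b ∧ ∀ s ∈ S, s ≤ b := by
  obtain ⟨b, hb, hmax⟩ := Set.exists_max_image (insert b0 S) id (hS.insert b0)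
    ⟨b0, Set.mem_insert _ _⟩
  refine ⟨b, ?_, hmax b0 (Set.mem_insert _ _), fun s hs => hmax s (Set.mem_insert_of_mem _ hs)⟩
  rcases hb with rfl | hb
  · exact h0
  · exact h b hb

/-- The coherent ladder system with the guessing property. -/
structure Ladder (L : Type) [LinearOrder L] where
  C : L → Set L
  C_lt : ∀ a, ∀ c ∈ C a, c < a
  C_cof : ∀ a, ∀ b < a, ∃ c ∈ C a, b ≤ c
  C_coh : ∀ a, ∀ c ∈ C a, (∃ e ∈ C a, e < c) → (∀ e ∈ C a, e < c → ∃ e' ∈ C a, e < e' ∧ e' < c) →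
    C c = C a ∩ Set.Iio c
  guess : ∀ F : L → L, ∃ a, ∃ e c : ℕ → L, (∀ k, e k ∈ C a ∧ c k ∈ C a ∧ e k < c k ∧
    (∀ w ∈ C a, e k < w → c k ≤ w) ∧ F (e k) < c k) ∧ ∀ b < a, ∃ k, b < e k

/-- A sequence of names for natural numbers that is generic in the sense of Cohen. -/
structure Gen (P : Type) [Preorder P] where
  K : P → ℕ → ℕ → Prop
  mono : ∀ p q m k, K p m k → q ≤ p → K q m k
  func : ∀ p m k k', K p m k → K p m k' → k = k'
  dense : ∀ p m, ∃ q ≤ p, ∃ k, K q m k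
  top : P
  le_top : ∀ p, p ≤ top
  T : P → Finset ℕ
  free : ∀ p m, m ∉ T p → ∀ k, ∃ q ≤ p, K q m k
  meet : ∀ p p' q, q ≤ p → q ≤ p' → ∃ r, r ≤ p ∧ r ≤ p' ∧ T r ⊆ T p ∪ T p'

theorem exists_good [Countable P] [Infinite W] (hW1 : ∀ w : W, (Set.Iio w).Countable)
    (hW2 : ∀ S : Set W, S.Countable → ∃ w, ∀ s ∈ S, s < w)
    (hL1 : ∀ a : L, #(Set.Iio a) ≤ #W)
    (hL2 : ∀ f : (W × W) × W → L, ∃ b, ∀ i, f i < b)
    (f1 : L → L) (f2 : L → W × W → W → W)
    (hf : ∀ (ζ : L) (g : W × W → W → W), ∃ γ, f1 γ = ζ ∧ ∀ π i, g π i < f2 γ π i)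
    (A : Ladder L) (G : Gen P)
    (par : L × W → L × W) (up : L → L × W → L × W)
    (hup : ∀ b x, (up b x).1 = b) (hpar : ∀ b x, x.1 < b → par (up b x) = x)
    (hlt : ∀ y a, a < y.1 → (par y).1 < y.1) :
    ∃ D : Data L (L × W) P, D.h = Prod.fst ∧ D.par = par ∧
      ∀ (p : P) (B : Set (L × W)), (∀ a, ∃ y ∈ B, a ≤ y.1) →
        ∃ q ≤ p, ∃ x ∈ B, ∃ y ∈ B, D.R q x y := by
  let w0 : W := Classical.arbitrary W
  -- injections of initial segments
  have hι0 : ∀ b : L, ∃ ι : L → W, Set.InjOn ι (Set.Iio b) := by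
    intro b
    obtain ⟨u⟩ := (Cardinal.le_def _ _).1 (hL1 b)
    refine ⟨fun a => if h : a < b then u ⟨a, h⟩ else w0, fun a ha a' ha' h => ?_⟩
    have ha1 : a < b := ha
    have ha2 : a' < b := ha'
    simp only [dif_pos ha1, dif_pos ha2] at h
    exact congrArg Subtype.val (u.injective h)
  choose ι hι using hι0
  have hφ0 : ∀ b : L, ∃ φ : W → L, ∀ a < b, φ (ι b a) = a := by
    intro b
    have : Nonempty L := ⟨b⟩
    exact ⟨Function.invFunOn (ι b) (Set.Iio b), fun a ha => (hι b).leftInvOn_invFunOn ha⟩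
  choose φ hφ using hφ0
  obtain ⟨g, hg⟩ := exists_evdiff hW1 hW2 ι hι
  have he0 : ∀ δ : W, ∃ e : W → ℕ, Set.InjOn e (Set.Iio δ) := fun δ =>
    Set.countable_iff_exists_injOn.1 (hW1 δ)
  choose en hen using he0
  have hd0 : ∀ δ : W, ∃ d : ℕ → W, ∀ a < δ, d (en δ a) = a := by
    intro δ
    exact ⟨Function.invFunOn (en δ) (Set.Iio δ), fun a ha => (hen δ).leftInvOn_invFunOn ha⟩
  choose dn hdn using hd0
  have hψ0 : ∀ ζ : L, ∃ ψ : W → L × W, ∀ x : L × W, x.1 < ζ → ∃ i, ψ i = x := by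
    intro ζ
    have : #(Set.Iio ζ × W) ≤ #W := by
      simp only [mk_prod, lift_id]
      exact (mul_le_mul_left (hL1 ζ) _).trans
        (Cardinal.mul_eq_self (Cardinal.aleph0_le_mk W)).le
    obtain ⟨u⟩ := (Cardinal.le_def _ _).1 this
    refine ⟨fun i => if h : ∃ v, u v = i then (h.choose.1.1, h.choose.2) else (ζ, w0),
      fun x hx => ⟨u (⟨x.1, hx⟩, x.2), ?_⟩⟩
    have h : ∃ v, u v = u (⟨x.1, hx⟩, x.2) := ⟨_, rfl⟩
    simp only [dif_pos h]
    rw [u.injective h.choose_spec]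
  choose ψ hψ using hψ0
  let D : W × W → Data L (L × W) P := fun π =>
    { h := Prod.fst, par := par, up := up, C := A.C, top := G.top
      K := fun p c t u w => ∃ k, G.K p (Nat.pair (en π.2 (g c π.1)) ((G.T u).sup id + 1)) k ∧
        w = ψ (f1 (φ c (dn π.2 k.unpair.1)))
          (dn (f2 (φ c (dn π.2 k.unpair.1)) π t.2) k.unpair.2)
      h_up := hup, par_up := hpar, h_par := hlt, C_lt := A.C_lt, C_cof := A.C_cof,
      C_coh := A.C_coh, le_top := G.le_top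
      K_mono := fun p q c t u w ⟨k, h1, h2⟩ hq => ⟨k, G.mono _ _ _ _ h1 hq, h2⟩
      K_fun := fun p c t u w w' ⟨k, h1, h2⟩ ⟨k', h1', h2'⟩ => by
        rw [h2, h2', G.func _ _ _ _ h1 h1']
      K_dense := fun p c t u => by
        obtain ⟨q, hq, k, hk⟩ := G.dense p (Nat.pair (en π.2 (g c π.1)) ((G.T u).sup id + 1))
        exact ⟨q, hq, _, k, hk, rfl⟩ }
  by_contra hcon
  have hbad : ∀ π, ∃ (p : P) (B : Set (L × W)), (∀ a, ∃ y ∈ B, a ≤ y.1) ∧
      ∀ q ≤ p, ∀ x ∈ B, ∀ y ∈ B, ¬ (D π).R q x y := by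
    intro π
    by_contra hc
    push Not at hc
    exact hcon ⟨D π, rfl, rfl, hc⟩
  choose p0 B hB hanti using hbad
  have : Nonempty P := ⟨p0 (w0, w0)⟩
  obtain ⟨s, hs⟩ : ∃ s : W → W × P, Function.Surjective s := by
    have : #(W × P) ≤ #W := by
      simp only [mk_prod, lift_id]
      exact (mul_le_mul_right (mk_le_aleph0.trans (Cardinal.aleph0_le_mk W)) _).trans
        (Cardinal.mul_eq_self (Cardinal.aleph0_le_mk W)).le
    obtain ⟨u⟩ := (Cardinal.le_def _ _).1 this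
    exact ⟨Function.invFun u, Function.invFun_surjective u.injective⟩
  have hwit : ∀ (π : W × W) (t : L × W) (q : P), ∃ w ∈ B π,
      (∃ z ∈ B π, (D π).R q t z) → (D π).R q t w := by
    intro π t q
    by_cases h : ∃ z ∈ B π, (D π).R q t z
    · obtain ⟨z, hz, hR⟩ := h
      exact ⟨z, hz, fun _ => hR⟩
    · obtain ⟨y, hy, -⟩ := hB π t.1
      exact ⟨y, hy, fun h' => absurd h' h⟩
  choose wit hwitB hwitR using hwit
  choose bd hbd using fun η => hL2 (fun x => (wit x.1 (η, (s x.2).1) (s x.2).2).1)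
  have hbd' : ∀ π (t : L × W) q, (wit π t q).1 < bd t.1 := by
    intro π t q
    obtain ⟨i, hi⟩ := hs (t.2, q)
    have := hbd t.1 (π, i)
    simpa only [hi] using this
  choose idx hidx using fun π t q => hψ _ _ (hbd' π t q)
  choose gb hgb using fun η π i => hW2 _ (Set.countable_range fun q => idx π (η, i) q)
  choose γ hγ1 hγ2 using fun η => hf (bd η) (gb η)
  obtain ⟨α, e, c, hec, hcof⟩ := A.guess (fun η => max (γ η) (bd η))
  obtain ⟨j, hj⟩ := hW2 _ (Set.countable_range fun x : ℕ × ℕ => ι (c x.1) (c x.2))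
  obtain ⟨δ, hδ⟩ := hW2 _ ((Set.countable_range fun k => g (c k) j).union
    (Set.countable_range fun k => ι (c k) (γ (e k))))
  have hδ1 : ∀ k, g (c k) j < δ := fun k => hδ _ (Or.inl ⟨k, rfl⟩)
  have hδ2 : ∀ k, ι (c k) (γ (e k)) < δ := fun k => hδ _ (Or.inr ⟨k, rfl⟩)
  have hτ : ∀ k l, en δ (g (c k) j) = en δ (g (c l) j) → c k = c l := by
    intro k l h
    have h1 := hen δ (hδ1 k) (hδ1 l) h
    rcases lt_trichotomy (c k) (c l) with hlt | heq | hlt
    · exact absurd h1 (hg _ _ _ hlt (hj _ ⟨(l, k), rfl⟩))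
    · exact heq
    · exact absurd h1.symm (hg _ _ _ hlt (hj _ ⟨(k, l), rfl⟩))
  obtain ⟨y, hy, hαy⟩ := hB (j, δ) α
  obtain ⟨q0, hq0, z, hz, hzy⟩ : ∃ q0 ≤ p0 (j, δ), ∃ z : L × W, z.1 = α ∧
      ∀ q ≤ q0, ∀ u, (D (j, δ)).R q u z → (D (j, δ)).R q u y := by
    rcases hαy.lt_or_eq with hlt | heq
    · obtain ⟨q, hq, u, hu, hR⟩ := Data.pred_dense (D := D (j, δ)) y α hlt (p0 (j, δ))
      exact ⟨q, hq, u, hu, fun r hr v hv => hv.trans (hR.mono hr)⟩
    · exact ⟨_, le_rfl, y, heq.symm, fun _ _ _ h => h⟩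
  subst hz
  have hpz : (par z).1 < z.1 := hlt z _ (A.C_lt _ _ (hec 0).1)
  let M : Set ℕ := (fun m => m.unpair.1) '' (G.T q0 : Set ℕ)
  have hM : M.Finite := (G.T q0).finite_toSet.image _
  have hS : {b | ∃ k, c k = b ∧ en δ (g (c k) j) ∈ M}.Finite := by
    refine Set.Finite.of_finite_image (f := fun b => en δ (g b j)) (hM.subset ?_) ?_
    · rintro _ ⟨_, ⟨k, rfl, hk⟩, rfl⟩
      exact hk
    · rintro _ ⟨k, rfl, -⟩ _ ⟨l, rfl, -⟩ h
      exact hτ k l h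
  obtain ⟨b, hb, hb0, hbS⟩ := finite_bound hS hpz (by
    rintro _ ⟨k, rfl, -⟩
    exact A.C_lt _ _ (hec k).2.1)
  obtain ⟨k, hk⟩ := hcof b hb
  obtain ⟨h1, h2, h3, h4, h5⟩ := hec k
  have hkM : en δ (g (c k) j) ∉ M := fun h =>
    absurd (hbS _ ⟨k, rfl, h⟩) (not_le.2 (hk.trans h3))
  obtain ⟨q1, hq1, t, u, ht⟩ := Data.ch_dense (D := D (j, δ)) (D (j, δ)).R (A.C z.1) (par z) (e k)
    h1 (hb0.trans_lt hk) q0
  obtain ⟨r, hr0, hru, hT⟩ := G.meet q0 u q1 hq1 ht.le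
  have htr := ht.of_le hru
  have htz : (D (j, δ)).R r t z := Data.R_ch (D := D (j, δ)) hpz htr
  have hty := hzy r hr0 t htz
  have hte : t.1 = e k := ht.level.1
  have hcell : Nat.pair (en δ (g (c k) j)) ((G.T u).sup id + 1) ∉ G.T r := by
    intro h
    rcases Finset.mem_union.1 (hT h) with h | h
    · exact hkM ⟨_, h, by simp⟩
    · have h6 := Finset.le_sup (f := id) h
      have h7 := Nat.right_le_pair (en δ (g (c k) j)) ((G.T u).sup id + 1)
      simp only [id] at h6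
      omega
  have hlt2 : idx (j, δ) t r < f2 (γ (e k)) (j, δ) t.2 := by
    refine lt_trans ?_ (hγ2 (e k) (j, δ) t.2)
    rw [← hte]
    exact hgb t.1 (j, δ) t.2 _ ⟨r, rfl⟩
  obtain ⟨q2, hq2, hK⟩ := G.free r _ hcell
    (Nat.pair (en δ (ι (c k) (γ (e k)))) (en (f2 (γ (e k)) (j, δ) t.2) (idx (j, δ) t r)))
  have hK' : (D (j, δ)).K q2 (c k) t u (wit (j, δ) t r) := by
    refine ⟨_, hK, ?_⟩
    simp only [Nat.unpair_pair]
    rw [hdn δ _ (hδ2 k), hφ _ _ ((le_max_left _ _).trans_lt h5), hdn _ _ hlt2, hγ1, ← hte, hidx]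
  obtain ⟨q3, hq3, hR⟩ := Data.sealing (D := D (j, δ)) (y := z) hpz h1 h2 h3 h4 (htr.mono hq2) hK'
    ((hbd' _ t r).trans (hte ▸ (le_max_right _ _).trans_lt h5))
    ((hwitR _ _ _ ⟨y, hy, hty⟩).mono hq2)
  exact hanti (j, δ) q3 (hq3.trans (hq2.trans (hr0.trans hq0))) _ (hwitB _ _ _) y hy
    (hzy q3 (hq3.trans (hq2.trans hr0)) _ hR)

/-- From small antichains and splitting to small chains. -/
theorem chain_small [Countable P] {X : Type} (D : Data L X P)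
    (hL : ∀ f : P → L, ∃ b, ∀ i, f i < b)
    (hsplit : ∀ b x, D.h x < b → ∃ y y', y ≠ y' ∧ D.h y = b ∧ D.h y' = b ∧ D.par y = x ∧
      D.par y' = x)
    (hS : ∀ (p : P) (B : Set X), (∀ a, ∃ y ∈ B, a ≤ D.h y) →
        ∃ q ≤ p, ∃ x ∈ B, ∃ y ∈ B, D.R q x y)
    (p : P) (B : Set X) (hB : ∀ a, ∃ y ∈ B, a ≤ D.h y) :
    ∃ q ≤ p, ∃ x ∈ B, ∃ y ∈ B, x ≠ y ∧ ∀ r ≤ q, ¬ D.R r x y ∧ ¬ D.R r y x := by
  by_contra hcon
  push Not at hcon
  have hnm : ∀ a : L, ∃ b, a < b := fun a => (hL fun _ => a).imp fun _ h => h p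
  have hsucc : ∀ a : L, ∃ b, a < b ∧ ∀ c, c < b → c ≤ a := by
    intro a
    obtain ⟨b, hb, hmin⟩ := (wellFounded_lt (α := L)).has_min {b | a < b} (hnm a)
    exact ⟨b, hb, fun c hc => not_lt.1 fun h => hmin c h hc⟩
  have key : ∀ x : X, ∃ q ≤ p, ∃ y ∈ B, ∃ u c, D.h x < D.h c ∧ (∀ a < D.h c, a ≤ D.h x) ∧
      D.par c = x ∧ D.h u = D.h c ∧ u ≠ c ∧ D.R q u y := by
    intro x
    obtain ⟨b, hb, hmin⟩ := hsucc (D.h x)
    obtain ⟨b', hb'⟩ := hnm b
    obtain ⟨y, hy, hby⟩ := hB b'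
    obtain ⟨q, hq, u, hu, hR⟩ := Data.pred_dense y b (hb'.trans_le hby) p
    obtain ⟨c, c', hne, h1, h2, h3, h4⟩ := hsplit b x hb
    by_cases huc : u = c
    · exact ⟨q, hq, y, hy, u, c', h2 ▸ hb, h2 ▸ hmin, h4, hu.trans h2.symm, huc ▸ hne, hR⟩
    · exact ⟨q, hq, y, hy, u, c, h1 ▸ hb, h1 ▸ hmin, h3, hu.trans h1.symm, huc, hR⟩
  choose q hq y hy u c h1 h2 h3 h4 h5 h6 using key
  obtain ⟨q0, hq0⟩ : ∃ q0, ∀ a, ∃ x ∈ B, q x = q0 ∧ a ≤ D.h x := by
    by_contra hc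
    push Not at hc
    choose f hf using hc
    obtain ⟨b, hb⟩ := hL f
    obtain ⟨x, hx, hbx⟩ := hB b
    exact absurd ((hf _ x hx rfl).trans (hb _)) (not_lt.2 hbx)
  obtain ⟨r, hr, _, ⟨x, ⟨hx, hqx⟩, rfl⟩, _, ⟨x', ⟨hx', hqx'⟩, rfl⟩, hR⟩ :=
    hS q0 (c '' {x | x ∈ B ∧ q x = q0}) (fun a => by
      obtain ⟨x, hx, h, ha⟩ := hq0 a
      exact ⟨c x, ⟨x, ⟨hx, h⟩, rfl⟩, ha.trans (h1 x).le⟩)
  have hrp : r ≤ p := hr.trans (hqx ▸ hq x)
  have hxc : ∀ s, D.R s x' (c x') := fun s => by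
    have := Data.R_par (D := D) s (y := c x') (by rw [h3]; exact h1 x')
    rwa [h3] at this
  have huy : ∀ s ≤ r, D.R s (u x) (y x) := fun s hs => (h6 x).mono (hs.trans (hqx ▸ hr))
  have hno : ∀ s ≤ r, ¬ D.R s (c x) (y x) := fun s hs h => h5 x ((huy s hs).unique h (h4 x))
  obtain ⟨r', hr', hle⟩ : ∃ r' ≤ r, c x = x' ∨ D.R r' (c x) x' := by
    rcases (h2 x' _ hR.lt).lt_or_eq with hlt | heq
    · obtain ⟨s, hs, v, hv, hvR⟩ := Data.pred_dense x' _ hlt r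
      have : v = c x := (hvR.trans (hxc s)).unique (hR.mono hs) hv
      exact ⟨s, hs, Or.inr (this ▸ hvR)⟩
    · exact ⟨r, le_rfl, Or.inl (hR.unique (hxc r) heq)⟩
  have hcy : D.h (c x) < D.h (y x) := h4 x ▸ (h6 x).lt
  by_cases hxy : x' = y x
  · rcases hle with h | h
    · exact absurd hcy (by rw [h, hxy]; exact lt_irrefl _)
    · exact hno r' hr' (hxy ▸ h)
  · obtain ⟨s, hs, hcmp⟩ := hcon r' (hr'.trans hrp) x' hx' (y x) (hy x) hxy
    by_cases hc1 : D.R s x' (y x)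
    · rcases hle with h | h
      · exact hno s (hs.trans hr') (h ▸ hc1)
      · exact hno s (hs.trans hr') ((h.mono hs).trans hc1)
    · have hc2 := hcmp hc1
      rcases hle with h | h
      · exact absurd (hcy.trans hc2.lt) (by rw [h]; exact lt_irrefl _)
      · exact h5 x (((huy s (hs.trans hr')).trans hc2).unique (h.mono hs) (h4 x))

end

end Pool.Agent.Lib.MP_40ade9_lc
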