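import Mathlib

/-!
Definitions for the problem on Souslin trees at `ℵ₂` after adding one Cohen real.

The ground model `V` is the universe of sets `PSet.{0}` / `ZFSet.{0}` of Mathlib, whose cardinals
and ordinals are `Cardinal.{0}` and `Ordinal.{0}`.  A statement holds in every generic extension
by a forcing notion `P` exactly when every condition of `P` forces it; we use the standard
ground-model definition of the forcing relation (Kunen, Set Theory, 1980, Chapter VII,
Definition 3.3), clause by clause.
-/

set_option autoImplicit false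

universe u v

namespace Pool.Agent.Lib.MP_40ade9_lc

/-! ### Ground-model notions -/

/-- `β` is an accumulation point of `C`: `β > 0` and `sup (C ∩ β) = β`. -/
def IsAccPt (C : Set Ordinal.{u}) (β : Ordinal.{u}) : Prop :=
  0 < β ∧ ∀ ξ < β, ∃ γ ∈ C, ξ < γ ∧ γ < β

/-- `C` is a club subset of `α`: a subset of `α`, unbounded in `α`, that contains its
accumulation points below `α`. -/
def IsClubIn (C : Set Ordinal.{u}) (α : Ordinal.{u}) : Prop :=
  C ⊆ Set.Iio α ∧ (∀ ξ < α, ∃ γ ∈ C, ξ < γ) ∧ ∀ β < α, IsAccPt C β → β ∈ C

/-- The principle `□(κ)`: a coherent sequence `⟨C α : α < κ limit⟩` of clubs without a thread. -/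
def Square (κ : Ordinal.{u}) : Prop :=
  ∃ C : Ordinal.{u} → Set Ordinal.{u},
    (∀ α < κ, Order.IsSuccLimit α → IsClubIn (C α) α) ∧
    (∀ α < κ, Order.IsSuccLimit α → ∀ β < α, IsAccPt (C α) β → C β = C α ∩ Set.Iio β) ∧
    ¬ ∃ D, IsClubIn D κ ∧ ∀ α < κ, IsAccPt D α → D ∩ Set.Iio α = C α

/-- The dominating number satisfies `𝔡(κ) ≤ c`: there is a family of at most `c` functions from
`κ` to `κ` (with `κ` as the well-order `κ.ToType` of the ordinals below it) such that every function
from `κ` to `κ` is eventually dominated by a member of the family. -/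
def DominatingLE (κ : Ordinal.{u}) (c : Cardinal.{u}) : Prop :=
  ∃ 𝒟 : Set (κ.ToType → κ.ToType), Cardinal.mk 𝒟 ≤ c ∧
    ∀ g : κ.ToType → κ.ToType, ∃ d ∈ 𝒟, ∃ ξ₀, ∀ ξ, ξ₀ ≤ ξ → g ξ ≤ d ξ

/-- Conditions of Cohen forcing: finite partial functions from `ω` to `2`, as sets of pairs. -/
structure Cohen where
  graph : Finset (ℕ × Bool)
  func : ∀ n a b, (n, a) ∈ graph → (n, b) ∈ graph → a = b

/-- Reverse inclusion: `q ≤ p` means that `q` extends `p`. -/
instance : Preorder Cohen where
  le q p := p.graph ⊆ q.graph
  le_refl _ := Finset.Subset.refl _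
  le_trans _ _ _ h1 h2 := Finset.Subset.trans h2 h1

/-! ### The language of set theory -/

/-- First-order formulas of the language of set theory whose variables range over `V`; a
quantifier binds its variable as a function `V → Fm V`.  Primitive symbols: `=`, `∈`, `¬`, `∧`,
`∃`. -/
inductive Fm (V : Type v) : Type v
  | eq : V → V → Fm V
  | mem : V → V → Fm V
  | not : Fm V → Fm V
  | and : Fm V → Fm V → Fm V
  | ex : (V → Fm V) → Fm V

namespace Fm

variable {V : Type v}

/-- `φ ∨ ψ` -/
def or (φ ψ : Fm V) : Fm V := not (and (not φ) (not ψ))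
/-- `φ → ψ` -/
def imp (φ ψ : Fm V) : Fm V := not (and φ (not ψ))
/-- `φ ↔ ψ` -/
def iff (φ ψ : Fm V) : Fm V := and (imp φ ψ) (imp ψ φ)
/-- `∀ x, φ x` -/
def all (φ : V → Fm V) : Fm V := not (ex fun x => not (φ x))

/-- `x ⊆ y` -/
def sub (x y : V) : Fm V := all fun z => imp (mem z x) (mem z y)
/-- `e = ∅` -/
def isEmpty (e : V) : Fm V := all fun z => not (mem z e)
/-- `s = a ∪ {a}` -/
def isSucc (s a : V) : Fm V := all fun z => iff (mem z s) (or (mem z a) (eq z a))
/-- `w` contains `∅` and is closed under successors -/
def isInductive (w : V) : Fm V :=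
  and (ex fun e => and (mem e w) (isEmpty e))
    (all fun a => imp (mem a w) (ex fun s => and (mem s w) (isSucc s a)))
/-- `w = ω`, the least inductive set -/
def isOmega (w : V) : Fm V := and (isInductive w) (all fun y => imp (isInductive y) (sub w y))
/-- `z = {a, b}` -/
def isUPair (z a b : V) : Fm V := all fun t => iff (mem t z) (or (eq t a) (eq t b))
/-- `w = ⟨a, b⟩ = {{a}, {a, b}}` (Kuratowski pair) -/
def isPair (w a b : V) : Fm V :=
  all fun z => iff (mem z w) (or (isUPair z a a) (isUPair z a b))
/-- `⟨a, b⟩ ∈ f` -/
def app (f a b : V) : Fm V := ex fun w => and (mem w f) (isPair w a b)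
/-- the relation `f` is single-valued -/
def functional (f : V) : Fm V :=
  all fun a => all fun b => all fun c => imp (and (app f a b) (app f a c)) (eq b c)
/-- the relation `f` is one-to-one -/
def injective (f : V) : Fm V :=
  all fun a => all fun b => all fun c => imp (and (app f a c) (app f b c)) (eq a b)
/-- `g` is a bijection from `x` onto `y` -/
def bij (g x y : V) : Fm V :=
  and (all fun w => imp (mem w g)
        (ex fun a => ex fun b => and (isPair w a b) (and (mem a x) (mem b y))))
  (and (all fun a => imp (mem a x) (ex fun b => app g a b))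
  (and (all fun b => imp (mem b y) (ex fun a => app g a b))
  (and (functional g) (injective g))))
/-- `|x| = |y|` -/
def equinum (x y : V) : Fm V := ex fun g => bij g x y
/-- `l` is an ordinal: a transitive set on which `∈` is trichotomous -/
def isOrdinal (l : V) : Fm V :=
  and (all fun y => imp (mem y l) (sub y l))
    (all fun y => all fun z =>
      imp (and (mem y l) (mem z l)) (or (mem y z) (or (eq y z) (mem z y))))
/-- `l` is a cardinal: an ordinal not equinumerous with any smaller ordinal -/
def isCardinal (l : V) : Fm V :=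
  and (isOrdinal l) (all fun y => imp (mem y l) (not (equinum y l)))
/-- `l = m⁺`: `l` is the least cardinal greater than `m` -/
def isSuccCard (l m : V) : Fm V :=
  and (isCardinal l) (and (mem m l)
    (all fun y => imp (and (mem y l) (isCardinal y)) (or (mem y m) (eq y m))))
/-- `l = ℵ₂`, that is `l = ω⁺⁺` -/
def isAlephTwo (l : V) : Fm V :=
  ex fun w => ex fun m => and (isOmega w) (and (isSuccCard m w) (isSuccCard l m))
/-- `|A| < l` for a cardinal `l`: there is a one-to-one function from `A` into some `m ∈ l`
(a bijection from `A` onto a subset of `m`) -/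
def cardLt (A l : V) : Fm V :=
  ex fun m => and (mem m l) (ex fun y => and (sub y m) (equinum A y))
/-- `R` is a strict partial order on `T` -/
def isStrictOrder (T R : V) : Fm V :=
  and (all fun w => imp (mem w R)
        (ex fun a => ex fun b => and (isPair w a b) (and (mem a T) (mem b T))))
  (and (all fun a => not (app R a a))
    (all fun a => all fun b => all fun c => imp (and (app R a b) (app R b c)) (app R a c)))
/-- `g` is an order isomorphism from the set `{s : s R t}` of predecessors of `t`, ordered by `R`,
onto the ordinal `x`, ordered by `∈` -/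
def isPredIso (g R t x : V) : Fm V :=
  and (ex fun D => and (all fun s => iff (mem s D) (app R s t)) (bij g D x))
    (all fun s => all fun s' => all fun a => all fun a' =>
      imp (and (app g s a) (app g s' a')) (iff (app R s s') (mem a a')))
/-- the node `t` has height `x`: its predecessors are well-ordered by `R` in order type `x` -/
def hasHeight (R t x : V) : Fm V := and (isOrdinal x) (ex fun g => isPredIso g R t x)
/-- `(T, R)` is a tree of height `l`: a strict partial order in which the predecessors of every
node are well-ordered in some order type `x ∈ l`, and every `x ∈ l` is the height of a node -/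
def isTree (T R l : V) : Fm V :=
  and (isStrictOrder T R)
  (and (all fun t => imp (mem t T) (ex fun x => and (mem x l) (hasHeight R t x)))
    (all fun x => imp (mem x l) (ex fun t => and (mem t T) (hasHeight R t x))))
/-- `A ⊆ T` is a chain: any two elements are comparable -/
def isChain (A T R : V) : Fm V :=
  and (sub A T) (all fun a => all fun b =>
    imp (and (mem a A) (mem b A)) (or (app R a b) (or (eq a b) (app R b a))))
/-- `A ⊆ T` is an antichain: no element is below another one -/
def isAntichain (A T R : V) : Fm V :=
  and (sub A T) (all fun a => all fun b => imp (and (mem a A) (mem b A)) (not (app R a b)))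
/-- `(T, R)` is an `l`-Souslin tree: a tree of height `l` in which every chain (in particular
every branch) and every antichain has cardinality `< l` -/
def isSouslin (T R l : V) : Fm V :=
  and (isTree T R l)
    (all fun A => imp (or (isChain A T R) (isAntichain A T R)) (cardLt A l))
/-- there is an `ℵ₂`-Souslin tree -/
def existsAlephTwoSouslin : Fm V :=
  ex fun l => and (isAlephTwo l) (ex fun T => ex fun R => isSouslin T R l)

end Fm

/-! ### Names and the forcing relation -/

/-- `P`-names: a name is a set of pairs `⟨σ, r⟩` of a name `σ` and a condition `r`, given as a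
family `⟨A a, c a⟩` indexed by `a : α`. -/
inductive PName (P : Type u) : Type (u + 1)
  | mk (α : Type u) (A : α → PName P) (c : α → P) : PName P

section

variable {P : Type u} [Preorder P]

/-- `D` is dense below `p`. -/
def DenseBelow (D : Set P) (p : P) : Prop := ∀ q ≤ p, ∃ r ≤ q, r ∈ D

/-- `p ⊩ τ₁ = τ₂` (Kunen VII.3.3(a)). -/
def ForcesEq : PName P → PName P → P → Prop
  | ⟨_, A, c⟩, ⟨_, B, d⟩, p =>
    (∀ a, DenseBelow {q | q ≤ c a → ∃ b, q ≤ d b ∧ ForcesEq (A a) (B b) q} p) ∧
    (∀ b, DenseBelow {q | q ≤ d b → ∃ a, q ≤ c a ∧ ForcesEq (A a) (B b) q} p)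

/-- `p ⊩ τ₁ ∈ τ₂` (Kunen VII.3.3(b)). -/
def ForcesMem : PName P → PName P → P → Prop
  | σ, ⟨_, B, d⟩, p => DenseBelow {q | ∃ b, q ≤ d b ∧ ForcesEq (B b) σ q} p

/-- The forcing relation `p ⊩ φ` for formulas with names as parameters (Kunen VII.3.3). -/
def Forces : Fm (PName P) → P → Prop
  | .eq σ τ, p => ForcesEq σ τ p
  | .mem σ τ, p => ForcesMem σ τ p
  | .not φ, p => ¬ ∃ q ≤ p, Forces φ q
  | .and φ ψ, p => Forces φ p ∧ Forces ψ p
  | .ex φ, p => DenseBelow {r | ∃ σ, Forces (φ σ) r} p

end

end Pool.Agent.Lib.MP_40ade9_lc
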