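import Pool.Agent.Lib.MP_40ade9_lc.Defs

/-! Basic properties of the forcing relation. -/

set_option autoImplicit false

universe u

namespace Pool.Agent.Lib.MP_40ade9_lc

variable {P : Type u} [Preorder P]

theorem DenseBelow.mono {D : Set P} {p q : P} (h : DenseBelow D p) (hq : q ≤ p) :
    DenseBelow D q := fun r hr => h r (hr.trans hq)

theorem DenseBelow.of_dense {D : Set P} {p : P}
    (h : ∀ q ≤ p, ∃ r ≤ q, DenseBelow D r) : DenseBelow D p := by
  intro q hq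
  obtain ⟨r, hr, hD⟩ := h q hq
  obtain ⟨s, hs, hsD⟩ := hD r le_rfl
  exact ⟨s, hs.trans hr, hsD⟩

theorem forcesEq_mk {α β : Type u} {A : α → PName P} {c : α → P} {B : β → PName P} {d : β → P}
    {p : P} : ForcesEq (PName.mk α A c) (PName.mk β B d) p ↔
      (∀ a, ∀ q ≤ p, q ≤ c a → ∃ r ≤ q, ∃ b, r ≤ d b ∧ ForcesEq (A a) (B b) r) ∧
      (∀ b, ∀ q ≤ p, q ≤ d b → ∃ r ≤ q, ∃ a, r ≤ c a ∧ ForcesEq (A a) (B b) r) := by
  rw [ForcesEq]
  constructor
  · rintro ⟨h1, h2⟩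
    refine ⟨fun a q hq hc => ?_, fun b q hq hd => ?_⟩
    · obtain ⟨r, hr, h⟩ := h1 a q hq
      exact ⟨r, hr, h (hr.trans hc)⟩
    · obtain ⟨r, hr, h⟩ := h2 b q hq
      exact ⟨r, hr, h (hr.trans hd)⟩
  · rintro ⟨h1, h2⟩
    refine ⟨fun a q hq => ?_, fun b q hq => ?_⟩
    · by_cases hc : q ≤ c a
      · obtain ⟨r, hr, h⟩ := h1 a q hq hc
        exact ⟨r, hr, fun _ => h⟩
      · exact ⟨q, le_rfl, fun h => absurd h hc⟩
    · by_cases hd : q ≤ d b
      · obtain ⟨r, hr, h⟩ := h2 b q hq hd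
        exact ⟨r, hr, fun _ => h⟩
      · exact ⟨q, le_rfl, fun h => absurd h hd⟩

theorem forcesMem_mk {σ : PName P} {β : Type u} {B : β → PName P} {d : β → P} {p : P} :
    ForcesMem σ (PName.mk β B d) p ↔ ∀ q ≤ p, ∃ r ≤ q, ∃ b, r ≤ d b ∧ ForcesEq (B b) σ r := by
  rw [ForcesMem]
  rfl

theorem ForcesEq.mono {σ τ : PName P} {p q : P} (h : ForcesEq σ τ p) (hq : q ≤ p) :
    ForcesEq σ τ q := by
  obtain ⟨α, A, c⟩ := σ
  obtain ⟨β, B, d⟩ := τ
  rw [forcesEq_mk] at h ⊢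
  exact ⟨fun a r hr => h.1 a r (hr.trans hq), fun b r hr => h.2 b r (hr.trans hq)⟩

theorem ForcesEq.of_dense {σ τ : PName P} {p : P} (h : ∀ q ≤ p, ∃ r ≤ q, ForcesEq σ τ r) :
    ForcesEq σ τ p := by
  obtain ⟨α, A, c⟩ := σ
  obtain ⟨β, B, d⟩ := τ
  rw [forcesEq_mk]
  refine ⟨fun a q hq hc => ?_, fun b q hq hd => ?_⟩
  · obtain ⟨r, hr, h'⟩ := h q hq
    rw [forcesEq_mk] at h'
    obtain ⟨s, hs, h''⟩ := h'.1 a r le_rfl (hr.trans hc)
    exact ⟨s, hs.trans hr, h''⟩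
  · obtain ⟨r, hr, h'⟩ := h q hq
    rw [forcesEq_mk] at h'
    obtain ⟨s, hs, h''⟩ := h'.2 b r le_rfl (hr.trans hd)
    exact ⟨s, hs.trans hr, h''⟩

theorem ForcesEq.refl : ∀ (σ : PName P) (p : P), ForcesEq σ σ p
  | ⟨_, A, _⟩, _ => by
    rw [forcesEq_mk]
    exact ⟨fun a q _ hc => ⟨q, le_rfl, a, hc, ForcesEq.refl (A a) q⟩,
      fun a q _ hc => ⟨q, le_rfl, a, hc, ForcesEq.refl (A a) q⟩⟩

theorem ForcesEq.symm : ∀ {σ τ : PName P} {p : P}, ForcesEq σ τ p → ForcesEq τ σ p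
  | ⟨_, _, _⟩, ⟨_, _, _⟩, _, h => by
    rw [forcesEq_mk] at h ⊢
    refine ⟨fun b q hq hd => ?_, fun a q hq hc => ?_⟩
    · obtain ⟨r, hr, a, ha, h'⟩ := h.2 b q hq hd
      exact ⟨r, hr, a, ha, ForcesEq.symm h'⟩
    · obtain ⟨r, hr, b, hb, h'⟩ := h.1 a q hq hc
      exact ⟨r, hr, b, hb, ForcesEq.symm h'⟩

theorem ForcesEq.trans : ∀ {σ τ ρ : PName P} {p : P},
    ForcesEq σ τ p → ForcesEq τ ρ p → ForcesEq σ ρ p
  | ⟨_, _, _⟩, ⟨_, _, _⟩, ⟨_, _, _⟩, _, h1, h2 => by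
    rw [forcesEq_mk] at h1 h2 ⊢
    refine ⟨fun a q hq hc => ?_, fun e q hq he => ?_⟩
    · obtain ⟨r, hr, b, hb, h'⟩ := h1.1 a q hq hc
      obtain ⟨s, hs, e, he, h''⟩ := h2.1 b r (hr.trans hq) hb
      exact ⟨s, hs.trans hr, e, he, ForcesEq.trans (h'.mono hs) h''⟩
    · obtain ⟨r, hr, b, hb, h'⟩ := h2.2 e q hq he
      obtain ⟨s, hs, a, ha, h''⟩ := h1.2 b r (hr.trans hq) hb
      exact ⟨s, hs.trans hr, a, ha, ForcesEq.trans h'' (h'.mono hs)⟩

theorem ForcesMem.mono {σ τ : PName P} {p q : P} (h : ForcesMem σ τ p) (hq : q ≤ p) :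
    ForcesMem σ τ q := by
  obtain ⟨β, B, d⟩ := τ
  rw [forcesMem_mk] at h ⊢
  exact fun r hr => h r (hr.trans hq)

theorem ForcesMem.of_dense {σ τ : PName P} {p : P} (h : ∀ q ≤ p, ∃ r ≤ q, ForcesMem σ τ r) :
    ForcesMem σ τ p := by
  obtain ⟨β, B, d⟩ := τ
  rw [forcesMem_mk]
  intro q hq
  obtain ⟨r, hr, h'⟩ := h q hq
  rw [forcesMem_mk] at h'
  obtain ⟨s, hs, h''⟩ := h' r le_rfl
  exact ⟨s, hs.trans hr, h''⟩

theorem ForcesMem.congr_left {σ σ' τ : PName P} {p : P} (h : ForcesMem σ τ p)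
    (he : ForcesEq σ σ' p) : ForcesMem σ' τ p := by
  obtain ⟨β, B, d⟩ := τ
  rw [forcesMem_mk] at h ⊢
  intro q hq
  obtain ⟨r, hr, b, hb, h'⟩ := h q hq
  exact ⟨r, hr, b, hb, h'.trans (he.mono (hr.trans hq))⟩

theorem ForcesMem.congr_right {σ τ τ' : PName P} {p : P} (h : ForcesMem σ τ p)
    (he : ForcesEq τ τ' p) : ForcesMem σ τ' p := by
  obtain ⟨β, B, d⟩ := τ
  obtain ⟨β', B', d'⟩ := τ'
  rw [forcesMem_mk] at h ⊢
  rw [forcesEq_mk] at he
  intro q hq
  obtain ⟨r, hr, b, hb, h'⟩ := h q hq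
  obtain ⟨s, hs, b', hb', h''⟩ := he.1 b r (hr.trans hq) hb
  exact ⟨s, hs.trans hr, b', hb', h''.symm.trans (h'.mono hs)⟩

theorem forcesMem_of_index {β : Type u} {B : β → PName P} {d : β → P} (b : β) {p : P}
    (h : p ≤ d b) : ForcesMem (B b) (PName.mk β B d) p := by
  rw [forcesMem_mk]
  exact fun q hq => ⟨q, le_rfl, b, hq.trans h, ForcesEq.refl _ _⟩

theorem ForcesEq.ext {σ τ : PName P} {p : P}
    (h1 : ∀ z, ∀ q ≤ p, ForcesMem z σ q → ForcesMem z τ q)
    (h2 : ∀ z, ∀ q ≤ p, ForcesMem z τ q → ForcesMem z σ q) : ForcesEq σ τ p := by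
  obtain ⟨α, A, c⟩ := σ
  obtain ⟨β, B, d⟩ := τ
  rw [forcesEq_mk]
  refine ⟨fun a q hq hc => ?_, fun b q hq hd => ?_⟩
  · have := h1 (A a) q hq (forcesMem_of_index a hc)
    rw [forcesMem_mk] at this
    obtain ⟨r, hr, b, hb, h'⟩ := this q le_rfl
    exact ⟨r, hr, b, hb, h'.symm⟩
  · have := h2 (B b) q hq (forcesMem_of_index b hd)
    rw [forcesMem_mk] at this
    obtain ⟨r, hr, a, ha, h'⟩ := this q le_rfl
    exact ⟨r, hr, a, ha, h'⟩

theorem forces_eq {σ τ : PName P} {p : P} : Forces (Fm.eq σ τ) p ↔ ForcesEq σ τ p := Iff.rfl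

theorem forces_mem {σ τ : PName P} {p : P} : Forces (Fm.mem σ τ) p ↔ ForcesMem σ τ p := Iff.rfl

theorem forces_not {φ : Fm (PName P)} {p : P} :
    Forces (Fm.not φ) p ↔ ∀ q ≤ p, ¬ Forces φ q := by
  rw [Forces]
  push Not
  rfl

theorem forces_and {φ ψ : Fm (PName P)} {p : P} :
    Forces (Fm.and φ ψ) p ↔ Forces φ p ∧ Forces ψ p := Iff.rfl

theorem forces_ex {φ : PName P → Fm (PName P)} {p : P} :
    Forces (Fm.ex φ) p ↔ ∀ q ≤ p, ∃ r ≤ q, ∃ σ, Forces (φ σ) r := Iff.rfl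

theorem Forces.mono : ∀ {φ : Fm (PName P)} {p q : P}, Forces φ p → q ≤ p → Forces φ q
  | .eq _ _, _, _, h, hq => ForcesEq.mono h hq
  | .mem _ _, _, _, h, hq => ForcesMem.mono h hq
  | .not _, _, _, h, hq => forces_not.2 fun r hr => forces_not.1 h r (hr.trans hq)
  | .and _ _, _, _, h, hq => ⟨Forces.mono h.1 hq, Forces.mono h.2 hq⟩
  | .ex _, _, _, h, hq => DenseBelow.mono h hq

theorem Forces.of_dense : ∀ {φ : Fm (PName P)} {p : P},
    (∀ q ≤ p, ∃ r ≤ q, Forces φ r) → Forces φ p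
  | .eq _ _, _, h => ForcesEq.of_dense h
  | .mem _ _, _, h => ForcesMem.of_dense h
  | .not _, _, h => forces_not.2 fun q hq hφ => by
      obtain ⟨r, hr, h'⟩ := h q hq
      exact forces_not.1 h' r le_rfl (hφ.mono hr)
  | .and _ _, _, h =>
      ⟨Forces.of_dense fun q hq => (h q hq).imp fun _ hr => ⟨hr.1, hr.2.1⟩,
       Forces.of_dense fun q hq => (h q hq).imp fun _ hr => ⟨hr.1, hr.2.2⟩⟩
  | .ex _, _, h => DenseBelow.of_dense h

theorem exists_forces_not {φ : Fm (PName P)} {p : P} (h : ¬ Forces φ p) :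
    ∃ q ≤ p, ∀ r ≤ q, ¬ Forces φ r := by
  by_contra hc
  push Not at hc
  exact h (Forces.of_dense hc)

theorem forces_imp {φ ψ : Fm (PName P)} {p : P} :
    Forces (Fm.imp φ ψ) p ↔ ∀ q ≤ p, Forces φ q → Forces ψ q := by
  rw [Fm.imp, forces_not]
  constructor
  · intro h q hq hφ
    by_contra hψ
    obtain ⟨r, hr, h'⟩ := exists_forces_not hψ
    exact h r (hr.trans hq) ⟨hφ.mono hr, forces_not.2 h'⟩
  · rintro h q hq ⟨hφ, hψ⟩
    exact forces_not.1 hψ q le_rfl (h q hq hφ)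

theorem forces_or {φ ψ : Fm (PName P)} {p : P} :
    Forces (Fm.or φ ψ) p ↔ ∀ q ≤ p, ∃ r ≤ q, Forces φ r ∨ Forces ψ r := by
  rw [Fm.or, forces_not]
  constructor
  · intro h q hq
    by_contra hc
    push Not at hc
    exact h q hq ⟨forces_not.2 fun r hr => (hc r hr).1, forces_not.2 fun r hr => (hc r hr).2⟩
  · rintro h q hq ⟨h1, h2⟩
    obtain ⟨r, hr, h' | h'⟩ := h q hq
    · exact forces_not.1 h1 r hr h'
    · exact forces_not.1 h2 r hr h'

theorem forces_iff {φ ψ : Fm (PName P)} {p : P} :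
    Forces (Fm.iff φ ψ) p ↔
      (∀ q ≤ p, Forces φ q → Forces ψ q) ∧ (∀ q ≤ p, Forces ψ q → Forces φ q) := by
  rw [Fm.iff, forces_and, forces_imp, forces_imp]

theorem forces_all {φ : PName P → Fm (PName P)} {p : P} :
    Forces (Fm.all φ) p ↔ ∀ σ, Forces (φ σ) p := by
  rw [Fm.all, forces_not]
  constructor
  · intro h σ
    by_contra hc
    obtain ⟨q, hq, h'⟩ := exists_forces_not hc
    exact h q hq (forces_ex.2 fun r hr => ⟨r, le_rfl, σ, forces_not.2 fun s hs => h' s (hs.trans hr)⟩)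
  · intro h q hq hex
    obtain ⟨r, hr, σ, h'⟩ := forces_ex.1 hex q le_rfl
    exact forces_not.1 h' r le_rfl ((h σ).mono (hr.trans hq))

theorem forces_ex_intro {φ : PName P → Fm (PName P)} {p : P} (σ : PName P)
    (h : Forces (φ σ) p) : Forces (Fm.ex φ) p :=
  forces_ex.2 fun q hq => ⟨q, le_rfl, σ, h.mono hq⟩

theorem forces_or_left {φ ψ : Fm (PName P)} {p : P} (h : Forces φ p) : Forces (Fm.or φ ψ) p :=
  forces_or.2 fun q hq => ⟨q, le_rfl, Or.inl (h.mono hq)⟩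

theorem forces_or_right {φ ψ : Fm (PName P)} {p : P} (h : Forces ψ p) : Forces (Fm.or φ ψ) p :=
  forces_or.2 fun q hq => ⟨q, le_rfl, Or.inr (h.mono hq)⟩

theorem forces_sub {x y : PName P} {p : P} :
    Forces (Fm.sub x y) p ↔ ∀ z, ∀ q ≤ p, ForcesMem z x q → ForcesMem z y q := by
  simp only [Fm.sub, forces_all, forces_imp, forces_mem]

/-! ### Pair names -/

section Pairs

variable (one : P)

/-- name of the unordered pair -/
def up (a b : PName P) : PName P :=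
  PName.mk (ULift.{u} Bool) (fun i => if i.down then a else b) (fun _ => one)

/-- name of the ordered pair -/
def op (a b : PName P) : PName P := up one (up one a a) (up one a b)

variable {one} (h1 : ∀ p : P, p ≤ one)
include h1

theorem forcesMem_up {z a b : PName P} {p : P} :
    ForcesMem z (up one a b) p ↔ ∀ q ≤ p, ∃ r ≤ q, ForcesEq z a r ∨ ForcesEq z b r := by
  rw [up, forcesMem_mk]
  constructor
  · intro h q hq
    obtain ⟨r, hr, ⟨i⟩, -, h'⟩ := h q hq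
    cases i
    · exact ⟨r, hr, Or.inr (by simpa using h'.symm)⟩
    · exact ⟨r, hr, Or.inl (by simpa using h'.symm)⟩
  · intro h q hq
    obtain ⟨r, hr, h' | h'⟩ := h q hq
    · exact ⟨r, hr, ⟨true⟩, h1 _, by simpa using h'.symm⟩
    · exact ⟨r, hr, ⟨false⟩, h1 _, by simpa using h'.symm⟩

theorem forcesMem_up_left {a b : PName P} {p : P} : ForcesMem a (up one a b) p :=
  (forcesMem_up h1).2 fun q _ => ⟨q, le_rfl, Or.inl (ForcesEq.refl _ _)⟩

theorem forcesMem_up_right {a b : PName P} {p : P} : ForcesMem b (up one a b) p :=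
  (forcesMem_up h1).2 fun q _ => ⟨q, le_rfl, Or.inr (ForcesEq.refl _ _)⟩

theorem up_congr {a b a' b' : PName P} {p : P} (ha : ForcesEq a a' p) (hb : ForcesEq b b' p) :
    ForcesEq (up one a b) (up one a' b') p := by
  refine ForcesEq.ext (fun z q hq h => ?_) (fun z q hq h => ?_)
  · rw [forcesMem_up h1] at h ⊢
    intro r hr
    obtain ⟨s, hs, h' | h'⟩ := h r hr
    · exact ⟨s, hs, Or.inl (h'.trans (ha.mono (hs.trans (hr.trans hq))))⟩
    · exact ⟨s, hs, Or.inr (h'.trans (hb.mono (hs.trans (hr.trans hq))))⟩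
  · rw [forcesMem_up h1] at h ⊢
    intro r hr
    obtain ⟨s, hs, h' | h'⟩ := h r hr
    · exact ⟨s, hs, Or.inl (h'.trans (ha.symm.mono (hs.trans (hr.trans hq))))⟩
    · exact ⟨s, hs, Or.inr (h'.trans (hb.symm.mono (hs.trans (hr.trans hq))))⟩

theorem op_congr {a b a' b' : PName P} {p : P} (ha : ForcesEq a a' p) (hb : ForcesEq b b' p) :
    ForcesEq (op one a b) (op one a' b') p :=
  up_congr h1 (up_congr h1 ha ha) (up_congr h1 ha hb)

theorem forces_isUPair {z a b : PName P} {p : P} :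
    Forces (Fm.isUPair z a b) p ↔ ForcesEq z (up one a b) p := by
  simp only [Fm.isUPair, forces_all, forces_iff, forces_mem, forces_or, forces_eq]
  constructor
  · intro h
    refine ForcesEq.ext (fun t q hq ht => ?_) (fun t q hq ht => ?_)
    · exact (forcesMem_up h1).2 ((h t).1 q hq ht)
    · exact (h t).2 q hq ((forcesMem_up h1).1 ht)
  · intro h t
    exact ⟨fun q hq ht => (forcesMem_up h1).1 (ht.congr_right (h.mono hq)),
      fun q hq ht => ((forcesMem_up h1).2 ht).congr_right (h.symm.mono hq)⟩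

theorem forces_isPair {w a b : PName P} {p : P} :
    Forces (Fm.isPair w a b) p ↔ ForcesEq w (op one a b) p := by
  simp only [Fm.isPair, forces_all, forces_iff, forces_mem, forces_or, forces_isUPair h1]
  constructor
  · intro h
    refine ForcesEq.ext (fun t q hq ht => ?_) (fun t q hq ht => ?_)
    · exact (forcesMem_up h1).2 ((h t).1 q hq ht)
    · exact (h t).2 q hq ((forcesMem_up h1).1 ht)
  · intro h t
    exact ⟨fun q hq ht => (forcesMem_up h1).1 (ht.congr_right (h.mono hq)),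
      fun q hq ht => ((forcesMem_up h1).2 ht).congr_right (h.symm.mono hq)⟩

theorem forces_app {f a b : PName P} {p : P} :
    Forces (Fm.app f a b) p ↔ ForcesMem (op one a b) f p := by
  simp only [Fm.app, forces_ex, forces_and, forces_mem, forces_isPair h1]
  constructor
  · intro h
    refine ForcesMem.of_dense fun q hq => ?_
    obtain ⟨r, hr, w, hw, he⟩ := h q hq
    exact ⟨r, hr, hw.congr_left he⟩
  · intro h q hq
    exact ⟨q, le_rfl, _, h.mono hq, ForcesEq.refl _ _⟩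

theorem up_self_eq {z a : PName P} {p : P} (h : ForcesMem z (up one a a) p) : ForcesEq z a p := by
  refine ForcesEq.of_dense fun q hq => ?_
  obtain ⟨r, hr, h' | h'⟩ := (forcesMem_up h1).1 h q hq
  · exact ⟨r, hr, h'⟩
  · exact ⟨r, hr, h'⟩

theorem op_inj_left {a b c d : PName P} {p : P} (h : ForcesEq (op one a b) (op one c d) p) :
    ForcesEq a c p := by
  refine ForcesEq.of_dense fun q hq => ?_
  have h0 : ForcesMem (up one a a) (op one c d) p :=
    (forcesMem_up_left h1).congr_right h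
  obtain ⟨r, hr, h' | h'⟩ := (forcesMem_up h1).1 h0 q hq
  · exact ⟨r, hr, (up_self_eq h1 ((forcesMem_up_left h1).congr_right h'.symm)).symm⟩
  · exact ⟨r, hr, (up_self_eq h1 ((forcesMem_up_left h1).congr_right h'.symm)).symm⟩

theorem op_inj_right {a b c d : PName P} {p : P} (h : ForcesEq (op one a b) (op one c d) p) :
    ForcesEq b d p := by
  have hac := op_inj_left h1 h
  refine ForcesEq.of_dense fun q hq => ?_
  have h0 : ForcesMem (up one a b) (op one c d) p := (forcesMem_up_right h1).congr_right h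
  have h0' : ForcesMem (up one c d) (op one a b) p := (forcesMem_up_right h1).congr_right h.symm
  obtain ⟨r, hr, h' | h'⟩ := (forcesMem_up h1).1 h0 q hq
  · have hbc : ForcesEq b c r := up_self_eq h1 ((forcesMem_up_right h1).congr_right h')
    obtain ⟨s, hs, h'' | h''⟩ := (forcesMem_up h1).1 h0' r (hr.trans hq)
    · have hda : ForcesEq d a s := up_self_eq h1 ((forcesMem_up_right h1).congr_right h'')
      exact ⟨s, hs.trans hr,
        (hbc.mono hs).trans ((hac.symm.mono (hs.trans (hr.trans hq))).trans hda.symm)⟩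
    · have hd : ForcesMem d (up one a b) s := (forcesMem_up_right h1).congr_right h''
      obtain ⟨t, ht, h3 | h3⟩ := (forcesMem_up h1).1 hd s le_rfl
      · exact ⟨t, ht.trans (hs.trans hr), (hbc.mono (ht.trans hs)).trans
          ((hac.symm.mono (ht.trans (hs.trans (hr.trans hq)))).trans h3.symm)⟩
      · exact ⟨t, ht.trans (hs.trans hr), h3.symm⟩
  · have hb : ForcesMem b (up one c d) r := (forcesMem_up_right h1).congr_right h'
    have hd : ForcesMem d (up one a b) r := (forcesMem_up_right h1).congr_right h'.symm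
    obtain ⟨s, hs, h3 | h3⟩ := (forcesMem_up h1).1 hb r le_rfl
    · obtain ⟨t, ht, h4 | h4⟩ := (forcesMem_up h1).1 hd s hs
      · exact ⟨t, ht.trans (hs.trans hr), (h3.mono ht).trans
          ((hac.symm.mono (ht.trans (hs.trans (hr.trans hq)))).trans h4.symm)⟩
      · exact ⟨t, ht.trans (hs.trans hr), h4.symm⟩
    · exact ⟨s, hs.trans hr, h3⟩

end Pairs

end Pool.Agent.Lib.MP_40ade9_lc
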