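import Pool.Agent.Lib.MP_40ade9_lc.Defs

/-! Jensen's square principle at `ω₁`. -/

set_option autoImplicit false

namespace Pool.Agent.Lib.MP_40ade9_lc

/-- Jensen's principle `□_{ω₁}`: a coherent sequence `⟨C α : α < ω₂ limit⟩` of clubs `C α ⊆ α`, each
of order type at most `ω₁`; the last condition is written as: every proper initial segment
`C α ∩ β` (`β < α`) is countable. -/
def JensenSquareOne : Prop :=
  ∃ C : Ordinal.{0} → Set Ordinal.{0},
    (∀ α < Ordinal.omega 2, Order.IsSuccLimit α → IsClubIn (C α) α) ∧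
    (∀ α < Ordinal.omega 2, Order.IsSuccLimit α → ∀ β < α, IsAccPt (C α) β →
      C β = C α ∩ Set.Iio β) ∧
    (∀ α < Ordinal.omega 2, Order.IsSuccLimit α → ∀ β < α, (C α ∩ Set.Iio β).Countable)

end Pool.Agent.Lib.MP_40ade9_lc
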