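import Pool.Agent.Lib.MP_40ade9_lc.JMerge

/-! Every unbounded set of nodes can be made to contain comparable and incomparable pairs. -/

set_option autoImplicit false

namespace Pool.Agent.Lib.MP_40ade9_lc.J

namespace Sys

variable {L W X : Type} [LinearOrder L] [LinearOrder W] {D : Sys L W X} {adr : X → ℕ → Bool}
  {o : Option X} {m : ℕ} [WellFoundedLT L]

theorem exists_ent {b d : L} (h : ∃ c ∈ D.A b, d ≤ c) :
    ∃ c ∈ D.A b, d ≤ c ∧ ∀ e ∈ D.A c, e < d := by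
  obtain ⟨c, hc, hmin⟩ := (wellFounded_lt (α := L)).has_min {c | c ∈ D.A b ∧ d ≤ c} h
  exact ⟨c, hc.1, hc.2, fun e he => not_le.1 fun h =>
    hmin e ⟨D.A_sub _ _ hc.1 _ he, h⟩ (D.A_lt _ _ he)⟩

theorem route (hrk : ∀ w, ∀ u ∈ D.N w, D.h u < D.h w → adr u ≠ adr w)
    (hpos : ∀ u p, D.pos (D.h u) < D.pos (D.h p) → adr u ≠ adr p) {s1 : List Cmd}
    (h1 : ∀ a, D.ab o a → ∀ z, ¬ D.Jm adr s1 z (D.mk' a o m)) {d : L} {θ : W} {H B : Set X}
    (hH : D.Closed H) (hG : ∀ t ∈ H, D.G θ t ⊆ H) (hdH : ¬ D.Lev H d) (hdθ : D.pos d ≤ θ)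
    (hd : D.ab o d) (hd0 : ∃ b, b < d)
    (hfin : ∀ b < d, ∃ e, b < e ∧ D.ab o e ∧ ∃ x ∈ B, D.h x < d ∧ D.ι d x ≤ θ ∧
      D.ι d (D.mk' e o m) ≤ θ ∧ D.R adr s1 (D.mk' e o m) x) (a : L) (hda : d < a)
    (hA : ∀ c ∈ D.A a, c < d) (hfl : θ < D.pos a ∨ D.mk' a o m ∈ H) :
    ∃ Q : List X, (∀ p ∈ Q, D.pos a ≤ D.pos (D.h p) ∧ ∀ z, ¬ D.Jm adr s1 z p) ∧
      ∀ s, s1 <:+ s → D.Inv adr o m s → (∀ p ∈ D.mk' a o m :: Q, ∀ z, ¬ D.Jm adr s z p) →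
        ∃ s', s <:+ s' ∧ ∃ x ∈ B, D.R adr s' x (D.mk' a o m) := by
  induction a using WellFoundedLT.induction with
  | ind a ih =>
    have ha : D.ab o a := hd.mono hda.le
    have hN := D.N_closed (D.mk' a o m)
    have hw := D.self_mem_N (D.mk' a o m)
    have hbase : ∀ {s e}, D.ab o e → (∀ c ∈ D.A a, c < e) → (∀ z, ¬ D.Jm adr s z (D.mk' a o m)) →
        ∀ z, D.Ba adr s z (D.mk' a o m) → D.h z < e := fun he hc hj z hz => by
      rcases B0_col ha (hz.resolve_right (hj z)) with ⟨c, g1, -, rfl⟩ | hv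
      · rw [D.h_mk]; exact hc c g1
      · exact he z hv
    by_cases hdN : D.Lev (D.N (D.mk' a o m)) d
    · have hθ : θ < D.pos a := hfl.resolve_right fun h =>
        hdH (hdN.imp fun t ht => ⟨hH.N_sub h ht.1, ht.2⟩)
      refine ⟨[], by simp, fun s hs hI hj => ?_⟩
      obtain ⟨b, hb, hb'⟩ : ∃ b < d, ∀ c ∈ D.A a, c ≤ b := by
        rcases (D.A a).eq_empty_or_nonempty with h | h
        · exact hd0.imp fun b hb => ⟨hb, by simp [h]⟩
        · obtain ⟨c, hc⟩ := D.A_max a d hda (fun c hc => (hA c hc).le) h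
          exact ⟨c, hA c hc.1, hc.2⟩
      obtain ⟨e, hbe, he, x, hxB, hxd, hx1, hx2, hR⟩ := hfin b hb
      obtain ⟨t, ht, rfl⟩ := hdN
      have hed : e < D.h t := by simpa only [D.h_mk] using hR.lt.trans hxd
      have hsub := hN.G_sub ht hw
      rw [D.h_mk] at hsub
      obtain ⟨s2, g1, -, -, g2⟩ := prep hrk (merge hrk e) ha (hed.trans hda) he
        ⟨_, hsub (Or.inl ⟨by rwa [D.h_mk], hx2.trans hθ.le⟩), D.h_mk _ _ _⟩ hI
        (hbase he (fun c hc => (hb' c hc).trans_lt hbe) (hj _ List.mem_cons_self)) [] (by simp)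
      obtain ⟨i, hi⟩ := D.en_surj (hsub (Or.inl ⟨hxd, hx1.trans hθ.le⟩))
      exact ⟨_, g1.trans (List.suffix_cons _ _), x, hxB, jump_dir (by rw [D.h_mk]; exact hxd.trans hda)
        (fun z hz => (g2 z hz).trans (hR.mono (hs.trans g1))) hi⟩
    obtain ⟨c0, hc0, hdc0⟩ := D.lad_cof a d hda (fun c hc => (hA c hc).le) d hda
    obtain ⟨b, ⟨hbN, hdb⟩, hmin⟩ := (wellFounded_lt (α := L)).has_min
      {b | D.Lev (D.N (D.mk' a o m)) b ∧ d ≤ b} ⟨c0, hN.lev_lad hw (by rwa [D.h_mk]), hdc0⟩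
    have hba : b < a := (not_lt.1 (hmin c0 ⟨hN.lev_lad hw (by rwa [D.h_mk]), hdc0⟩)).trans_lt
      (D.lad_lt _ _ hc0)
    have hdb' : d < b := hdb.lt_of_ne fun h => hdN (h ▸ hbN)
    have hb : D.ab o b := hd.mono hdb
    have hnb := col_mem_N ha hbN m
    obtain ⟨c, hc, hdc, hc'⟩ := exists_ent (D := D) (b := b) (d := d) (by
      by_contra hc
      push Not at hc
      obtain ⟨c, g1, g2⟩ := D.lad_cof b d hdb' (fun c h => (hc c h).le) d hdb'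
      exact hmin c ⟨hN.lev_lad hnb (by rwa [D.h_mk]), g2⟩ (D.lad_lt _ _ g1))
    have hcb := D.A_lt _ _ hc
    have hfar : ∀ u ∈ D.N (D.mk' a o m), D.pos (D.h u) < D.pos c := fun u hu => not_le.1 fun h =>
      hmin c ⟨lev_of_G (hN.G_sub hnb hu) (by rwa [D.h_mk]) h, hdc⟩ hcb
    have hac : D.pos a < D.pos c := by simpa only [D.h_mk] using hfar _ hw
    have hcH : D.mk' a o m ∈ H → D.pos c ≤ θ → D.Lev H c := fun h h' =>
      lev_of_G (hG _ (hH.N_sub h hnb)) (by rwa [D.h_mk]) h'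
    have hdc' : d < c := hdc.lt_of_ne fun h => by
      subst h
      rcases hfl with h | h
      · exact absurd (h.trans hac) (not_lt.2 hdθ)
      · exact hdH (hcH h hdθ)
    obtain ⟨Q, hQ1, hQ2⟩ := ih c (hcb.trans hba) hdc' hc' (by
      rcases hfl with h | h
      · exact Or.inl (h.trans hac)
      · by_cases h' : θ < D.pos c
        · exact Or.inl h'
        · exact Or.inr (hH.mk_mem (hcH h (not_lt.1 h'))
            (fun v hv => hH.par h ((D.par_mk _ _ _ ha).trans hv)) m))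
    have hQ3 : ∀ p ∈ D.mk' c o m :: Q, D.pos c ≤ D.pos (D.h p) ∧ ∀ z, ¬ D.Jm adr s1 z p := by
      intro p hp
      rcases List.mem_cons.1 hp with rfl | hp
      · exact ⟨by rw [D.h_mk], h1 c (hd.mono hdc)⟩
      · exact hQ1 p hp
    refine ⟨D.mk' c o m :: Q, fun p hp => ⟨hac.le.trans (hQ3 p hp).1, (hQ3 p hp).2⟩,
      fun s hs hI hj => ?_⟩
    obtain ⟨s2, g1, g2, g3, g4⟩ := step hrk (merge hrk b) ha hba hb hbN hI
      (hbase hb (fun e he => (hA e he).trans hdb') (hj _ List.mem_cons_self)) (D.mk' c o m :: Q)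
      fun p hp u hu _ => hpos u p ((hfar u hu).trans_le (hQ3 p hp).1)
    obtain ⟨s3, k1, x, hx, k2⟩ := hQ2 s2 (hs.trans g1) g2
      fun p hp z hz => hj p (List.mem_cons_of_mem _ hp) z (g3 p hp z hz)
    exact ⟨s3, g1.trans k1, x, hx,
      (k2.trans (B0_chain hc (hd.mono hdc)).R).trans (g4.mono k1)⟩

omit [WellFoundedLT L] in
theorem bound_nodes (hLc : ∀ Z : Set L, Z.Countable → ∃ b, ∀ z ∈ Z, z < b)
    (hLW : ∀ f : W → L, ∃ b, ∀ i, f i < b) (f : Option X → ℕ × ℕ × ℕ → L) (a : L) :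
    ∃ b, a < b ∧ ∀ o, D.ab o a → ∀ i, f o i < b := by
  choose g hg using fun o => hLc _ (Set.countable_range (f o))
  choose k hk using fun ν => hLc _ ((D.ι_ct a ν).image fun x => g (some x))
  obtain ⟨b, hb⟩ := hLW k
  obtain ⟨b', hb'⟩ := hLc {a, b, g none} (Set.toFinite _).countable
  refine ⟨b', hb' a (by simp), fun o ho i => (hg o _ ⟨i, rfl⟩).trans ?_⟩
  rcases o with _ | x
  · exact hb' _ (by simp)
  · exact ((hk (D.ι a x) _ ⟨x, ⟨ho x rfl, le_rfl⟩, rfl⟩).trans (hb _)).trans (hb' b (by simp))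

variable (hLc : ∀ Z : Set L, Z.Countable → ∃ b, ∀ z ∈ Z, z < b)
  (hLW : ∀ f : W → L, ∃ b, ∀ i, f i < b)
  (hst : ∀ G : L → L, ∃ d, D.A d = ∅ ∧ (∀ b < d, G b < d) ∧ ∃ b, b < d)
include hLc hLW hst

theorem separate {B : Set X} (hB : ∀ a, ∃ y ∈ B, a ≤ D.h y) (s : List Cmd) :
    ∃ (o : Option X) (m : ℕ) (s1 : List Cmd), s <:+ s1 ∧
      (∀ a, D.ab o a → ∀ z, ¬ D.Jm adr s1 z (D.mk' a o m)) ∧
      ∀ b, ∃ e, b < e ∧ D.ab o e ∧ ∃ y ∈ B, D.tag y ≠ m ∧ D.R adr s1 (D.mk' e o m) y := by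
  obtain ⟨M, hM⟩ := exists_fresh (D := D) (adr := adr) s
  by_contra hc
  push Not at hc
  choose f hf using fun (o : Option X) (i : ℕ × ℕ × ℕ) =>
    hc o (M + i.1 + i.2.1 + 1) ((i.1, [], true, i.2.2) :: s) (List.suffix_cons _ _)
      fun a ha z => no_jump hM (by omega) (by simp only; omega) ha z
  choose G hG1 hG2 using bound_nodes (D := D) hLc hLW f
  obtain ⟨d, hd1, hd2, b0, hb0⟩ := hst G
  obtain ⟨y, hy, hdy⟩ := hB d
  obtain ⟨w, -, h1, h2, h3⟩ := exists_gap (adr := adr) (S := Set.univ)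
    (fun _ _ _ _ => Set.subset_univ _) s ⟨_, Set.mem_univ _, D.h_mk d none 0⟩ (Set.mem_univ y) hdy
  obtain ⟨b, hb, hA⟩ : ∃ b < D.h w, ∀ c ∈ D.A (D.h w), c ≤ b := by
    rcases h2.eq_or_lt with h2 | h2
    · exact ⟨b0, h2 ▸ hb0, by simp [← h2, hd1]⟩
    · exact ⟨d, h2, fun c hc => (A_bound h3 c hc).le⟩
  obtain ⟨o, g1, g2⟩ := exists_top (adr := adr) s hb hA
  obtain ⟨a, had, ha⟩ : ∃ a < d, D.ab o a := by
    rcases o with _ | v
    · exact ⟨b0, hb0, fun v hv => by cases hv⟩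
    · exact ⟨G (D.h v), hd2 _ (h3 v (g1 v rfl).1), fun v' hv => Option.some.inj hv ▸ hG1 _⟩
  obtain ⟨e, he, hae⟩ := D.lad_cof _ b hb hA (G a) ((hd2 a had).trans_le h2)
  have he' : D.ab o e := ha.mono ((hG1 a).le.trans hae)
  obtain ⟨i, hi⟩ := D.en_surj ((D.N_closed w).mk_mem ((D.N_closed w).lev_lad (D.self_mem_N w) he)
    (fun v hv => (g1 v hv).2) (M + D.tag w + D.tag y + 1))
  have hR := jump_dir (adr := adr) (s := s) (by rw [D.h_mk]; exact D.lad_lt _ _ he) (fun z hz => by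
    obtain ⟨v, hv, g⟩ := g2 z hz
    exact le_trans' g (root_R he' hv)) hi
  exact hf o (D.tag w, D.tag y, i) e ((hG2 a o ha _).trans_le hae) he' y hy (by simp only; omega)
    (lt_le' hR (le_mono' h1 (List.suffix_cons _ _)))

theorem exists_incomp (hrk : ∀ w, ∀ u ∈ D.N w, D.h u < D.h w → adr u ≠ adr w)
    {B : Set X} (hB : ∀ a, ∃ y ∈ B, a ≤ D.h y) (s : List Cmd) :
    ∃ s', s <:+ s' ∧ ∃ x ∈ B, ∃ y ∈ B, x ≠ y ∧
      ∀ r, s' <:+ r → ¬ D.R adr r x y ∧ ¬ D.R adr r y x := by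
  obtain ⟨o, m, s1, h1, h2, h3⟩ := separate (adr := adr) hLc hLW hst hB s
  obtain ⟨d, -⟩ := hst id
  obtain ⟨e, -, he, x, hx, hxm, hex⟩ := h3 d
  obtain ⟨e', hxe', -, y, hy, -, hey⟩ := h3 (D.h x)
  have hx' : D.ab o (D.h x) := he.mono (by simpa only [D.h_mk] using hex.lt.le)
  obtain ⟨s2, g1, g2⟩ := merge' hrk (s := s1) (fun a ha z hz => absurd hz (h2 a ha z)) hx' hxe'.le
  have g3 := le_trans' g2 (hey.mono g1)
  have hlt : D.h x < D.h y := by simpa only [D.h_mk] using g3.lt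
  refine ⟨s2, h1.trans g1, x, hx, y, hy, fun h => hlt.ne (h ▸ rfl), fun r hr =>
    ⟨fun h => hxm ?_, fun h => lt_asymm hlt h.lt⟩⟩
  rw [h.unique (g3.mono hr) (D.h_mk _ _ _).symm, D.tag_mk _ _ _ hx']

theorem exists_comp (hrk : ∀ w, ∀ u ∈ D.N w, D.h u < D.h w → adr u ≠ adr w)
    (hpos : ∀ u p, D.pos (D.h u) < D.pos (D.h p) → adr u ≠ adr p)
    (hWc : ∀ Z : Set W, Z.Countable → ∃ b, ∀ z ∈ Z, z < b)
    (hunc : ∀ Z : Set L, (∀ b, (Z ∩ Set.Iio b).Countable) → ∃ b, ∀ z ∈ Z, z < b)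
    {B : Set X} (hB : ∀ a, ∃ y ∈ B, a ≤ D.h y) (s : List Cmd) :
    ∃ s', s <:+ s' ∧ ∃ x ∈ B, ∃ y ∈ B, D.R adr s' x y := by
  obtain ⟨o, m, s1, h1, h2, h3⟩ := separate (adr := adr) hLc hLW hst hB s
  choose e he1 he2 y hy1 _ hy2 using h3
  let Z : W → Set L := fun θ => {d | (D.A d = ∅ ∧ (∀ b < d, D.h (y b) < d) ∧ ∃ b, b < d) ∧
    D.pos d ≤ θ ∧ ∀ a ∈ D.lad d, D.ι d (y a) ≤ θ ∧ D.ι d (D.mk' (e a) o m) ≤ θ}
  obtain ⟨θ, b, hZ⟩ : ∃ θ b, ¬ (Z θ ∩ Set.Iio b).Countable := by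
    by_contra hc
    push Not at hc
    choose k hk using fun θ => hunc _ (hc θ)
    obtain ⟨b, hb⟩ := hLW k
    obtain ⟨d, hd1, hd2, b0, hb0⟩ := hst fun a => max (D.h (y a)) b
    obtain ⟨θ, hθ⟩ := hWc _ ((Set.countable_singleton (D.pos d)).union
      (((D.lad_ct d).image fun a => D.ι d (y a)).union
        ((D.lad_ct d).image fun a => D.ι d (D.mk' (e a) o m))))
    refine lt_asymm ((hk θ d ⟨⟨hd1, fun a ha => (le_max_left _ _).trans_lt (hd2 a ha), b0, hb0⟩,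
      (hθ _ (Or.inl rfl)).le, fun a ha => ⟨(hθ _ (Or.inr (Or.inl ⟨a, ha, rfl⟩))).le,
        (hθ _ (Or.inr (Or.inr ⟨a, ha, rfl⟩))).le⟩⟩).trans (hb θ))
      ((le_max_right _ _).trans_lt (hd2 b0 hb0))
  obtain ⟨H, hH1, hH2, hH3⟩ := exists_closed (fun t t' => D.F t t' ∪ D.G θ t)
    (fun t t' => (D.F_ct t t').union (D.G_ct θ t)) (D.mk' (e b) o m)
  have hH : D.Closed H := fun t ht t' ht' => Set.subset_union_left.trans (hH3 t ht t' ht')
  have hG : ∀ t ∈ H, D.G θ t ⊆ H := fun t ht => Set.subset_union_right.trans (hH3 t ht t ht)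
  obtain ⟨d, ⟨⟨⟨hd1, hd2, hd3⟩, hd4, hd5⟩, hdb⟩, hdH⟩ : ∃ d ∈ Z θ ∩ Set.Iio b, ¬ D.Lev H d := by
    by_contra hc
    push Not at hc
    exact hZ ((hH1.image D.h).mono hc)
  have hey : ∀ a, e a < D.h (y a) := fun a => by simpa only [D.h_mk] using (hy2 a).lt
  have hd : D.ab o d := hd3.elim fun a ha => (he2 a).mono ((hey a).trans (hd2 a ha)).le
  obtain ⟨a, hda, hA, hfl, hR⟩ : ∃ a, d < a ∧ (∀ c ∈ D.A a, c < d) ∧
      (θ < D.pos a ∨ D.mk' a o m ∈ H) ∧ D.R adr s1 (D.mk' a o m) (y b) := by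
    by_cases h : ∃ c ∈ D.A (e b), d ≤ c
    · obtain ⟨c, hc, hdc, hc'⟩ := exists_ent h
      have hcH : D.pos c ≤ θ → D.Lev H c := lev_of_G (hG _ hH2) (by rwa [D.h_mk])
      refine ⟨c, hdc.lt_of_ne fun h => hdH (by subst h; exact hcH hd4), hc', ?_,
        (B0_chain hc (hd.mono hdc)).R.trans (hy2 b)⟩
      by_cases h' : θ < D.pos c
      · exact Or.inl h'
      · exact Or.inr (hH.mk_mem (hcH (not_lt.1 h'))
          (fun v hv => hH.par hH2 ((D.par_mk _ _ _ (he2 b)).trans hv)) m)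
    · push Not at h
      exact ⟨e b, lt_trans hdb (he1 b), h, Or.inr hH2, hy2 b⟩
  obtain ⟨Q, hQ1, hQ2⟩ := route (B := B) hrk hpos h2 hH hG hdH hd4 hd hd3 (fun c hc => by
    obtain ⟨a, g1, g2⟩ := D.lad_cof d c hc (by simp [hd1]) c hc
    exact ⟨e a, g2.trans_lt (he1 a), he2 a, y a, hy1 a, hd2 a (D.lad_lt _ _ g1), (hd5 a g1).1,
      (hd5 a g1).2, hy2 a⟩) a hda hA hfl
  obtain ⟨s', g1, x, hx, g2⟩ := hQ2 s1 List.suffix_rfl (fun a ha z hz => absurd hz (h2 a ha z))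
    fun p hp => by
      rcases List.mem_cons.1 hp with rfl | hp
      · exact h2 a (hd.mono hda.le)
      · exact (hQ1 p hp).2
  exact ⟨s', h1.trans g1, x, hx, y b, hy1 b, g2.trans (hR.mono g1)⟩

end Sys

end Pool.Agent.Lib.MP_40ade9_lc.J
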