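import Pool.Agent.Lib.MP_40ade9_lc.Main
import Pool.Agent.Lib.MP_40ade9_lc.JSouslin
import Pool.Agent.Lib.MP_40ade9_lc.JRoute

/-! Commands are read off the Cohen real. -/

set_option autoImplicit false

namespace Pool.Agent.Lib.MP_40ade9_lc.J

theorem shrink {p q : Cohen} (hq : q ≤ p) {m k : ℕ} (h : cohenGen.K q m k) :
    ∃ r ≤ p, (∀ i ∈ cohenGen.T r, i ∈ cohenGen.T p ∨ i = m) ∧ cohenGen.K r m k := by
  classical
  refine ⟨⟨q.graph.filter fun x => x ∈ p.graph ∨ x.1.unpair.1 = m, fun n a b ha hb =>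
    q.func n a b (Finset.mem_filter.1 ha).1 (Finset.mem_filter.1 hb).1⟩,
    fun x hx => Finset.mem_filter.2 ⟨hq hx, Or.inl hx⟩, fun i hi => ?_, fun j hj => ?_, ?_⟩
  · obtain ⟨x, hx, rfl⟩ := Finset.mem_image.1 hi
    exact (Finset.mem_filter.1 hx).2.imp (fun h => Finset.mem_image.2 ⟨x, h, rfl⟩) id
  · exact Finset.mem_filter.2 ⟨h.1 j hj, Or.inr (by simp)⟩
  · exact Finset.mem_filter.2 ⟨h.2, Or.inr (by simp)⟩

variable {C : Type} (dc : ℕ → C)

/-- the condition `p` decides the first commands -/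
def Dec (p : Cohen) : List C → Prop
  | [] => True
  | c :: s => Dec p s ∧ ∃ k, cohenGen.K p s.length k ∧ dc k = c

variable {dc}

theorem Dec.mono {p q : Cohen} {s : List C} (h : Dec dc p s) (hq : q ≤ p) : Dec dc q s := by
  induction s with
  | nil => trivial
  | cons c s ih => exact ⟨ih h.1, h.2.imp fun k hk => ⟨cohenGen.mono _ _ _ _ hk.1 hq, hk.2⟩⟩

theorem Dec.of_append {p : Cohen} {s t : List C} (h : Dec dc p (t ++ s)) : Dec dc p s := by
  induction t with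
  | nil => exact h
  | cons c t ih => exact ih h.1

theorem Dec.eq {p : Cohen} {s s' : List C} (h : Dec dc p s) (h' : Dec dc p s')
    (e : s.length = s'.length) : s = s' := by
  induction s generalizing s' with
  | nil => exact (List.length_eq_zero_iff.1 e.symm).symm
  | cons c s ih =>
    rcases s' with _ | ⟨c', s'⟩
    · simp at e
    · obtain rfl := ih h.1 h'.1 (by simpa using e)
      obtain ⟨k, h1, rfl⟩ := h.2
      obtain ⟨k', h2, rfl⟩ := h'.2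
      rw [cohenGen.func _ _ _ _ h1 h2]

theorem Dec.cmp {p : Cohen} {s s' : List C} (h : Dec dc p s) (h' : Dec dc p s') :
    s <:+ s' ∨ s' <:+ s := by
  have key : ∀ {s s' : List C}, Dec dc p s → Dec dc p s' → s.length ≤ s'.length → s <:+ s' := by
    intro s s' h h' hl
    have h1 : Dec dc p (s'.drop (s'.length - s.length)) :=
      Dec.of_append (t := s'.take (s'.length - s.length)) (by rwa [List.take_append_drop])
    rw [h.eq h1 (by simp; omega)]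
    exact List.drop_suffix _ _
  exact (le_total _ _).imp (key h h') (key h' h)

theorem exists_full (hdc : Function.Surjective dc) (p : Cohen) :
    ∃ s : List C, ∀ s', s <:+ s' → ∃ q ≤ p, Dec dc q s' := by
  have h1 : ∀ n, ∃ q ≤ p, ∃ s : List C, s.length = n ∧ Dec dc q s ∧
      ∀ i ∈ cohenGen.T q, i ∈ cohenGen.T p ∨ i < n := by
    intro n
    induction n with
    | zero => exact ⟨p, le_rfl, [], rfl, trivial, fun i hi => Or.inl hi⟩
    | succ n ih =>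
      obtain ⟨q, hq, s, rfl, h2, h3⟩ := ih
      obtain ⟨r, hr, k, hk⟩ := cohenGen.dense q s.length
      obtain ⟨r, hr, h4, hk⟩ := shrink hr hk
      refine ⟨r, hr.trans hq, dc k :: s, rfl, ⟨h2.mono hr, k, hk, rfl⟩, fun i hi => ?_⟩
      rcases h4 i hi with h | h
      · exact (h3 i h).imp id fun h => by omega
      · exact Or.inr (by omega)
  obtain ⟨n, hn⟩ := (cohenGen.T p).exists_nat_subset_range
  obtain ⟨q, hq, s, rfl, h2, h3⟩ := h1 n
  refine ⟨s, ?_⟩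
  rintro _ ⟨t, rfl⟩
  have h4 : ∃ r ≤ q, Dec dc r (t ++ s) ∧ ∀ i ∈ cohenGen.T r, i < (t ++ s).length := by
    induction t with
    | nil => exact ⟨q, le_rfl, h2, fun i hi => (h3 i hi).elim
        (fun h => Finset.mem_range.1 (hn h)) id⟩
    | cons c t ih =>
      obtain ⟨r, hr, h5, h6⟩ := ih
      obtain ⟨k, rfl⟩ := hdc c
      obtain ⟨u, hu, hk⟩ := cohenGen.free r _ (fun h => lt_irrefl _ (h6 _ h)) k
      obtain ⟨u, hu, h7, hk⟩ := shrink hu hk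
      refine ⟨u, hu.trans hr, ⟨h5.mono hu, k, hk, rfl⟩, fun i hi => ?_⟩
      rcases h7 i hi with h | h
      · exact (h6 i h).trans (Nat.lt_succ_self _)
      · exact h ▸ Nat.lt_succ_self _
  obtain ⟨r, hr, h5, -⟩ := h4
  exact ⟨r, hr.trans hq, h5⟩

theorem exists_TR {L W X : Type} [LinearOrder L] [LinearOrder W] [WellFoundedLT L] (D : Sys L W X)
    (adr : X → ℕ → Bool) (hrk : ∀ w, ∀ u ∈ D.N w, D.h u < D.h w → adr u ≠ adr w)
    (hpos : ∀ u p, D.pos (D.h u) < D.pos (D.h p) → adr u ≠ adr p)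
    (hLc : ∀ Z : Set L, Z.Countable → ∃ b, ∀ z ∈ Z, z < b)
    (hLW : ∀ f : W → L, ∃ b, ∀ i, f i < b)
    (hst : ∀ G : L → L, ∃ d, D.A d = ∅ ∧ (∀ b < d, G b < d) ∧ ∃ b, b < d)
    (hWc : ∀ Z : Set W, Z.Countable → ∃ b, ∀ z ∈ Z, z < b)
    (hunc : ∀ Z : Set L, (∀ b, (Z ∩ Set.Iio b).Countable) → ∃ b, ∀ z ∈ Z, z < b) :
    ∃ T : TR L X Cohen, T.h = D.h ∧
      (∀ (p : Cohen) (B : Set X), (∀ a, ∃ y ∈ B, a ≤ T.h y) →
        ∃ q ≤ p, ∃ x ∈ B, ∃ y ∈ B, T.R q x y) ∧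
      (∀ (p : Cohen) (B : Set X), (∀ a, ∃ y ∈ B, a ≤ T.h y) →
        ∃ q ≤ p, ∃ x ∈ B, ∃ y ∈ B, x ≠ y ∧ ∀ r ≤ q, ¬ T.R r x y ∧ ¬ T.R r y x) := by
  obtain ⟨dc, hdc⟩ := exists_surjective_nat Sys.Cmd
  have two : ∀ {p s s' u y u' y'}, Dec dc p s → Dec dc p s' → D.R adr s u y → D.R adr s' u' y' →
      ∃ t, Dec dc p t ∧ D.R adr t u y ∧ D.R adr t u' y' := fun h h' g g' =>
    (h.cmp h').elim (fun e => ⟨_, h', g.mono e, g'⟩) fun e => ⟨_, h, g, g'.mono e⟩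
  refine ⟨⟨D.h, fun p u y => ∃ s, Dec dc p s ∧ D.R adr s u y, ?_, ?_, ?_, ?_, ?_⟩, rfl, ?_, ?_⟩
  · rintro p q u y ⟨s, h1, h2⟩ hq
    exact ⟨s, h1.mono hq, h2⟩
  · rintro p u y ⟨s, -, h2⟩
    exact h2.lt
  · rintro p u v y ⟨s, h1, h2⟩ ⟨s', h1', h2'⟩
    obtain ⟨t, g1, g2, g3⟩ := two h1 h1' h2 h2'
    exact ⟨t, g1, g2.trans g3⟩
  · rintro p u u' y ⟨s, h1, h2⟩ ⟨s', h1', h2'⟩ e
    obtain ⟨t, -, g2, g3⟩ := two h1 h1' h2 h2'
    exact g2.unique g3 e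
  · intro y b hb p
    obtain ⟨s, hs⟩ := exists_full hdc p
    obtain ⟨s', h1, u, h2, h3⟩ := Sys.pred_dense hrk y hb s
    obtain ⟨q, hq, h4⟩ := hs s' h1
    exact ⟨q, hq, u, h2, s', h4, h3⟩
  · intro p B hB
    obtain ⟨s, hs⟩ := exists_full hdc p
    obtain ⟨s', h1, x, hx, y, hy, h3⟩ := Sys.exists_comp hLc hLW hst hrk hpos hWc hunc hB s
    obtain ⟨q, hq, h4⟩ := hs s' h1
    exact ⟨q, hq, x, hx, y, hy, s', h4, h3⟩
  · intro p B hB
    obtain ⟨s, hs⟩ := exists_full hdc p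
    obtain ⟨s', h1, x, hx, y, hy, hne, h3⟩ := Sys.exists_incomp hLc hLW hst hrk hB s
    obtain ⟨q, hq, h4⟩ := hs s' h1
    have key : ∀ r ≤ q, ∀ u v, (∃ s, Dec dc r s ∧ D.R adr s u v) →
        ∃ t, s' <:+ t ∧ D.R adr t u v := fun r hr u v ⟨t, g1, g2⟩ =>
      ((h4.mono hr).cmp g1).elim (fun e => ⟨t, e, g2⟩) fun e => ⟨s', List.suffix_rfl, g2.mono e⟩
    exact ⟨q, hq, x, hx, y, hy, hne, fun r hr =>
      ⟨fun h => (key r hr _ _ h).elim fun t ht => (h3 t ht.1).1 ht.2,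
        fun h => (key r hr _ _ h).elim fun t ht => (h3 t ht.1).2 ht.2⟩⟩

theorem exists_adr {L W X : Type} [LinearOrder L] [LinearOrder W] [WellFoundedLT L] (D : Sys L W X)
    (hWc : ∀ Z : Set W, Z.Countable → ∃ b, ∀ z ∈ Z, z < b) (j : W × W ↪ (ℕ → Bool)) :
    ∃ adr : X → ℕ → Bool, (∀ w, ∀ u ∈ D.N w, D.h u < D.h w → adr u ≠ adr w) ∧
      ∀ u p, D.pos (D.h u) < D.pos (D.h p) → adr u ≠ adr p := by
  have key : ∀ (w : X) (G : ∀ u, D.h u < D.h w → W), ∃ b, ∀ u (h : D.h u < D.h w), u ∈ D.N w →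
      G u h < b := by
    intro w G
    have hc : {a : {u // D.h u < D.h w} | a.1 ∈ D.N w}.Countable :=
      (D.N_ct w).preimage Subtype.val_injective
    obtain ⟨b, hb⟩ := hWc _ (hc.image fun a => G a.1 a.2)
    exact ⟨b, fun a h hj => hb _ ⟨⟨a, h⟩, hj, rfl⟩⟩
  choose nx hnx using key
  let rk : X → W := (InvImage.wf D.h (wellFounded_lt (α := L))).fix fun w ih => nx w ih
  refine ⟨fun x => j (D.pos (D.h x), rk x), fun w u hu h e => ?_, fun u p h e => ?_⟩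
  · have h1 : rk w = nx w (fun a _ => rk a) := WellFounded.fix_eq _ _ _
    exact (h1 ▸ hnx w (fun a _ => rk a) u h hu).ne (congrArg Prod.snd (j.injective e))
  · exact h.ne (congrArg Prod.fst (j.injective e))

end Pool.Agent.Lib.MP_40ade9_lc.J
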