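import Pool.Agent.Lib.MP_40ade9_lc.JTree

/-! Merging the nodes of a column into a chain. -/

set_option autoImplicit false

namespace Pool.Agent.Lib.MP_40ade9_lc.J

theorem exists_sep {X : Type} (adr : X → ℕ → Bool) (w : X) (P : List X)
    (h : ∀ p ∈ P, adr w ≠ adr p) : ∃ l : List (ℕ × Bool), (∀ e ∈ l, adr w e.1 = e.2) ∧
      ∀ p ∈ P, ∃ e ∈ l, adr p e.1 ≠ e.2 := by
  induction P with
  | nil => exact ⟨[], by simp, by simp⟩
  | cons p P ih =>
    obtain ⟨l, h1, h2⟩ := ih fun q hq => h q (List.mem_cons_of_mem _ hq)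
    obtain ⟨k, hk⟩ := Function.ne_iff.1 (h p List.mem_cons_self)
    refine ⟨(k, adr w k) :: l, ?_, ?_⟩
    · intro e he
      rcases List.mem_cons.1 he with rfl | he
      · rfl
      · exact h1 e he
    · intro q hq
      rcases List.mem_cons.1 hq with rfl | hq
      · exact ⟨_, List.mem_cons_self, hk.symm⟩
      · obtain ⟨e, he, h3⟩ := h2 q hq
        exact ⟨e, List.mem_cons_of_mem _ he, h3⟩

namespace Sys

variable {L W X : Type} [LinearOrder L] [LinearOrder W] (D : Sys L W X) (adr : X → ℕ → Bool)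

/-- the level `a` lies above the root `o` -/
def ab (o : Option X) (a : L) : Prop := ∀ v, o = some v → D.h v < a

/-- the nodes of the column `(o, m)` have jumped inside the column only -/
def Inv (o : Option X) (m : ℕ) (s : List Cmd) : Prop :=
  ∀ a, D.ab o a → ∀ z, D.Jm adr s z (D.mk' a o m) → ∃ e, D.ab o e ∧ z = D.mk' e o m

/-- the node `x` has not jumped between `s` and `s'` -/
def Unm (s s' : List Cmd) (x : X) : Prop := ∀ z, D.Jm adr s' z x → D.Jm adr s z x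

variable {D adr} {o : Option X} {m : ℕ}

theorem ab.mono {a b : L} (h : D.ab o a) (hab : a ≤ b) : D.ab o b :=
  fun v hv => (h v hv).trans_le hab

theorem Unm.trans {s s' s'' : List Cmd} {x : X} (h : D.Unm adr s s' x) (h' : D.Unm adr s' s'' x) :
    D.Unm adr s s'' x := fun z hz => h z (h' z hz)

theorem Unm.ba {s s' : List Cmd} {x z : X} (h : D.Unm adr s s' x) (hz : D.Ba adr s' z x) :
    D.Ba adr s z x := hz.imp id (h z)

theorem B0_col {a : L} (ha : D.ab o a) {z : X} (h : D.B0 z (D.mk' a o m)) :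
    (∃ e ∈ D.A a, D.ab o e ∧ z = D.mk' e o m) ∨ o = some z := by
  rcases h with h | ⟨c, hc, h1, h2⟩
  · rw [D.par_mk _ _ _ ha] at h
    exact Or.inr h
  · rw [D.par_mk _ _ _ ha] at h1 h2
    rw [D.tag_mk _ _ _ ha] at h2
    rw [D.h_mk] at hc
    exact Or.inl ⟨c, hc, h1, h2⟩

theorem Inv.base {s : List Cmd} (hI : D.Inv adr o m s) {a : L} (ha : D.ab o a) {z : X}
    (h : D.Ba adr s z (D.mk' a o m)) : (∃ e, D.ab o e ∧ z = D.mk' e o m) ∨ o = some z := by
  rcases h with h | h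
  · exact (B0_col ha h).imp (fun ⟨e, _, h⟩ => ⟨e, h⟩) id
  · exact Or.inl (hI a ha z h)

theorem root_R {s : List Cmd} {a : L} (ha : D.ab o a) {v : X} (hv : o = some v) :
    D.R adr s v (D.mk' a o m) := by
  subst hv
  exact (B0_par (ha v rfl)).R

theorem col_mem_N {a e : L} (ha : D.ab o a) (he : D.Lev (D.N (D.mk' a o m)) e) (m' : ℕ) :
    D.mk' e o m' ∈ D.N (D.mk' a o m) :=
  (D.N_closed _).mk_mem he (fun _ hv => (D.N_closed _).par (D.self_mem_N _)
    ((D.par_mk _ _ _ ha).trans hv)) _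

theorem jump_col {s : List Cmd} (hI : D.Inv adr o m s) {a e : L} (ha : D.ab o a) (hea : e < a)
    (he : D.Lev (D.N (D.mk' a o m)) e)
    (hz : ∀ z, D.Ba adr s z (D.mk' a o m) → D.R adr s z (D.mk' e o m)) (P : List X)
    (hP : ∀ p ∈ P, adr (D.mk' a o m) ≠ adr p) : ∃ s', s <:+ s' ∧ D.Inv adr o m s' ∧
      (∀ p ∈ P, D.Unm adr s s' p) ∧ D.R adr s' (D.mk' e o m) (D.mk' a o m) := by
  obtain ⟨l, h1, h2⟩ := exists_sep adr _ P hP
  obtain ⟨t, ht, rfl⟩ := he
  obtain ⟨i, rfl⟩ := D.en_surj ht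
  have htg : ∀ b, D.ab o b → D.tg (m, l, false, i) (D.mk' b o m) =
      D.mk' (D.h (D.en (D.mk' b o m) i)) o m := fun b hb => by
    simp only [tg, Bool.false_eq_true, if_false, D.par_mk _ _ _ hb, D.tag_mk _ _ _ hb]
  refine ⟨(m, l, false, i) :: s, List.suffix_cons _ _, fun b hb z h => ?_, fun p hp z h => ?_,
    Ba.R (Or.inr (Or.inr ⟨⟨D.tag_mk _ _ _ ha, h1⟩, (htg a ha).symm, by rwa [D.h_mk, D.h_mk], hz⟩))⟩
  · rcases Jm_cons.1 h with h | ⟨-, h3, -, h4⟩
    · exact hI b hb z h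
    · rw [htg b hb] at h3
      refine ⟨_, fun v hv => ?_, h3⟩
      have := (h4 v (Or.inl (Or.inl ((D.par_mk _ _ _ hb).trans hv)))).lt
      rwa [h3, D.h_mk] at this
  · rcases Jm_cons.1 h with h | ⟨h3, -⟩
    · exact h
    · obtain ⟨e, he, h4⟩ := h2 p hp
      exact absurd (h3.2 e he) h4

theorem jump_dir {s : List Cmd} {w x : X} (hx : D.h x < D.h w)
    (hz : ∀ z, D.Ba adr s z w → D.R adr s z x) {i : ℕ} (hi : D.en w i = x) :
    D.R adr ((D.tag w, [], true, i) :: s) x w :=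
  Ba.R (Or.inr (Or.inr ⟨⟨rfl, by simp⟩, by simp only [tg, if_true, hi], hx, hz⟩))

variable [WellFoundedLT L]

theorem Inv.below {s : List Cmd} (hI : D.Inv adr o m s) {a : L} (ha : D.ab o a) {u : X}
    (h : D.R adr s u (D.mk' a o m)) : (∃ e, D.ab o e ∧ u = D.mk' e o m) ∨
      ∃ v, o = some v ∧ (u = v ∨ D.R adr s u v) := by
  induction a using WellFoundedLT.induction with
  | ind a ih =>
    obtain ⟨z, hz, g⟩ := h.cases
    rcases hI.base ha hz with ⟨e, he, rfl⟩ | hv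
    · rcases g with g | g
      · exact Or.inl ⟨e, he, g⟩
      · have := hz.lt
        rw [D.h_mk, D.h_mk] at this
        exact ih e this he g
    · exact Or.inr ⟨z, hv, g⟩

theorem Inv.col {s : List Cmd} (hI : D.Inv adr o m s) {a b : L} (ha : D.ab o a) (hb : D.ab o b)
    {u : X} (h : u = D.mk' a o m ∨ D.R adr s u (D.mk' a o m)) (hbu : b ≤ D.h u) :
    u = D.mk' (D.h u) o m := by
  rcases h with rfl | h
  · rw [D.h_mk]
  · rcases hI.below ha h with ⟨e, -, rfl⟩ | ⟨v, hv, g⟩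
    · rw [D.h_mk]
    · have : D.h u ≤ D.h v := g.elim (fun g => g ▸ le_rfl) fun g => g.lt.le
      exact absurd ((hb v hv).trans_le hbu) (not_lt.2 this)

variable (D adr o m) in
/-- merging is possible at level `a` -/
def MergeAt (a : L) : Prop := ∀ S, D.Closed S → ∀ P : List X,
  (∀ p ∈ P, ∀ u ∈ S, D.h u ≤ a → adr u ≠ adr p) → ∀ s, D.Inv adr o m s → ∀ b, D.ab o b → b < a →
    D.Lev S b → D.mk' a o m ∈ S → ∃ s', s <:+ s' ∧ D.Inv adr o m s' ∧
      (∀ p ∈ P, D.Unm adr s s' p) ∧ D.R adr s' (D.mk' b o m) (D.mk' a o m)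

variable (hrk : ∀ w, ∀ u ∈ D.N w, D.h u < D.h w → adr u ≠ adr w)
include hrk

omit [WellFoundedLT L] in
theorem prep {a e : L} (hM : D.MergeAt adr o m e) (ha : D.ab o a) (hea : e < a) (he' : D.ab o e)
    (he : D.Lev (D.N (D.mk' a o m)) e) {s : List Cmd} (hI : D.Inv adr o m s)
    (hz : ∀ z, D.Ba adr s z (D.mk' a o m) → D.h z < e) (P : List X)
    (hP : ∀ p ∈ P, ∀ u ∈ D.N (D.mk' a o m), D.h u ≤ e → adr u ≠ adr p) :
    ∃ s', s <:+ s' ∧ D.Inv adr o m s' ∧ (∀ p ∈ D.mk' a o m :: P, D.Unm adr s s' p) ∧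
      ∀ z, D.Ba adr s' z (D.mk' a o m) → D.R adr s' z (D.mk' e o m) := by
  obtain ⟨o', h1, h2⟩ := exists_top (adr := adr) s (w := D.mk' a o m) (b := e)
    (by rwa [D.h_mk]) fun c hc => (A_bound hz c hc).le
  rcases o' with _ | t
  · exact ⟨s, List.suffix_rfl, hI, fun _ _ _ h => h, fun z hz => by simpa using h2 z hz⟩
  have h2' : ∀ z, D.Ba adr s z (D.mk' a o m) → z = t ∨ D.R adr s z t := fun z hz => by
    obtain ⟨v, ⟨rfl⟩, g⟩ := h2 z hz
    exact g
  obtain ⟨h3, h4⟩ := h1 t rfl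
  rcases hI.base ha h3 with ⟨c, hc, rfl⟩ | hv
  · have hce : c < e := by simpa only [D.h_mk] using hz _ h3
    obtain ⟨s', g1, g2, g3, g4⟩ := hM _ (D.N_closed (D.mk' a o m)) (D.mk' a o m :: P)
      (fun p hp u hu hue => by
        rcases List.mem_cons.1 hp with rfl | hp
        · exact hrk _ u hu (by rw [D.h_mk]; exact hue.trans_lt hea)
        · exact hP p hp u hu hue) s hI c hc hce ⟨_, h4, D.h_mk _ _ _⟩ (col_mem_N ha he m)
    exact ⟨s', g1, g2, g3, fun z hz =>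
      le_trans' (le_mono' (h2' z ((g3 _ List.mem_cons_self).ba hz)) g1) g4⟩
  · exact ⟨s, List.suffix_rfl, hI, fun _ _ _ h => h, fun z hz =>
      le_trans' (h2' z hz) (root_R he' hv)⟩

omit [WellFoundedLT L] in
theorem step {a e : L} (hM : D.MergeAt adr o m e) (ha : D.ab o a) (hea : e < a) (he' : D.ab o e)
    (he : D.Lev (D.N (D.mk' a o m)) e) {s : List Cmd} (hI : D.Inv adr o m s)
    (hz : ∀ z, D.Ba adr s z (D.mk' a o m) → D.h z < e) (P : List X)
    (hP : ∀ p ∈ P, ∀ u ∈ D.N (D.mk' a o m), D.h u ≤ a → adr u ≠ adr p) :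
    ∃ s', s <:+ s' ∧ D.Inv adr o m s' ∧ (∀ p ∈ P, D.Unm adr s s' p) ∧
      D.R adr s' (D.mk' e o m) (D.mk' a o m) := by
  obtain ⟨s1, h1, h2, h3, h4⟩ := prep hrk hM ha hea he' he hI hz P
    fun p hp u hu hue => hP p hp u hu (hue.trans hea.le)
  obtain ⟨s2, g1, g2, g3, g4⟩ := jump_col h2 ha hea he h4 P
    fun p hp => hP p hp _ (D.self_mem_N _) (D.h_mk _ _ _).le
  exact ⟨s2, h1.trans g1, g2, fun p hp => (h3 p (List.mem_cons_of_mem _ hp)).trans (g3 p hp), g4⟩

theorem merge (a : L) : D.MergeAt adr o m a := by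
  induction a using WellFoundedLT.induction with
  | ind a ih =>
    intro S hS P hP s hI b hb hba hbS haS
    have ha : D.ab o a := hb.mono hba.le
    obtain ⟨w, hwS, h1, h2, h3⟩ := exists_gap (adr := adr) hS s hbS haS
      (by rw [D.h_mk]; exact hba.le)
    have hw := hI.col ha hb h1 h2
    have hwa : D.h w ≤ a := by
      rcases h1 with h1 | h1
      · rw [h1, D.h_mk]
      · simpa only [D.h_mk] using h1.lt.le
    generalize hc : D.h w = c at hw h2 hwa
    subst hw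
    rcases h2.eq_or_lt with rfl | hbc
    · refine ⟨s, List.suffix_rfl, hI, fun _ _ _ h => h, h1.resolve_left fun h => ?_⟩
      have := congrArg D.h h
      rw [D.h_mk, D.h_mk] at this
      exact hba.ne this
    obtain ⟨e, he, hbe⟩ := D.lad_cof c b hbc
      (fun d hd => (A_bound h3 d (by rwa [D.h_mk])).le) b hbc
    have hec := D.lad_lt _ _ he
    have heN : D.Lev (D.N (D.mk' c o m)) e :=
      (D.N_closed _).lev_lad (D.self_mem_N _) (by rwa [D.h_mk])
    have hNS := hS.N_sub hwS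
    obtain ⟨s1, g1, g2, g3, g4⟩ := step hrk (ih e (hec.trans_le hwa)) (hb.mono hbc.le) hec
      (hb.mono hbe) heN hI (fun z hz => (h3 z hz).trans_le hbe) P
      fun p hp u hu huc => hP p hp u (hNS hu) (huc.trans hwa)
    have g5 := lt_le' g4 (le_mono' h1 g1)
    rcases hbe.eq_or_lt with rfl | hbe'
    · exact ⟨s1, g1, g2, g3, g5⟩
    obtain ⟨s2, k1, k2, k3, k4⟩ := ih e (hec.trans_le hwa) S hS P
      (fun p hp u hu hue => hP p hp u hu (hue.trans (hec.le.trans hwa))) s1 g2 b hb hbe' hbS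
      (hNS (col_mem_N (hb.mono hbc.le) heN m))
    exact ⟨s2, g1.trans k1, k2, fun p hp => (g3 p hp).trans (k3 p hp), k4.trans (g5.mono k1)⟩

theorem merge' {s : List Cmd} (hI : D.Inv adr o m s) {a b : L} (hb : D.ab o b) (hba : b ≤ a) :
    ∃ s', s <:+ s' ∧ (D.mk' b o m = D.mk' a o m ∨ D.R adr s' (D.mk' b o m) (D.mk' a o m)) := by
  rcases hba.eq_or_lt with rfl | hba
  · exact ⟨s, List.suffix_rfl, Or.inl rfl⟩
  obtain ⟨s', h1, -, -, h2⟩ := merge hrk a Set.univ (fun _ _ _ _ => Set.subset_univ _) []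
    (by simp) s hI b hb hba ⟨_, Set.mem_univ _, D.h_mk b o m⟩ (Set.mem_univ _)
  exact ⟨s', h1, Or.inr h2⟩

omit hrk [WellFoundedLT L] in
theorem exists_fresh (s : List Cmd) : ∃ M, ∀ z x, D.Jm adr s z x → D.tag x < M := by
  induction s with
  | nil => exact ⟨0, fun _ _ h => h.elim⟩
  | cons c s ih =>
    obtain ⟨M, hM⟩ := ih
    refine ⟨max M (c.1 + 1), fun z x h => ?_⟩
    rcases Jm_cons.1 h with h | h
    · exact lt_max_of_lt_left (hM z x h)
    · exact lt_max_of_lt_right (by rw [h.1.1]; exact Nat.lt_succ_self _)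

omit hrk [WellFoundedLT L] in
theorem no_jump {s : List Cmd} {M : ℕ} (hM : ∀ z x, D.Jm adr s z x → D.tag x < M) {c : Cmd}
    (h1 : M ≤ m) (h2 : c.1 ≠ m) {a : L} (ha : D.ab o a) (z : X) :
    ¬ D.Jm adr (c :: s) z (D.mk' a o m) := fun h => by
  rcases Jm_cons.1 h with h | h
  · have := hM _ _ h
    rw [D.tag_mk _ _ _ ha] at this
    omega
  · exact h2 (h.1.1.symm.trans (D.tag_mk _ _ _ ha))

theorem pred_dense (y : X) {b : L} (hb : b < D.h y) (s : List Cmd) :
    ∃ s', s <:+ s' ∧ ∃ u, D.h u = b ∧ D.R adr s' u y := by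
  obtain ⟨w, -, h1, h2, h3⟩ := exists_gap (adr := adr) (S := Set.univ)
    (fun _ _ _ _ => Set.subset_univ _) s ⟨_, Set.mem_univ _, D.h_mk b none 0⟩ (Set.mem_univ y) hb.le
  rcases h2.eq_or_lt with h2 | h2
  · exact ⟨s, List.suffix_rfl, w, h2.symm, h1.resolve_left fun h => hb.ne (h ▸ h2)⟩
  have hA : ∀ c ∈ D.A (D.h w), c ≤ b := fun c hc => (A_bound h3 c hc).le
  obtain ⟨o, g1, g2⟩ := exists_top (adr := adr) s h2 hA
  obtain ⟨e, he, hbe⟩ := D.lad_cof _ b h2 hA b h2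
  obtain ⟨M, hM⟩ := exists_fresh (D := D) (adr := adr) s
  have hob : D.ab o b := fun v hv => h3 v (g1 v hv).1
  obtain ⟨i, hi⟩ := D.en_surj ((D.N_closed w).mk_mem ((D.N_closed w).lev_lad (D.self_mem_N w) he)
    (fun v hv => (g1 v hv).2) (M + D.tag w + 1))
  have hR := jump_dir (adr := adr) (s := s) (by rw [D.h_mk]; exact D.lad_lt _ _ he) (fun z hz => by
    obtain ⟨v, hv, g⟩ := g2 z hz
    exact le_trans' g (root_R (hob.mono hbe) hv)) hi
  obtain ⟨s', k1, k2⟩ := merge' hrk (o := o) (m := M + D.tag w + 1)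
    (s := (D.tag w, [], true, i) :: s)
    (fun a ha z hz => absurd hz (no_jump hM (by omega) (by simp only; omega) ha z)) hob hbe
  exact ⟨s', (List.suffix_cons _ _).trans k1, _, D.h_mk _ _ _, lt_le' (le_trans' k2 (hR.mono k1))
    (le_mono' h1 ((List.suffix_cons _ _).trans k1))⟩

end Sys

end Pool.Agent.Lib.MP_40ade9_lc.J
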