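import Pool.Agent.Lib.MP_40ade9_lc.JDefs
import Pool.Agent.Lib.MP_40ade9_lc.JForce

/-! From Jensen's square to the ground-model data, and the main theorem. -/

set_option autoImplicit false

namespace Pool.Agent.Lib.MP_40ade9_lc.J

open Ordinal Cardinal Set

theorem exists_lim {L : Type} [LinearOrder L] [WellFoundedLT L] (P : L → Prop)
    (hP : ∀ a b, a ≤ b → P b → P a) (hb : ∀ f : ℕ → L, (∀ n, P (f n)) → ∃ b, P b ∧ ∀ n, f n < b)
    (G : L → L) (hG : ∀ x, P x → x < G x ∧ P (G x)) {x : L} (hx : P x) :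
    ∃ (a : ℕ → L) (d : L), P d ∧ a 0 = x ∧ (∀ n, a (n + 1) = G (a n)) ∧ (∀ n, a n < d) ∧
      ∀ b < d, ∃ n, b < a n := by
  let a : ℕ → L := fun n => G^[n] x
  have ha : ∀ n, a (n + 1) = G (a n) := fun n => Function.iterate_succ_apply' G n x
  have hlt : ∀ n, P (a n) := by
    intro n
    induction n with
    | zero => exact hx
    | succ n ih => rw [ha]; exact (hG _ ih).2
  obtain ⟨b, hb, hab⟩ := hb a hlt
  obtain ⟨d, hd, hmin⟩ := (wellFounded_lt (α := L)).has_min {u | ∀ n, a n < u} ⟨b, hab⟩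
  refine ⟨a, d, hP _ _ (not_lt.1 (hmin b hab)) hb, rfl, ha, hd, fun c hc => ?_⟩
  by_contra hn
  push Not at hn
  exact hmin c (fun n => (ha n ▸ (hG _ (hlt n)).1).trans_le (hn (n + 1))) hc

theorem exists_chains {κ : Ordinal.{0}} {L W : Type} [LinearOrder L] [WellFoundedLT L]
    [LinearOrder W] [Nonempty L] {lv : L → Ordinal.{0}} (hlv : StrictMono lv)
    (hr : ∀ ξ, ξ < κ ↔ ∃ a, lv a = ξ) (hW1 : ∀ w : W, (Iic w).Countable)
    (hWc : ∀ Z : Set W, Z.Countable → ∃ b, ∀ z ∈ Z, z < b)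
    (hLc : ∀ Z : Set L, Z.Countable → ∃ b, ∀ z ∈ Z, z < b)
    (hLW : ∀ f : W → L, ∃ b, ∀ i, f i < b)
    (hreg : ∀ (f : L → L) (a : L), ∃ b, a < b ∧ ∀ c ≤ a, f c < b)
    {C : Ordinal.{0} → Set Ordinal.{0}}
    (hC1 : ∀ α < κ, Order.IsSuccLimit α → IsClubIn (C α) α)
    (hC2 : ∀ α < κ, Order.IsSuccLimit α → ∀ β < α, IsAccPt (C α) β → C β = C α ∩ Iio β)
    (hC3 : ∀ α < κ, Order.IsSuccLimit α → ∀ β < α, (C α ∩ Iio β).Countable) :
    ∃ (A lad : L → Set L) (pos : L → W), (∀ a, ∀ c ∈ A a, c < a) ∧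
      (∀ a, ∀ c ∈ A a, ∀ e ∈ A a, e < c → e ∈ A c) ∧ (∀ a, ∀ c ∈ A a, ∀ e ∈ A c, e ∈ A a) ∧
      (∀ a b, b < a → (∀ c ∈ A a, c ≤ b) → (A a).Nonempty → ∃ c, IsGreatest (A a) c) ∧
      (∀ a, ∀ c ∈ lad a, c < a) ∧ (∀ a, (lad a).Countable) ∧
      (∀ a b, b < a → (∀ c ∈ A a, c ≤ b) → ∀ e < a, ∃ c ∈ lad a, e ≤ c) ∧
      (∀ a ν, {c | c ∈ A a ∧ pos c ≤ ν}.Countable) ∧
      ∀ G : L → L, ∃ d, A d = ∅ ∧ (∀ b < d, G b < d) ∧ ∃ b, b < d := by
  have hlt : ∀ a, lv a < κ := fun a => (hr _).2 ⟨a, rfl⟩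
  have hin : ∀ {a ξ}, ξ < lv a → ∃ b < a, lv b = ξ := fun {a ξ} h => by
    obtain ⟨b, rfl⟩ := (hr ξ).1 (h.trans (hlt a))
    exact ⟨b, hlv.lt_iff_lt.1 h, rfl⟩
  let Ac : L → L → Prop := fun a c =>
    Order.IsSuccLimit (lv a) ∧ c < a ∧ IsAccPt (C (lv a)) (lv c)
  have F1 : ∀ {a c}, Ac a c → C (lv c) = C (lv a) ∩ Iio (lv c) := fun {a c} h =>
    hC2 _ (hlt a) h.1 _ (hlv h.2.1) h.2.2
  have F2 : ∀ {a c e}, Ac a c → Ac a e → e < c → Ac c e := fun {a c e} h h' hec =>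
    ⟨h.2.2.isSuccLimit, hec, h'.2.2.1, fun ξ hξ => (h'.2.2.2 ξ hξ).imp fun γ hγ =>
      ⟨F1 h ▸ ⟨hγ.1, hγ.2.2.trans (hlv hec)⟩, hγ.2⟩⟩
  have F3 : ∀ {a c e}, Ac a c → Ac c e → Ac a e := fun {a c e} h h' =>
    ⟨h.1, h'.2.1.trans h.2.1, h'.2.2.1, fun ξ hξ => (h'.2.2.2 ξ hξ).imp fun γ hγ =>
      ⟨(F1 h ▸ hγ.1 : γ ∈ C (lv a) ∩ Iio (lv c)).1, hγ.2⟩⟩
  have F4 : ∀ {a c}, Ac a c → lv c ∈ C (lv a) := fun {a c} h =>
    (hC1 _ (hlt a) h.1).2.2 _ (hlv h.2.1) h.2.2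
  have F5 : ∀ a b, b < a → {c | Ac a c ∧ c < b}.Countable := fun a b hb => by
    by_cases ha : Order.IsSuccLimit (lv a)
    · refine ((hC3 _ (hlt a) ha _ (hlv hb)).preimage hlv.injective).mono ?_
      exact fun c hc => ⟨F4 hc.1, hlv hc.2⟩
    · exact Set.countable_empty.mono fun c hc => ha hc.1.1
  have key : ∀ (b : L) (G : ∀ a, a < b → W), ∃ w, {e | Ac b e}.Countable →
      ∀ a (h : a < b), Ac b a → G a h < w := by
    intro b G
    by_cases hc : {e | Ac b e}.Countable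
    · obtain ⟨w, hw⟩ := hWc _ ((hc.preimage (f := fun a : Iio b => a.1) Subtype.val_injective).image
        fun a => G a.1 a.2)
      exact ⟨w, fun _ a h hj => hw _ ⟨⟨a, h⟩, hj, rfl⟩⟩
    · exact (hWc ∅ Set.countable_empty).imp fun w _ h => absurd h hc
  choose nx hnx using key
  let pos : L → W := (wellFounded_lt (α := L)).fix nx
  have hpos : ∀ {a c e}, Ac a c → Ac a e → e < c → pos e < pos c := fun {a c e} h h' hec => by
    have h1 : pos c = nx c fun a _ => pos a := WellFounded.fix_eq _ _ _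
    refine h1 ▸ hnx c (fun a _ => pos a) ((F5 a c h.2.1).mono ?_) e hec (F2 h h' hec)
    exact fun u hu => ⟨F3 h hu, hu.2.1⟩
  have hct : ∀ a ν, {c | Ac a c ∧ pos c ≤ ν}.Countable := fun a ν =>
    Set.MapsTo.countable_of_injOn (f := pos) (fun c hc => hc.2) (fun c hc e he h => by
      rcases lt_trichotomy c e with g | g | g
      · exact absurd h (hpos he.1 hc.1 g).ne
      · exact g
      · exact absurd h (hpos hc.1 he.1 g).ne') (hW1 ν)
  obtain ⟨τ, hτ⟩ : ∃ τ, ∀ G : L → L, ∃ d, (∀ c, Ac d c → pos c ≤ τ) ∧ (∀ b < d, G b < d) ∧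
      ∃ b, b < d := by
    by_contra hc
    push Not at hc
    choose G hG using hc
    choose G1 hG1 using fun b => hLW fun τ => G τ b
    choose G2 hG2 hG3 using hreg G1
    obtain ⟨a, d, -, -, h2, h3, h4⟩ := exists_lim (fun _ => True) (fun _ _ _ _ => trivial)
      (fun f _ => (hLc _ (Set.countable_range f)).imp fun b hb => ⟨trivial, fun n => hb _ ⟨n, rfl⟩⟩)
      G2 (fun x _ => ⟨hG2 x, trivial⟩) (x := Classical.arbitrary L) trivial
    obtain ⟨τ, hτ⟩ := hWc _ (((Set.countable_iUnion fun n => F5 d (a n) (h3 n)).mono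
      (s₁ := {c | Ac d c}) fun c hc => (h4 c hc.2.1).elim fun n hn =>
        Set.mem_iUnion.2 ⟨n, And.intro hc hn⟩).image pos)
    refine absurd (hG τ d (fun c hc => (hτ _ ⟨c, hc, rfl⟩).le) (fun b hb => ?_) (a 0))
      (not_le.2 (h3 0))
    obtain ⟨n, hn⟩ := h4 b hb
    exact ((hG1 b τ).trans (hG3 _ b hn.le)).trans (h2 n ▸ h3 (n + 1))
  have hlad : ∀ a : L, ∃ Z : Set L, Z.Countable ∧ (∀ c ∈ Z, c < a) ∧
      ((∀ e < a, ∃ c ∈ Z, e ≤ c) ∨
        ∀ Z : Set L, Z.Countable → (∀ c ∈ Z, c < a) → ∃ e < a, ∀ c ∈ Z, c < e) := by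
    intro a
    by_cases h : ∀ Z : Set L, Z.Countable → (∀ c ∈ Z, c < a) → ∃ e < a, ∀ c ∈ Z, c < e
    · exact ⟨∅, Set.countable_empty, by simp, Or.inr h⟩
    · push Not at h
      obtain ⟨Z, h1, h2, h3⟩ := h
      exact ⟨Z, h1, h2, Or.inl h3⟩
  choose lad hl1 hl2 hl3 using hlad
  refine ⟨fun a => {c | Ac a c ∧ τ < pos c}, lad, pos, fun a c hc => hc.1.2.1,
    fun a c hc e he hec => ⟨F2 hc.1 he.1 hec, he.2⟩, fun a c hc e he => ⟨F3 hc.1 he.1, he.2⟩,
    fun a b hb h ⟨c0, hc0⟩ => ?_, hl2, hl1, fun a b hb h => (hl3 a).resolve_right fun hn => ?_,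
    fun a ν => (hct a ν).mono fun c hc => And.intro hc.1.1 hc.2, fun G => (hτ G).imp fun d hd =>
      ⟨Set.eq_empty_of_forall_notMem fun c hc => absurd (hd.1 c hc.1) (not_le.2 hc.2), hd.2⟩⟩
  · obtain ⟨d, hd, hmin⟩ := (wellFounded_lt (α := L)).has_min
      {u | ∀ c, Ac a c ∧ τ < pos c → c ≤ u} ⟨b, h⟩
    refine ⟨d, ?_, hd⟩
    by_contra hn
    have hlt' : ∀ c, Ac a c ∧ τ < pos c → c < d := fun c hc =>
      (hd c hc).lt_of_ne fun h => hn (h ▸ hc)
    have hd' : Ac a d := by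
      refine ⟨hc0.1.1, (not_lt.1 (hmin b h)).trans_lt hb, zero_le.trans_lt (hlv (hlt' c0 hc0)),
        fun ξ hξ => ?_⟩
      obtain ⟨b', hb', rfl⟩ := hin hξ
      by_contra hc
      push Not at hc
      exact hmin b' (fun c hc' => not_lt.1 fun h =>
        absurd (hc _ (F4 hc'.1) (hlv h)) (not_le.2 (hlv (hlt' c hc')))) hb'
    exact hn ⟨hd', hc0.2.trans (hpos hd' hc0.1 (hlt' c0 hc0))⟩
  · have ha : Order.IsSuccLimit (lv a) := by
      rw [Ordinal.isSuccLimit_iff]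
      refine ⟨(zero_le.trans_lt (hlv hb)).ne', Order.isSuccPrelimit_iff_succ_lt.2 fun ξ hξ => ?_⟩
      obtain ⟨c, hc, rfl⟩ := hin hξ
      obtain ⟨e, he, h'⟩ := hn {c} (Set.countable_singleton c) (by simpa using hc)
      exact (Order.succ_le_of_lt (hlv (h' c rfl))).trans_lt (hlv he)
    have hclub := hC1 _ (hlt a) ha
    obtain ⟨e0, he0, h0⟩ := hn (insert b {c | Ac a c ∧ pos c ≤ τ}) ((hct a τ).insert b) (by
      rintro c (rfl | hc)
      · exact hb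
      · exact hc.1.2.1)
    have hG : ∀ x, ∃ y, x < a → (x < y ∧ y < a) ∧ lv y ∈ C (lv a) := fun x => by
      by_cases hx : x < a
      · obtain ⟨γ, h1, h2⟩ := hclub.2.1 _ (hlv hx)
        obtain ⟨y, hy, rfl⟩ := hin (hclub.1 h1)
        exact ⟨y, fun _ => ⟨⟨hlv.lt_iff_lt.1 h2, hy⟩, h1⟩⟩
      · exact ⟨x, fun h => absurd h hx⟩
    choose G hG using hG
    obtain ⟨u, d, h1, h2, h3, h4, h5⟩ := exists_lim (fun x => x < a) (fun _ _ h h' => h.trans_lt h')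
      (fun f hf => (hn _ (Set.countable_range f) (by rintro _ ⟨n, rfl⟩; exact hf n)).imp
        fun b hb => ⟨hb.1, fun n => hb.2 _ ⟨n, rfl⟩⟩) G (fun x hx => (hG x hx).1) he0
    have hd : Ac a d := by
      refine ⟨ha, h1, zero_le.trans_lt (hlv (h4 0)), fun ξ hξ => ?_⟩
      obtain ⟨b', hb', rfl⟩ := hin hξ
      obtain ⟨n, hn⟩ := h5 b' hb'
      have := hG (u n) ((h4 n).trans h1)
      exact ⟨_, this.2, hlv (hn.trans this.1.1), hlv (h3 n ▸ h4 (n + 1))⟩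
    have hed : e0 < d := h2 ▸ h4 0
    by_cases hp : τ < pos d
    · exact absurd (h d ⟨hd, hp⟩) (not_le.2 ((h0 b (Or.inl rfl)).trans hed))
    · exact lt_asymm hed (h0 d (Or.inr ⟨hd, not_lt.1 hp⟩))

theorem exists_nodes' {L W : Type} [LinearOrder L] [Infinite W] (hL1 : ∀ a : L, #(Iio a) ≤ #W) :
    ∃ (par : L × W → Option (L × W)) (tag : L × W → ℕ) (mk : L → Option (L × W) → ℕ → W),
      (∀ a o m, (∀ v, o = some v → v.1 < a) → tag (a, mk a o m) = m ∧ par (a, mk a o m) = o) ∧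
      ∀ x v, par x = some v → v.1 < x.1 := by
  classical
  have hu : ∀ b : L, Nonempty ((Option (Iio b × W) × ℕ) ↪ W) := by
    intro b
    rw [← Cardinal.le_def]
    have hW : ℵ₀ ≤ #W := Cardinal.aleph0_le_mk W
    simp only [mk_prod, Cardinal.lift_id, mk_option, mk_nat]
    have h1 : #(Iio b) * #W ≤ #W := (mul_le_mul_left (hL1 b) _).trans (Cardinal.mul_eq_self hW).le
    calc (#(Iio b) * #W + 1) * ℵ₀ ≤ (#W + #W) * #W := by
          gcongr
          exact Cardinal.one_le_aleph0.trans hW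
      _ = #W := by rw [Cardinal.add_eq_self hW, Cardinal.mul_eq_self hW]
  let u : ∀ b : L, (Option (Iio b × W) × ℕ) ↪ W := fun b => (hu b).some
  let g : ∀ b : L, Option (Iio b × W) → Option (L × W) := fun b o => o.map fun z => (z.1.1, z.2)
  let f : ∀ b : L, Option (L × W) → Option (Iio b × W) := fun b o =>
    o.bind fun z => if h : z.1 < b then some (⟨z.1, h⟩, z.2) else none
  refine ⟨fun x => g x.1 (Function.invFun (u x.1) x.2).1, fun x => (Function.invFun (u x.1) x.2).2,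
    fun a o m => u a (f a o, m), fun a o m ho => ?_, fun x v hv => ?_⟩
  · simp only [Function.leftInverse_invFun (u a).injective _, true_and]
    rcases o with _ | v
    · rfl
    · simp [f, g, ho v rfl]
  · obtain ⟨z, -, rfl⟩ := Option.map_eq_some_iff.1 hv
    exact z.1.2

theorem mainJ (hsq : JensenSquareOne) (p : Cohen) : Forces Fm.existsAlephTwoSouslin p := by
  classical
  obtain ⟨C, hC1, hC2, hC3⟩ := hsq
  rw [← Cardinal.ord_aleph] at hC1 hC2 hC3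
  have e1 : (ℵ_ 1 : Cardinal.{0}) = Order.succ ℵ₀ := Cardinal.succ_aleph0.symm
  have e2 : (ℵ_ 2 : Cardinal.{0}) = Order.succ (ℵ_ 1) := by
    rw [Cardinal.succ_aleph, one_add_one_eq_two]
  have h01 : (ℵ₀ : Cardinal.{0}) < ℵ_ 1 := Cardinal.aleph0_lt_aleph_one
  have h12 : (ℵ_ 1 : Cardinal.{0}) < ℵ_ 2 := e2 ▸ Order.lt_succ _
  have r1 : (ℵ_ 1 : Cardinal.{0}).IsRegular := Cardinal.isRegular_aleph_one
  have r2 : (ℵ_ 2 : Cardinal.{0}).IsRegular := e2 ▸ Cardinal.isRegular_succ h01.le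
  let W := (ℵ_ 1 : Cardinal.{0}).ord.ToType
  let L := (ℵ_ 2 : Cardinal.{0}).ord.ToType
  have hW : #W = ℵ_ 1 := mk_ord_toType _
  have hL : #L = ℵ_ 2 := mk_ord_toType _
  have : Infinite W := Cardinal.infinite_iff.2 (hW ▸ h01.le)
  have : Infinite L := Cardinal.infinite_iff.2 (hL ▸ (h01.trans h12).le)
  have hWW : (ℵ_ 1 : Cardinal.{0}) * ℵ_ 1 = ℵ_ 1 := Cardinal.mul_eq_self h01.le
  have hW1 : ∀ w : W, (Iic w).Countable := fun w => by
    rw [← Set.Iio_insert]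
    refine Set.Countable.insert _ ?_
    rw [← Cardinal.le_aleph0_iff_set_countable, ← Order.lt_succ_iff, ← e1]
    exact mk_Iio_toType_ord_lt w
  have hWc : ∀ S : Set W, S.Countable → ∃ w, ∀ s ∈ S, s < w := fun S hS => by
    obtain ⟨b, hb⟩ := bounded_toType r1 ((Cardinal.le_aleph0_iff_set_countable.2 hS).trans_lt h01)
      (fun s : S => (s : W))
    exact ⟨b, fun s hs => hb ⟨s, hs⟩⟩
  have hLc : ∀ S : Set L, S.Countable → ∃ w, ∀ s ∈ S, s < w := fun S hS => by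
    obtain ⟨b, hb⟩ := bounded_toType r2 ((Cardinal.le_aleph0_iff_set_countable.2 hS).trans_lt
      (h01.trans h12)) (fun s : S => (s : L))
    exact ⟨b, fun s hs => hb ⟨s, hs⟩⟩
  have hL1 : ∀ a : L, #(Iio a) ≤ #W := fun a => by
    rw [hW, ← Order.lt_succ_iff, ← e2]
    exact mk_Iio_toType_ord_lt a
  have hLW : ∀ f : W → L, ∃ b, ∀ i, f i < b := fun f => bounded_toType r2 (hW ▸ h12) f
  have hLP : ∀ f : Cohen → L, ∃ b, ∀ i, f i < b := fun f =>
    bounded_toType r2 (mk_le_aleph0.trans_lt (h01.trans h12)) f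
  have hreg : ∀ (f : L → L) (a : L), ∃ b, a < b ∧ ∀ c ≤ a, f c < b := fun f a => by
    obtain ⟨b, hb⟩ := bounded_toType r2 (((hL1 a).trans hW.le).trans_lt h12) fun c : Iio a => f c
    obtain ⟨b', hb'⟩ := hLc {a, b, f a} (Set.toFinite _).countable
    refine ⟨b', hb' a (by simp), fun c hc => ?_⟩
    rcases hc.eq_or_lt with rfl | hc
    · exact hb' _ (by simp)
    · exact (hb ⟨c, hc⟩).trans (hb' b (by simp))
  have hunc : ∀ Z : Set L, (∀ b, (Z ∩ Iio b).Countable) → ∃ b, ∀ z ∈ Z, z < b := fun Z hZ => by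
    by_cases hc : Z.Countable
    · exact hLc Z hc
    rw [← Cardinal.le_aleph0_iff_set_countable, not_le, ← Order.succ_le_iff, ← e1, ← hW] at hc
    obtain ⟨f⟩ := (Cardinal.le_def _ _).1 hc
    obtain ⟨b, hb⟩ := hLW fun i => f i
    have : (univ : Set W).Countable := Set.MapsTo.countable_of_injOn (f := fun i => (f i : L))
      (fun i _ => And.intro (f i).2 (hb i)) (fun i _ k _ h => f.injective (Subtype.ext h)) (hZ b)
    obtain ⟨w, hw⟩ := hWc _ this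
    exact absurd (hw w trivial) (lt_irrefl _)
  obtain ⟨j⟩ : Nonempty (W × W ↪ (ℕ → Bool)) := by
    rw [← Cardinal.le_def]
    simp only [mk_prod, Cardinal.lift_id, hW, hWW, mk_pi, mk_fintype, Fintype.card_bool,
      Nat.cast_ofNat, prod_const, mk_nat, two_power_aleph0]
    exact Cardinal.aleph_one_le_continuum
  obtain ⟨A, lad, pos, a1, a2, a3, a4, a5, a6, a7, a8, hst⟩ := exists_chains (toType_strictMono _)
    (lt_iff_toType _) hW1 hWc hLc hLW hreg hC1 hC2 hC3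
  obtain ⟨par, tag, mk, g1, g2⟩ := exists_nodes' (W := W) hL1
  have hinj : ∀ a : L, InjOn (fun x => mk a (some x) 0) {x : L × W | x.1 < a} :=
    fun a x hx y hy h => by
      have h1 := (g1 a (some x) 0 fun v hv => Option.some.inj hv ▸ hx).2
      have h2 := (g1 a (some y) 0 fun v hv => Option.some.inj hv ▸ hy).2
      simp only at h
      rw [h, h2] at h1
      exact (Option.some.inj h1).symm
  let D : Sys L W (L × W) := ⟨A, lad, pos, Prod.fst, par, tag, fun a o m => (a, mk a o m),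
    fun a x => mk a (some x) 0, a1, a2, a3, a4, a5, a6, a7, a8, fun _ _ _ => rfl,
    fun a o m h => (g1 a o m h).1, fun a o m h => (g1 a o m h).2, g2, fun a ν =>
      Set.MapsTo.countable_of_injOn (fun x hx => hx.2) ((hinj a).mono fun x hx => hx.1) (hW1 ν)⟩
  obtain ⟨adr, hrk, hpos⟩ := exists_adr D hWc j
  obtain ⟨T, hT, hS, hS'⟩ := exists_TR D adr hrk hpos hLc hLW hst hWc hunc
  refine forces_ex_intro (oN Cohen.one (ℵ_ 2 : Cardinal.{0}).ord)
    ⟨forces_isAlephTwo Cohen.le_one p, forces_ex_intro _ (forces_ex_intro _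
      (J.forces_isSouslin Cohen.le_one T (toType_strictMono _) (lt_iff_toType _)
        (fun a => ⟨(a, Classical.arbitrary W), by rw [hT]⟩) hLP hS hS' (fun a => ?_) p))⟩
  rw [hT]
  exact ⟨(ℵ_ 1 : Cardinal.{0}).ord, Cardinal.ord_lt_ord.2 h12,
    fun x => (mk a (some x) 0 : Ordinal.{0}), fun x _ => (ToType.toOrd _).2,
    fun x hx y hy h => hinj a hx hy ((toType_strictMono _).injective h)⟩

end Pool.Agent.Lib.MP_40ade9_lc.J
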