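import Pool.Agent.Lib.MP_40ade9_lc.KMerge

/-! If late gaps capture every unbounded set, then every unbounded set of nodes can be made to
contain comparable and incomparable pairs. -/

set_option autoImplicit false

namespace Pool.Agent.Lib.MP_40ade9_lc.K

theorem acc_mem {L : Type} [LinearOrder L] [WellFoundedLT L] {A : L → Set L}
    (hlt : ∀ a, ∀ c ∈ A a, c < a) (hcoh : ∀ a, ∀ c ∈ A a, ∀ e ∈ A a, e < c → e ∈ A c)
    (hsub : ∀ a, ∀ c ∈ A a, ∀ e ∈ A c, e ∈ A a)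
    (hmax : ∀ a b, b < a → (∀ c ∈ A a, c ≤ b) → (A a).Nonempty → ∃ c, IsGreatest (A a) c)
    {a u : L} (hu : u < a) (h0 : ∃ b, b < u) (h : ∀ b < u, ∃ c ∈ A a, b < c ∧ c < u) :
    u ∈ A a := by
  obtain ⟨b0, hb0⟩ := h0
  obtain ⟨c0, hc0, -, hc0u⟩ := h b0 hb0
  by_contra hn
  by_cases hc : ∃ c ∈ A a, u ≤ c
  · obtain ⟨c, hc, hmin⟩ := (wellFounded_lt (α := L)).has_min {c | c ∈ A a ∧ u ≤ c} hc
    have huc : u < c := hc.2.lt_of_ne fun e => hn (e ▸ hc.1)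
    have hb : ∀ e ∈ A c, e < u := fun e he => not_le.1 fun h' =>
      hmin e ⟨hsub _ _ hc.1 _ he, h'⟩ (hlt _ _ he)
    obtain ⟨g, hg⟩ := hmax c u huc (fun e he => (hb e he).le)
      ⟨c0, hcoh _ _ hc.1 _ hc0 (hc0u.trans huc)⟩
    obtain ⟨e, he, h1, h2⟩ := h g (hb g hg.1)
    exact absurd (hg.2 (hcoh _ _ hc.1 _ he (h2.trans huc))) (not_le.2 h1)
  · push Not at hc
    obtain ⟨g, hg⟩ := hmax a u hu (fun e he => (hc e he).le) ⟨c0, hc0⟩
    obtain ⟨e, he, h1, -⟩ := h g (hc g hg.1)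
    exact absurd (hg.2 he) (not_le.2 h1)

namespace Sys

variable {L X : Type} [LinearOrder L] (D : Sys L X)

/-- the gap below `c` contains and captures one of the pairs `(e b, x b)` -/
def Gd (e : L → L) (x : L → X) (c : L) : Prop :=
  ∃ b, (∀ a ∈ D.A c, a < e b) ∧ D.h (x b) < c ∧ x b ∈ D.cap c ∧ D.mk' (e b) none 0 ∈ D.cap c

/-- every unbounded family of pairs is captured at arbitrarily late gaps of one chain -/
def Succ : Prop := ∀ (e : L → L) (x : L → X), (∀ b, b < e b) → (∀ b, e b ≤ D.h (x b)) →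
  ∃ d, ∀ n, ∃ c ∈ D.A d, n < D.tm c ∧ D.Gd e x c

variable {D} {adr : X → ℕ → Bool} [WellFoundedLT L]

theorem Succ.strong (hS : D.Succ) (e : L → L) (x : L → X) (h1 : ∀ b, b < e b)
    (h2 : ∀ b, e b ≤ D.h (x b)) : ∃ d, (∃ b, b < d) ∧
      ∀ b < d, ∀ n, ∃ c ∈ D.A d, b < c ∧ n < D.tm c ∧ D.Gd e x c := by
  obtain ⟨d, hd⟩ := hS e x h1 h2
  obtain ⟨u, hu, hmin⟩ := (wellFounded_lt (α := L)).has_min
    {u | ∀ n, ∃ c ∈ D.A d, c < u ∧ n < D.tm c ∧ D.Gd e x c}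
    ⟨d, fun n => (hd n).imp fun c hc => ⟨hc.1, D.A_lt _ _ hc.1, hc.2⟩⟩
  have hud : u ≤ d := not_lt.1
    (hmin d fun n => (hd n).imp fun c hc => ⟨hc.1, D.A_lt _ _ hc.1, hc.2⟩)
  have h0 : ∃ b, b < u := (hu 0).imp fun c hc => hc.2.1
  have key : ∀ b < u, ∀ n, ∃ c ∈ D.A d, c < u ∧ b < c ∧ n < D.tm c ∧ D.Gd e x c := by
    intro b hb n
    have h3 : ¬ ∀ n, ∃ c ∈ D.A d, c < b ∧ n < D.tm c ∧ D.Gd e x c := fun h => hmin b h hb
    push Not at h3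
    obtain ⟨n0, h3⟩ := h3
    obtain ⟨c, hc, hcu, hn, hG⟩ := hu (max n (max n0 (D.tm b)))
    refine ⟨c, hc, hcu, lt_of_le_of_ne (not_lt.1 fun h => h3 c hc h (by omega) hG) ?_, by omega, hG⟩
    rintro rfl
    omega
  refine ⟨u, h0, fun b hb n => ?_⟩
  obtain ⟨c, hc, hcu, h⟩ := key b hb n
  refine ⟨c, ?_, h⟩
  rcases hud.eq_or_lt with rfl | hud
  · exact hc
  · exact D.A_coh _ _ (acc_mem D.A_lt D.A_coh D.A_sub D.A_max hud h0 fun b hb =>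
      (key b hb 0).imp fun c hc => ⟨hc.1, hc.2.2.1, hc.2.1⟩) _ hc hcu

omit [WellFoundedLT L] in
theorem late_base {s : List Cmd} {M : ℕ} (hM : ∀ z x, D.Jm adr s z x → D.tm (D.h x) < M)
    {o : Option X} {m : ℕ} {c e : L} (hc : M < D.tm c) (he : D.ab o e) (hec : e < c)
    (hA : ∀ a ∈ D.A c, a < e) : ∀ z, D.Ba adr s z (D.mk' c o m) → D.h z < e := by
  intro z hz
  rcases hz with hz | hz
  · rcases B0_col (he.mono hec.le) hz with ⟨a, g1, -, rfl⟩ | hv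
    · rw [D.h_mk]; exact hA a g1
    · exact he z hv
  · have := hM _ _ hz
    rw [D.h_mk] at this
    omega

variable (hS : D.Succ) (hcl : ∀ (G : L → L) (b : L), ∃ e, b < e ∧ ∀ a < e, G a < e)
include hS hcl

theorem exists_cross {B : Set X} (hB : ∀ a, ∃ y ∈ B, a ≤ D.h y) (s : List Cmd) (G : L → L) :
    ∃ d, (∀ b < d, G b < d) ∧ (∃ b, b < d) ∧ ∃ y ∈ B, ∃ w, (w = y ∨ D.R adr s w y) ∧ d ≤ D.h w ∧
      (∀ z, D.Ba adr s z w → D.h z < d) ∧ ∃ b < D.h w, ∀ c ∈ D.A (D.h w), c ≤ b := by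
  choose e he1 he2 using hcl G
  obtain ⟨d, ⟨b0, hb0⟩, hd⟩ := hS.strong e (fun b => D.mk' (e b) none 0) he1
    fun b => (D.h_mk _ _ _).ge
  obtain ⟨y, hy, hdy⟩ := hB d
  obtain ⟨w, -, h1, h2, h3⟩ := exists_gap (adr := adr) (S := Set.univ)
    (fun _ _ _ _ => Set.subset_univ _) s ⟨_, Set.mem_univ _, D.h_mk d none 0⟩ (Set.mem_univ y) hdy
  obtain ⟨M, hM⟩ := exists_late (D := D) (adr := adr) s
  have two : ∀ b < d, ∃ c ∈ D.A d, M < D.tm c ∧ ∃ b', b < e b' ∧ e b' < c ∧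
      ∀ a ∈ D.A c, a < e b' := fun b hb => by
    obtain ⟨c1, g1, g2, -⟩ := hd b hb 0
    obtain ⟨c2, k1, k2, k3, b', k4, k5, -⟩ := hd c1 (D.A_lt _ _ g1) M
    rw [D.h_mk] at k5
    exact ⟨c2, k1, k3, b', g2.trans (k4 c1 (D.A_coh _ _ k1 _ g1 k2)), k5, k4⟩
  rcases h2.eq_or_lt with h2' | h2'
  · obtain ⟨a0, ha0, hp⟩ : ∃ a0 < d, ∀ v, D.par w = some v → D.h v ≤ a0 := by
      rcases hw : D.par w with _ | v
      · exact ⟨b0, hb0, fun v hv => by cases hv⟩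
      · exact ⟨D.h v, h2' ▸ D.par_lt _ _ hw, fun v' hv => Option.some.inj hv ▸ le_rfl⟩
    obtain ⟨c, g1, g2, b', g3, g4, g5⟩ := two a0 ha0
    have hab : D.ab (D.par w) (e b') := fun v hv => (hp v hv).trans_lt g3
    have hB0 : D.B0 (D.mk' c (D.par w) (D.tag w)) w :=
      Or.inr ⟨c, h2' ▸ g1, hab.mono g4.le, rfl⟩
    refine ⟨e b', he2 b', ⟨a0, g3⟩, y, hy, _, Or.inr (lt_le' hB0.R h1), ?_,
      late_base hM g2 hab g4 g5, e b', ?_, ?_⟩
    · rw [D.h_mk]; exact g4.le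
    · rw [D.h_mk]; exact g4
    · rw [D.h_mk]; exact fun a ha => (g5 a ha).le
  · refine ⟨d, fun b hb => ?_, ⟨b0, hb0⟩, y, hy, w, h1, h2, h3, d, h2',
      fun c hc => (A_bound h3 c hc).le⟩
    obtain ⟨c, g1, -, b', g3, g4, -⟩ := two b hb
    exact ((he2 b' b g3).trans g4).trans (D.A_lt _ _ g1)

variable (hLc : ∀ Z : Set L, Z.Countable → ∃ b, ∀ z ∈ Z, z < b)
  (hX : ∀ (f : X → L) (a : L), ∃ b, ∀ x, D.h x < a → f x < b)
include hLc hX

omit [WellFoundedLT L] hS hcl in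
theorem bound_nodes (f : Option X → ℕ × ℕ × ℕ × ℕ → L) (a : L) :
    ∃ b, a < b ∧ ∀ o, D.ab o a → ∀ i, f o i < b := by
  choose g hg using fun o => hLc _ (Set.countable_range (f o))
  obtain ⟨b, hb⟩ := hX (fun x => g (some x)) a
  obtain ⟨b', hb'⟩ := hLc {a, b, g none} (Set.toFinite _).countable
  refine ⟨b', hb' a (by simp), fun o ho i => (hg o _ ⟨i, rfl⟩).trans ?_⟩
  rcases o with _ | x
  · exact hb' _ (by simp)
  · exact (hb x (ho x rfl)).trans (hb' b (by simp))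

theorem separate {B : Set X} (hB : ∀ a, ∃ y ∈ B, a ≤ D.h y) (s : List Cmd) :
    ∃ (o : Option X) (m : ℕ) (s1 : List Cmd), s <:+ s1 ∧
      (∀ a, D.ab o a → ∀ z, ¬ D.Jm adr s1 z (D.mk' a o m)) ∧
      ∀ b, ∃ e, b < e ∧ D.ab o e ∧ ∃ y ∈ B, D.tag y ≠ m ∧ D.R adr s1 (D.mk' e o m) y := by
  obtain ⟨M, hM⟩ := exists_fresh (D := D) (adr := adr) s
  by_contra hc
  push Not at hc
  choose f hf using fun (o : Option X) (i : ℕ × ℕ × ℕ × ℕ) =>
    hc o (M + i.1 + i.2.1 + 1) ((i.1, [], true, i.2.2) :: s) (List.suffix_cons _ _)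
      fun a ha z => no_jump hM (by omega) (by simp only; omega) ha z
  choose G hG1 hG2 using bound_nodes (D := D) hLc hX f
  obtain ⟨d, hd2, ⟨b0, hb0⟩, y, hy, w, h1, h2, h3, b, hb, hA⟩ :=
    exists_cross (adr := adr) hS hcl hB s G
  obtain ⟨o, g1, g2⟩ := exists_top (adr := adr) s hb hA
  obtain ⟨a, had, ha⟩ : ∃ a < d, D.ab o a := by
    rcases o with _ | v
    · exact ⟨b0, hb0, fun v hv => by cases hv⟩
    · exact ⟨G (D.h v), hd2 _ (h3 v (g1 v rfl).1), fun v' hv => Option.some.inj hv ▸ hG1 _⟩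
  obtain ⟨e, he, hae⟩ := D.lad_cof _ b hb hA (G a) ((hd2 a had).trans_le h2)
  have he' : D.ab o e := ha.mono ((hG1 a).le.trans hae)
  obtain ⟨i, hi⟩ := D.en_surj ((D.N_closed w).mk_mem ((D.N_closed w).lev_lad (D.self_mem_N w) he)
    (fun v hv => (g1 v hv).2) (M + D.tag w + D.tag y + 1))
  have hR := jump_dir (adr := adr) (s := s) (by rw [D.h_mk]; exact D.lad_lt _ _ he) (fun z hz => by
    obtain ⟨v, hv, g⟩ := g2 z hz
    exact le_trans' g (root_R he' hv)) hi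
  exact hf o (D.tag w, D.tag y, i, D.tm (D.h w)) e ((hG2 a o ha _).trans_le hae) he' y hy
    (by simp only; omega) (lt_le' hR (le_mono' h1 (List.suffix_cons _ _)))

variable (hrk : ∀ w, ∀ u ∈ D.N w, D.h u < D.h w → adr u ≠ adr w)
include hrk

theorem exists_incomp {B : Set X} (hB : ∀ a, ∃ y ∈ B, a ≤ D.h y) (s : List Cmd) :
    ∃ s', s <:+ s' ∧ ∃ x ∈ B, ∃ y ∈ B, x ≠ y ∧
      ∀ r, s' <:+ r → ¬ D.R adr r x y ∧ ¬ D.R adr r y x := by
  obtain ⟨o, m, s1, h1, h2, h3⟩ := separate (adr := adr) hS hcl hLc hX hB s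
  obtain ⟨d, -⟩ := hLc ∅ Set.countable_empty
  obtain ⟨e, -, he, x, hx, hxm, hex⟩ := h3 d
  obtain ⟨e', hxe', -, y, hy, -, hey⟩ := h3 (D.h x)
  have hx' : D.ab o (D.h x) := he.mono (by simpa only [D.h_mk] using hex.lt.le)
  obtain ⟨s2, g1, g2, -⟩ := merge' hrk (s := s1) (fun a ha z hz => absurd hz (h2 a ha z)) hx'
    hxe'.le
  have g3 := le_trans' g2 (hey.mono g1)
  have hlt : D.h x < D.h y := by simpa only [D.h_mk] using g3.lt
  refine ⟨s2, h1.trans g1, x, hx, y, hy, fun h => hlt.ne (h ▸ rfl), fun r hr =>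
    ⟨fun h => hxm ?_, fun h => lt_asymm hlt h.lt⟩⟩
  rw [h.unique (g3.mono hr) (D.h_mk _ _ _).symm, D.tag_mk _ _ _ hx']

theorem exists_comp {B : Set X} (hB : ∀ a, ∃ y ∈ B, a ≤ D.h y) (s : List Cmd) :
    ∃ s', s <:+ s' ∧ ∃ x ∈ B, ∃ y ∈ B, D.R adr s' x y := by
  obtain ⟨o, m, s1, h1, h2, h3⟩ := separate (adr := adr) hS hcl hLc hX hB s
  choose e he1 he2 y hy1 _ hy2 using h3
  have hey : ∀ a, e a < D.h (y a) := fun a => by simpa only [D.h_mk] using (hy2 a).lt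
  obtain ⟨d, hd⟩ := hS e y he1 fun b => (hey b).le
  have hdo : D.ab o d := by
    obtain ⟨c, hc, -, b, -, g, -⟩ := hd 0
    exact (he2 b).mono (((hey b).trans g).trans (D.A_lt _ _ hc)).le
  obtain ⟨s2, g1, g2, hI⟩ := merge' hrk (s := s1) (fun a ha z hz => absurd hz (h2 a ha z)) hdo
    (he1 d).le
  obtain ⟨M, hM⟩ := exists_late (D := D) (adr := adr) s2
  obtain ⟨c, hc, hMc, b, k1, k2, k3, k4⟩ := hd M
  have hec : e b < c := (hey b).trans k2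
  have hco : D.ab o c := (he2 b).mono hec.le
  have hsub := (D.N_closed (D.mk' c o m)).cap_sub (D.self_mem_N _)
  rw [D.h_mk] at hsub
  obtain ⟨s3, q1, -, -, q2⟩ := prep hrk (merge hrk (e b)) hco hec (he2 b)
    ⟨_, hsub k4, D.h_mk _ _ _⟩ hI (late_base hM hMc (he2 b) hec k1) [] (by simp)
  obtain ⟨i, hi⟩ := D.en_surj (hsub k3)
  have hR := jump_dir (adr := adr) (s := s3) (by rw [D.h_mk]; exact k2)
    (fun z hz => (q2 z hz).trans ((hy2 b).mono (g1.trans q1))) hi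
  have q3 := q1.trans (List.suffix_cons
    (D.tag (D.mk' c o m), [], true, i, D.tm (D.h (D.mk' c o m))) s3)
  exact ⟨_, (h1.trans g1).trans q3, y b, hy1 b, y d, hy1 d, (hR.trans (B0_chain hc hco).R).trans
    (le_trans' (le_mono' g2 q3) ((hy2 d).mono (g1.trans q3)))⟩

end Sys

end Pool.Agent.Lib.MP_40ade9_lc.K
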