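import Pool.Agent.Lib.MP_40ade9_lc.JSq
import Pool.Agent.Lib.MP_40ade9_lc.KRoute

/-! Coherent systems of closed chains: from a square sequence, cutting, and thinning along
labels. -/

set_option autoImplicit false

namespace Pool.Agent.Lib.MP_40ade9_lc.K

open Set

/-- `a` has uncountable cofinality -/
def Unc {L : Type} [LinearOrder L] (a : L) : Prop :=
  ∀ Z : Set L, Z.Countable → (∀ c ∈ Z, c < a) → ∃ e < a, ∀ c ∈ Z, c < e

/-- A coherent system of closed chains. -/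
structure Ch (L : Type) [LinearOrder L] where
  A : L → Set L
  lt : ∀ a, ∀ c ∈ A a, c < a
  coh : ∀ a, ∀ c ∈ A a, ∀ e ∈ A a, e < c → e ∈ A c
  sub : ∀ a, ∀ c ∈ A a, ∀ e ∈ A c, e ∈ A a
  max : ∀ a b, b < a → (∀ c ∈ A a, c ≤ b) → (A a).Nonempty → ∃ c, IsGreatest (A a) c
  unb : ∀ a, Unc a → ∀ b < a, ∃ c ∈ A a, b < c

/-- there is no unbounded chain -/
def Ch.NoThread {L : Type} [LinearOrder L] (C : Ch L) : Prop :=
  ∀ S : Set L, (∀ s ∈ S, ∀ t ∈ S, s < t → s ∈ C.A t) → ∃ b, ∀ s ∈ S, s ≤ b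

variable {L W : Type} [LinearOrder L] [WellFoundedLT L] [LinearOrder W]

theorem Ch.acc (C : Ch L) {a u : L} (hu : u < a) (h0 : ∃ b, b < u)
    (h : ∀ b < u, ∃ c ∈ C.A a, b < c ∧ c < u) : u ∈ C.A a :=
  acc_mem C.lt C.coh C.sub C.max hu h0 h

omit [WellFoundedLT L] in
theorem Ch.lad (C : Ch L) : ∃ lad : L → Set L, (∀ a, ∀ c ∈ lad a, c < a) ∧
    (∀ a, (lad a).Countable) ∧
    ∀ a b, b < a → (∀ c ∈ C.A a, c ≤ b) → ∀ e < a, ∃ c ∈ lad a, e ≤ c := by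
  have hlad : ∀ a : L, ∃ Z : Set L, Z.Countable ∧ (∀ c ∈ Z, c < a) ∧
      ((∀ e < a, ∃ c ∈ Z, e ≤ c) ∨ Unc a) := by
    intro a
    by_cases h : Unc a
    · exact ⟨∅, Set.countable_empty, by simp, Or.inr h⟩
    · unfold Unc at h
      push Not at h
      obtain ⟨Z, h1, h2, h3⟩ := h
      exact ⟨Z, h1, h2, Or.inl h3⟩
  choose lad hl1 hl2 hl3 using hlad
  refine ⟨lad, hl2, hl1, fun a b hb h => (hl3 a).resolve_right fun hn => ?_⟩
  obtain ⟨c, hc, hbc⟩ := C.unb a hn b hb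
  exact absurd (h c hc) (not_le.2 hbc)

/-- least upper bounds -/
theorem exists_lub {S : Set L} {b : L} (hb : ∀ c ∈ S, c ≤ b) : ∃ d ≤ b, (∀ c ∈ S, c ≤ d) ∧
    (d ∉ S → ∀ e < d, ∃ c ∈ S, e < c ∧ c < d) := by
  obtain ⟨d, hd, hmin⟩ := (wellFounded_lt (α := L)).has_min {u | ∀ c ∈ S, c ≤ u} ⟨b, hb⟩
  refine ⟨d, not_lt.1 (hmin b hb), hd, fun hn e he => ?_⟩
  by_contra hc
  push Not at hc
  exact hmin e (fun c hc' => not_lt.1 fun h =>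
    absurd (hc c hc' h) (not_le.2 ((hd c hc').lt_of_ne fun e => hn (e ▸ hc')))) he

theorem ch_of_square {κ : Ordinal.{0}} {lv : L → Ordinal.{0}} (hlv : StrictMono lv)
    (hr : ∀ ξ, ξ < κ ↔ ∃ a, lv a = ξ) (hsq : Square κ) : ∃ C : Ch L, C.NoThread := by
  obtain ⟨C, hC1, hC2, hC3⟩ := hsq
  have hlt : ∀ a, lv a < κ := fun a => (hr _).2 ⟨a, rfl⟩
  have hin : ∀ {a ξ}, ξ < lv a → ∃ b < a, lv b = ξ := fun {a ξ} h => by
    obtain ⟨b, rfl⟩ := (hr ξ).1 (h.trans (hlt a))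
    exact ⟨b, hlv.lt_iff_lt.1 h, rfl⟩
  let Ac : L → L → Prop := fun a c =>
    Order.IsSuccLimit (lv a) ∧ c < a ∧ IsAccPt (C (lv a)) (lv c)
  have F1 : ∀ {a c}, Ac a c → C (lv c) = C (lv a) ∩ Iio (lv c) := fun {a c} h =>
    hC2 _ (hlt a) h.1 _ (hlv h.2.1) h.2.2
  have F2 : ∀ {a c e}, Ac a c → Ac a e → e < c → Ac c e := fun {a c e} h h' hec =>
    ⟨h.2.2.isSuccLimit, hec, h'.2.2.1, fun ξ hξ => (h'.2.2.2 ξ hξ).imp fun γ hγ =>
      ⟨F1 h ▸ ⟨hγ.1, hγ.2.2.trans (hlv hec)⟩, hγ.2⟩⟩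
  have F3 : ∀ {a c e}, Ac a c → Ac c e → Ac a e := fun {a c e} h h' =>
    ⟨h.1, h'.2.1.trans h.2.1, h'.2.2.1, fun ξ hξ => (h'.2.2.2 ξ hξ).imp fun γ hγ =>
      ⟨(F1 h ▸ hγ.1 : γ ∈ C (lv a) ∩ Iio (lv c)).1, hγ.2⟩⟩
  have F4 : ∀ {a c}, Ac a c → lv c ∈ C (lv a) := fun {a c} h =>
    (hC1 _ (hlt a) h.1).2.2 _ (hlv h.2.1) h.2.2
  refine ⟨⟨fun a => {c | Ac a c}, fun a c hc => hc.2.1, fun a c hc e he hec => F2 hc he hec,
    fun a c hc e he => F3 hc he, fun a b hb h ⟨c0, hc0⟩ => ?_, fun a hn b hb => ?_⟩,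
    fun S hS => ?_⟩
  · obtain ⟨d, hdb, h1, h2⟩ := exists_lub h
    refine ⟨d, ?_, h1⟩
    by_contra hn
    have h3 : c0 < d := (h1 c0 hc0).lt_of_ne fun e => hn (e ▸ hc0)
    refine hn ⟨hc0.1, hdb.trans_lt hb, zero_le.trans_lt (hlv h3), fun ξ hξ => ?_⟩
    obtain ⟨b', hb', rfl⟩ := hin hξ
    obtain ⟨c, g1, g2, g3⟩ := h2 hn b' hb'
    exact ⟨_, F4 g1, hlv g2, hlv g3⟩
  · have ha : Order.IsSuccLimit (lv a) := by
      rw [Ordinal.isSuccLimit_iff]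
      refine ⟨(zero_le.trans_lt (hlv hb)).ne', Order.isSuccPrelimit_iff_succ_lt.2 fun ξ hξ => ?_⟩
      obtain ⟨c, hc, rfl⟩ := hin hξ
      obtain ⟨e, he, h'⟩ := hn {c} (Set.countable_singleton c) (by simpa using hc)
      exact (Order.succ_le_of_lt (hlv (h' c rfl))).trans_lt (hlv he)
    have hclub := hC1 _ (hlt a) ha
    have hG : ∀ x, ∃ y, x < a → (x < y ∧ y < a) ∧ lv y ∈ C (lv a) := fun x => by
      by_cases hx : x < a
      · obtain ⟨γ, h1, h2⟩ := hclub.2.1 _ (hlv hx)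
        obtain ⟨y, hy, rfl⟩ := hin (hclub.1 h1)
        exact ⟨y, fun _ => ⟨⟨hlv.lt_iff_lt.1 h2, hy⟩, h1⟩⟩
      · exact ⟨x, fun h => absurd h hx⟩
    choose G hG using hG
    obtain ⟨u, d, h1, h2, h3, h4, h5⟩ := J.exists_lim (fun x => x < a)
      (fun _ _ h h' => h.trans_lt h')
      (fun f hf => (hn _ (Set.countable_range f) (by rintro _ ⟨n, rfl⟩; exact hf n)).imp
        fun b hb => ⟨hb.1, fun n => hb.2 _ ⟨n, rfl⟩⟩) G (fun x hx => (hG x hx).1) hb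
    refine ⟨d, ⟨ha, h1, zero_le.trans_lt (hlv (h4 0)), fun ξ hξ => ?_⟩, h2 ▸ h4 0⟩
    obtain ⟨b', hb', rfl⟩ := hin hξ
    obtain ⟨n, hn⟩ := h5 b' hb'
    have := hG (u n) ((h4 n).trans h1)
    exact ⟨_, this.2, hlv (hn.trans this.1.1), hlv (h3 n ▸ h4 (n + 1))⟩
  · by_contra hc
    push Not at hc
    have hlim : ∀ s ∈ S, Order.IsSuccLimit (lv s) := fun s hs => by
      obtain ⟨t, ht, hst⟩ := hc s
      exact (hS s hs t ht hst : Ac t s).2.2.isSuccLimit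
    have hD : ∀ s ∈ S, {γ | ∃ t ∈ S, γ ∈ C (lv t)} ∩ Iio (lv s) = C (lv s) := fun s hs => by
      refine Set.Subset.antisymm ?_ fun γ hγ => ⟨⟨s, hs, hγ⟩, (hC1 _ (hlt s) (hlim s hs)).1 hγ⟩
      rintro γ ⟨⟨t, ht, h1⟩, h2⟩
      rcases lt_trichotomy s t with g | rfl | g
      · rw [F1 (hS s hs t ht g)]; exact ⟨h1, h2⟩
      · exact h1
      · rw [F1 (hS t ht s hs g)] at h1; exact h1.1
    have hup : ∀ α < κ, ∃ s ∈ S, α < lv s := fun α hα => by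
      obtain ⟨b, rfl⟩ := (hr α).1 hα
      exact (hc b).imp fun s hs => ⟨hs.1, hlv hs.2⟩
    have hacc : ∀ s ∈ S, ∀ α < lv s, IsAccPt {γ | ∃ t ∈ S, γ ∈ C (lv t)} α →
        IsAccPt (C (lv s)) α := fun s hs α hα h => ⟨h.1, fun ξ hξ => (h.2 ξ hξ).imp fun γ hγ =>
      ⟨hD s hs ▸ ⟨hγ.1, hγ.2.2.trans hα⟩, hγ.2⟩⟩
    refine hC3 ⟨{γ | ∃ t ∈ S, γ ∈ C (lv t)}, ⟨?_, fun ξ hξ => ?_, fun β hβ h => ?_⟩,
      fun α hα h => ?_⟩
    · rintro γ ⟨t, ht, h⟩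
      exact lt_trans ((hC1 _ (hlt t) (hlim t ht)).1 h) (hlt t)
    · obtain ⟨s, hs, h⟩ := hup ξ hξ
      obtain ⟨γ, h1, h2⟩ := (hC1 _ (hlt s) (hlim s hs)).2.1 ξ h
      exact ⟨γ, ⟨s, hs, h1⟩, h2⟩
    · obtain ⟨s, hs, h'⟩ := hup β hβ
      exact ⟨s, hs, (hC1 _ (hlt s) (hlim s hs)).2.2 β h' (hacc s hs β h' h)⟩
    · obtain ⟨s, hs, h'⟩ := hup α hα
      rw [hC2 _ (hlt s) (hlim s hs) α h' (hacc s hs α h' h), ← hD s hs, Set.inter_assoc,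
        Set.Iio_inter_Iio, min_eq_right h'.le]

theorem exists_closed_pt (hLc : ∀ Z : Set L, Z.Countable → ∃ b, ∀ z ∈ Z, z < b)
    (hreg : ∀ (f : L → L) (a : L), ∃ b, a < b ∧ ∀ c ≤ a, f c < b) (G : L → L) (b : L) :
    ∃ (a : ℕ → L) (e : L), b < e ∧ (∀ a < e, G a < e) ∧ (∀ n, a n < e) ∧
      ∀ c < e, ∃ n, c < a n := by
  choose G2 hG2 hG3 using hreg G
  obtain ⟨a, d, -, h1, h2, h3, h4⟩ := J.exists_lim (fun _ => True) (fun _ _ _ _ => trivial)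
    (fun f _ => (hLc _ (Set.countable_range f)).imp fun b hb => ⟨trivial, fun n => hb _ ⟨n, rfl⟩⟩)
    G2 (fun x _ => ⟨hG2 x, trivial⟩) (x := b) trivial
  refine ⟨a, d, h1 ▸ h3 0, fun c hc => ?_, h3, h4⟩
  obtain ⟨n, hn⟩ := h4 c hc
  exact (hG3 _ c hn.le).trans (h2 n ▸ h3 (n + 1))

/-- A system with countable initial segments has positions and, after cutting, a stationary set
of empty chains. -/
theorem Ch.cut [Nonempty L] (C : Ch L) (hW1 : ∀ w : W, (Iic w).Countable)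
    (hWc : ∀ Z : Set W, Z.Countable → ∃ b, ∀ z ∈ Z, z < b)
    (hLc : ∀ Z : Set L, Z.Countable → ∃ b, ∀ z ∈ Z, z < b)
    (hLW : ∀ f : W → L, ∃ b, ∀ i, f i < b)
    (hreg : ∀ (f : L → L) (a : L), ∃ b, a < b ∧ ∀ c ≤ a, f c < b)
    (F5 : ∀ a b, b < a → {c | c ∈ C.A a ∧ c < b}.Countable) :
    ∃ (C' : Ch L) (pos : L → W), (∀ a ν, {c | c ∈ C'.A a ∧ pos c ≤ ν}.Countable) ∧
      ∀ G : L → L, ∃ d, C'.A d = ∅ ∧ (∀ b < d, G b < d) ∧ ∃ b, b < d := by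
  have key : ∀ (b : L) (G : ∀ a, a < b → W), ∃ w, (C.A b).Countable →
      ∀ a (h : a < b), a ∈ C.A b → G a h < w := by
    intro b G
    by_cases hc : (C.A b).Countable
    · obtain ⟨w, hw⟩ := hWc _ ((hc.preimage (f := fun a : Iio b => a.1) Subtype.val_injective).image
        fun a => G a.1 a.2)
      exact ⟨w, fun _ a h hj => hw _ ⟨⟨a, h⟩, hj, rfl⟩⟩
    · exact (hWc ∅ Set.countable_empty).imp fun w _ h => absurd h hc
  choose nx hnx using key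
  let pos : L → W := (wellFounded_lt (α := L)).fix nx
  have hpos : ∀ {a c e}, c ∈ C.A a → e ∈ C.A a → e < c → pos e < pos c := fun {a c e} h h' hec => by
    have h1 : pos c = nx c fun a _ => pos a := WellFounded.fix_eq _ _ _
    refine h1 ▸ hnx c (fun a _ => pos a) ((F5 a c (C.lt _ _ h)).mono ?_) e hec (C.coh _ _ h _ h' hec)
    exact fun u hu => ⟨C.sub _ _ h _ hu, C.lt _ _ hu⟩
  have hct : ∀ a ν, {c | c ∈ C.A a ∧ pos c ≤ ν}.Countable := fun a ν =>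
    Set.MapsTo.countable_of_injOn (f := pos) (fun c hc => hc.2) (fun c hc e he h => by
      rcases lt_trichotomy c e with g | g | g
      · exact absurd h (hpos he.1 hc.1 g).ne
      · exact g
      · exact absurd h (hpos hc.1 he.1 g).ne') (hW1 ν)
  obtain ⟨τ, hτ⟩ : ∃ τ, ∀ G : L → L, ∃ d, (∀ c ∈ C.A d, pos c ≤ τ) ∧ (∀ b < d, G b < d) ∧
      ∃ b, b < d := by
    by_contra hc
    push Not at hc
    choose G hG using hc
    choose G1 hG1 using fun b => hLW fun τ => G τ b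
    obtain ⟨a, d, h1, h2, h3, h4⟩ := exists_closed_pt hLc hreg G1 (Classical.arbitrary L)
    obtain ⟨τ, hτ⟩ := hWc _ (((Set.countable_iUnion fun n => F5 d (a n) (h3 n)).mono
      (s₁ := C.A d) fun c hc => (h4 c (C.lt _ _ hc)).elim fun n hn =>
        Set.mem_iUnion.2 ⟨n, And.intro hc hn⟩).image pos)
    exact absurd (hG τ d (fun c hc => (hτ _ ⟨c, hc, rfl⟩).le)
      (fun b hb => (hG1 b τ).trans (h2 b hb)) _) (not_le.2 h1)
  refine ⟨⟨fun a => {c | c ∈ C.A a ∧ τ < pos c}, fun a c hc => C.lt _ _ hc.1,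
    fun a c hc e he hec => ⟨C.coh _ _ hc.1 _ he.1 hec, he.2⟩,
    fun a c hc e he => ⟨C.sub _ _ hc.1 _ he.1, he.2⟩, fun a b hb h ⟨c0, hc0⟩ => ?_,
    fun a hn b hb => ?_⟩, pos, fun a ν => (hct a ν).mono fun c hc => And.intro hc.1.1 hc.2,
    fun G => (hτ G).imp fun d hd => ⟨Set.eq_empty_of_forall_notMem fun c hc =>
      absurd (hd.1 c hc.1) (not_le.2 hc.2), hd.2⟩⟩
  · obtain ⟨d, hdb, h1, h2⟩ := exists_lub h
    refine ⟨d, ?_, h1⟩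
    by_contra hn
    have h3 : c0 < d := (h1 c0 hc0).lt_of_ne fun e => hn (e ▸ hc0)
    have hd : d ∈ C.A a := C.acc (hdb.trans_lt hb) ⟨c0, h3⟩ fun e he =>
      (h2 hn e he).imp fun c hc => ⟨hc.1.1, hc.2⟩
    exact hn ⟨hd, hc0.2.trans (hpos hd hc0.1 h3)⟩
  · obtain ⟨e0, he0, h0⟩ := hn (insert b {c | c ∈ C.A a ∧ pos c ≤ τ}) ((hct a τ).insert b) (by
      rintro c (rfl | hc)
      · exact hb
      · exact C.lt _ _ hc.1)
    obtain ⟨c, hc, hec⟩ := C.unb a hn e0 he0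
    exact ⟨c, ⟨hc, not_le.1 fun h => lt_asymm hec (h0 c (Or.inr ⟨hc, h⟩))⟩,
      (h0 b (Or.inl rfl)).trans hec⟩

/-- enumeration of an unbounded set -/
theorem exists_enum (hreg : ∀ (f : L → L) (a : L), ∃ b, a < b ∧ ∀ c ≤ a, f c < b) {E : Set L}
    (hE : ∀ b, ∃ e ∈ E, b < e) : ∃ φ : L → L, StrictMono φ ∧ Set.range φ = E := by
  classical
  have key : ∀ (i : L) (f : ∀ k, k < i → L), ∃ e, (e ∈ E ∧ ∀ k h, f k h < e) ∧
      ∀ e', (e' ∈ E ∧ ∀ k h, f k h < e') → ¬ e' < e := fun i f => by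
    obtain ⟨b, -, hb⟩ := hreg (fun k => if h : k < i then f k h else k) i
    obtain ⟨e, he, hbe⟩ := hE b
    exact (wellFounded_lt (α := L)).has_min {e | e ∈ E ∧ ∀ k h, f k h < e}
      ⟨e, he, fun k h => lt_trans (by simpa only [dif_pos h] using hb k h.le) hbe⟩
  choose nx h1 h2 using key
  let φ : L → L := (wellFounded_lt (α := L)).fix nx
  have hφ : ∀ i, φ i = nx i fun k _ => φ k := fun i => WellFounded.fix_eq _ _ _
  have hm : StrictMono φ := fun k i h => hφ i ▸ (h1 i fun k _ => φ k).2 k h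
  refine ⟨φ, hm, Set.Subset.antisymm ?_ fun a ha => ?_⟩
  · rintro _ ⟨i, rfl⟩
    exact hφ i ▸ (h1 i fun k _ => φ k).1
  · obtain ⟨i, hi, hmin⟩ := (wellFounded_lt (α := L)).has_min {i | a ≤ φ i} ⟨a, hm.le_apply⟩
    refine ⟨i, le_antisymm ?_ hi⟩
    rw [hφ i]
    exact not_lt.1 (h2 i _ a ⟨ha, fun k h => not_le.1 fun h' => hmin k h' h⟩)

end Pool.Agent.Lib.MP_40ade9_lc.K
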