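import Pool.Agent.Lib.MP_40ade9_lc.JForce
import Pool.Agent.Lib.MP_40ade9_lc.KRoute

/-! Time-stamped commands are read off the Cohen real. -/

set_option autoImplicit false

namespace Pool.Agent.Lib.MP_40ade9_lc.K

open J (TR Dec exists_full)

/-- the tree name has comparable and incomparable pairs in every unbounded set -/
def Good {L X : Type} [LinearOrder L] (T : TR L X Cohen) : Prop :=
  (∀ (p : Cohen) (B : Set X), (∀ a, ∃ y ∈ B, a ≤ T.h y) →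
    ∃ q ≤ p, ∃ x ∈ B, ∃ y ∈ B, T.R q x y) ∧
  (∀ (p : Cohen) (B : Set X), (∀ a, ∃ y ∈ B, a ≤ T.h y) →
    ∃ q ≤ p, ∃ x ∈ B, ∃ y ∈ B, x ≠ y ∧ ∀ r ≤ q, ¬ T.R r x y ∧ ¬ T.R r y x)

theorem exists_adr {L W X : Type} [LinearOrder L] [LinearOrder W] [WellFoundedLT L] (D : Sys L X)
    (hWc : ∀ Z : Set W, Z.Countable → ∃ b, ∀ z ∈ Z, z < b) (j : W ↪ (ℕ → Bool)) :
    ∃ adr : X → ℕ → Bool, ∀ w, ∀ u ∈ D.N w, D.h u < D.h w → adr u ≠ adr w := by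
  have key : ∀ (w : X) (G : ∀ u, D.h u < D.h w → W), ∃ b, ∀ u (h : D.h u < D.h w), u ∈ D.N w →
      G u h < b := by
    intro w G
    have hc : {a : {u // D.h u < D.h w} | a.1 ∈ D.N w}.Countable :=
      (D.N_ct w).preimage Subtype.val_injective
    obtain ⟨b, hb⟩ := hWc _ (hc.image fun a => G a.1 a.2)
    exact ⟨b, fun a h hj => hb _ ⟨⟨a, h⟩, hj, rfl⟩⟩
  choose nx hnx using key
  let rk : X → W := (InvImage.wf D.h (wellFounded_lt (α := L))).fix fun w ih => nx w ih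
  refine ⟨fun x => j (rk x), fun w u hu h e => ?_⟩
  have h1 : rk w = nx w (fun a _ => rk a) := WellFounded.fix_eq _ _ _
  exact (h1 ▸ hnx w (fun a _ => rk a) u h hu).ne (j.injective e)

theorem exists_TR {L X : Type} [LinearOrder L] [WellFoundedLT L] (D : Sys L X)
    (adr : X → ℕ → Bool) (hrk : ∀ w, ∀ u ∈ D.N w, D.h u < D.h w → adr u ≠ adr w)
    (hS : D.Succ) (hcl : ∀ (G : L → L) (b : L), ∃ e, b < e ∧ ∀ a < e, G a < e)
    (hLc : ∀ Z : Set L, Z.Countable → ∃ b, ∀ z ∈ Z, z < b)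
    (hX : ∀ (f : X → L) (a : L), ∃ b, ∀ x, D.h x < a → f x < b) :
    ∃ T : TR L X Cohen, T.h = D.h ∧ Good T := by
  obtain ⟨dc, hdc⟩ := exists_surjective_nat Sys.Cmd
  have two : ∀ {p s s' u y u' y'}, Dec dc p s → Dec dc p s' → D.R adr s u y → D.R adr s' u' y' →
      ∃ t, Dec dc p t ∧ D.R adr t u y ∧ D.R adr t u' y' := fun h h' g g' =>
    (h.cmp h').elim (fun e => ⟨_, h', g.mono e, g'⟩) fun e => ⟨_, h, g, g'.mono e⟩
  refine ⟨⟨D.h, fun p u y => ∃ s, Dec dc p s ∧ D.R adr s u y, ?_, ?_, ?_, ?_, ?_⟩, rfl, ?_, ?_⟩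
  · rintro p q u y ⟨s, h1, h2⟩ hq
    exact ⟨s, h1.mono hq, h2⟩
  · rintro p u y ⟨s, -, h2⟩
    exact h2.lt
  · rintro p u v y ⟨s, h1, h2⟩ ⟨s', h1', h2'⟩
    obtain ⟨t, g1, g2, g3⟩ := two h1 h1' h2 h2'
    exact ⟨t, g1, g2.trans g3⟩
  · rintro p u u' y ⟨s, h1, h2⟩ ⟨s', h1', h2'⟩ e
    obtain ⟨t, -, g2, g3⟩ := two h1 h1' h2 h2'
    exact g2.unique g3 e
  · intro y b hb p
    obtain ⟨s, hs⟩ := exists_full hdc p
    obtain ⟨s', h1, u, h2, h3⟩ := Sys.pred_dense hrk y hb s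
    obtain ⟨q, hq, h4⟩ := hs s' h1
    exact ⟨q, hq, u, h2, s', h4, h3⟩
  · intro p B hB
    obtain ⟨s, hs⟩ := exists_full hdc p
    obtain ⟨s', h1, x, hx, y, hy, h3⟩ := Sys.exists_comp hS hcl hLc hX hrk hB s
    obtain ⟨q, hq, h4⟩ := hs s' h1
    exact ⟨q, hq, x, hx, y, hy, s', h4, h3⟩
  · intro p B hB
    obtain ⟨s, hs⟩ := exists_full hdc p
    obtain ⟨s', h1, x, hx, y, hy, hne, h3⟩ := Sys.exists_incomp hS hcl hLc hX hrk hB s
    obtain ⟨q, hq, h4⟩ := hs s' h1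
    have key : ∀ r ≤ q, ∀ u v, (∃ s, Dec dc r s ∧ D.R adr s u v) →
        ∃ t, s' <:+ t ∧ D.R adr t u v := fun r hr u v ⟨t, g1, g2⟩ =>
      ((h4.mono hr).cmp g1).elim (fun e => ⟨t, e, g2⟩) fun e => ⟨s', List.suffix_rfl, g2.mono e⟩
    exact ⟨q, hq, x, hx, y, hy, hne, fun r hr =>
      ⟨fun h => (key r hr _ _ h).elim fun t ht => (h3 t ht.1).1 ht.2,
        fun h => (key r hr _ _ h).elim fun t ht => (h3 t ht.1).2 ht.2⟩⟩

end Pool.Agent.Lib.MP_40ade9_lc.K
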