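import Pool.Agent.Lib.MP_40ade9_lc.BaireDefs
import Pool.Agent.Lib.MP_40ade9_lc.KCh
import Pool.Agent.Lib.MP_40ade9_lc.KForce

/-! A square sequence with a Baire perfect part gives a Souslin tree after one Cohen real. -/

set_option autoImplicit false

namespace Pool.Agent.Lib.MP_40ade9_lc.K

open Set

section

variable {L : Type} [LinearOrder L] [WellFoundedLT L]

theorem ch_of_seq {κ : Ordinal.{0}} {lv : L → Ordinal.{0}} (hlv : StrictMono lv)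
    (hr : ∀ ξ, ξ < κ ↔ ∃ a, lv a = ξ) {C : Ordinal.{0} → Set Ordinal.{0}}
    (hC1 : ∀ α < κ, Order.IsSuccLimit α → IsClubIn (C α) α)
    (hC2 : ∀ α < κ, Order.IsSuccLimit α → ∀ β < α, IsAccPt (C α) β → C β = C α ∩ Set.Iio β)
    (hC3 : ¬ ∃ D, IsClubIn D κ ∧ ∀ α < κ, IsAccPt D α → D ∩ Set.Iio α = C α) :
    ∃ C' : Ch L, (∀ a c, c ∈ C'.A a ↔ Below C (lv c) (lv a)) ∧ C'.NoThread := by
  have hlt : ∀ a, lv a < κ := fun a => (hr _).2 ⟨a, rfl⟩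
  have hin : ∀ {a ξ}, ξ < lv a → ∃ b < a, lv b = ξ := fun {a ξ} h => by
    obtain ⟨b, rfl⟩ := (hr ξ).1 (h.trans (hlt a))
    exact ⟨b, hlv.lt_iff_lt.1 h, rfl⟩
  let Ac : L → L → Prop := fun a c =>
    Order.IsSuccLimit (lv a) ∧ c < a ∧ IsAccPt (C (lv a)) (lv c)
  have F1 : ∀ {a c}, Ac a c → C (lv c) = C (lv a) ∩ Iio (lv c) := fun {a c} h =>
    hC2 _ (hlt a) h.1 _ (hlv h.2.1) h.2.2
  have F2 : ∀ {a c e}, Ac a c → Ac a e → e < c → Ac c e := fun {a c e} h h' hec =>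
    ⟨h.2.2.isSuccLimit, hec, h'.2.2.1, fun ξ hξ => (h'.2.2.2 ξ hξ).imp fun γ hγ =>
      ⟨F1 h ▸ ⟨hγ.1, hγ.2.2.trans (hlv hec)⟩, hγ.2⟩⟩
  have F3 : ∀ {a c e}, Ac a c → Ac c e → Ac a e := fun {a c e} h h' =>
    ⟨h.1, h'.2.1.trans h.2.1, h'.2.2.1, fun ξ hξ => (h'.2.2.2 ξ hξ).imp fun γ hγ =>
      ⟨(F1 h ▸ hγ.1 : γ ∈ C (lv a) ∩ Iio (lv c)).1, hγ.2⟩⟩
  have F4 : ∀ {a c}, Ac a c → lv c ∈ C (lv a) := fun {a c} h =>
    (hC1 _ (hlt a) h.1).2.2 _ (hlv h.2.1) h.2.2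
  refine ⟨⟨fun a => {c | Ac a c}, fun a c hc => hc.2.1, fun a c hc e he hec => F2 hc he hec,
    fun a c hc e he => F3 hc he, fun a b hb h ⟨c0, hc0⟩ => ?_, fun a hn b hb => ?_⟩,
    fun a c => and_congr_right fun _ => and_congr_left' hlv.lt_iff_lt.symm, fun S hS => ?_⟩
  · obtain ⟨d, hdb, h1, h2⟩ := exists_lub h
    refine ⟨d, ?_, h1⟩
    by_contra hn
    have h3 : c0 < d := (h1 c0 hc0).lt_of_ne fun e => hn (e ▸ hc0)
    refine hn ⟨hc0.1, hdb.trans_lt hb, zero_le.trans_lt (hlv h3), fun ξ hξ => ?_⟩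
    obtain ⟨b', hb', rfl⟩ := hin hξ
    obtain ⟨c, g1, g2, g3⟩ := h2 hn b' hb'
    exact ⟨_, F4 g1, hlv g2, hlv g3⟩
  · have ha : Order.IsSuccLimit (lv a) := by
      rw [Ordinal.isSuccLimit_iff]
      refine ⟨(zero_le.trans_lt (hlv hb)).ne', Order.isSuccPrelimit_iff_succ_lt.2 fun ξ hξ => ?_⟩
      obtain ⟨c, hc, rfl⟩ := hin hξ
      obtain ⟨e, he, h'⟩ := hn {c} (Set.countable_singleton c) (by simpa using hc)
      exact (Order.succ_le_of_lt (hlv (h' c rfl))).trans_lt (hlv he)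
    have hclub := hC1 _ (hlt a) ha
    have hG : ∀ x, ∃ y, x < a → (x < y ∧ y < a) ∧ lv y ∈ C (lv a) := fun x => by
      by_cases hx : x < a
      · obtain ⟨γ, h1, h2⟩ := hclub.2.1 _ (hlv hx)
        obtain ⟨y, hy, rfl⟩ := hin (hclub.1 h1)
        exact ⟨y, fun _ => ⟨⟨hlv.lt_iff_lt.1 h2, hy⟩, h1⟩⟩
      · exact ⟨x, fun h => absurd h hx⟩
    choose G hG using hG
    obtain ⟨u, d, h1, h2, h3, h4, h5⟩ := J.exists_lim (fun x => x < a)
      (fun _ _ h h' => h.trans_lt h')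
      (fun f hf => (hn _ (Set.countable_range f) (by rintro _ ⟨n, rfl⟩; exact hf n)).imp
        fun b hb => ⟨hb.1, fun n => hb.2 _ ⟨n, rfl⟩⟩) G (fun x hx => (hG x hx).1) hb
    refine ⟨d, ⟨ha, h1, zero_le.trans_lt (hlv (h4 0)), fun ξ hξ => ?_⟩, h2 ▸ h4 0⟩
    obtain ⟨b', hb', rfl⟩ := hin hξ
    obtain ⟨n, hn⟩ := h5 b' hb'
    have := hG (u n) ((h4 n).trans h1)
    exact ⟨_, this.2, hlv (hn.trans this.1.1), hlv (h3 n ▸ h4 (n + 1))⟩
  · by_contra hc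
    push Not at hc
    have hlim : ∀ s ∈ S, Order.IsSuccLimit (lv s) := fun s hs => by
      obtain ⟨t, ht, hst⟩ := hc s
      exact (hS s hs t ht hst : Ac t s).2.2.isSuccLimit
    have hD : ∀ s ∈ S, {γ | ∃ t ∈ S, γ ∈ C (lv t)} ∩ Iio (lv s) = C (lv s) := fun s hs => by
      refine Set.Subset.antisymm ?_ fun γ hγ => ⟨⟨s, hs, hγ⟩, (hC1 _ (hlt s) (hlim s hs)).1 hγ⟩
      rintro γ ⟨⟨t, ht, h1⟩, h2⟩
      rcases lt_trichotomy s t with g | rfl | g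
      · rw [F1 (hS s hs t ht g)]; exact ⟨h1, h2⟩
      · exact h1
      · rw [F1 (hS t ht s hs g)] at h1; exact h1.1
    have hup : ∀ α < κ, ∃ s ∈ S, α < lv s := fun α hα => by
      obtain ⟨b, rfl⟩ := (hr α).1 hα
      exact (hc b).imp fun s hs => ⟨hs.1, hlv hs.2⟩
    have hacc : ∀ s ∈ S, ∀ α < lv s, IsAccPt {γ | ∃ t ∈ S, γ ∈ C (lv t)} α →
        IsAccPt (C (lv s)) α := fun s hs α hα h => ⟨h.1, fun ξ hξ => (h.2 ξ hξ).imp fun γ hγ =>
      ⟨hD s hs ▸ ⟨hγ.1, hγ.2.2.trans hα⟩, hγ.2⟩⟩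
    refine hC3 ⟨{γ | ∃ t ∈ S, γ ∈ C (lv t)}, ⟨?_, fun ξ hξ => ?_, fun β hβ h => ?_⟩,
      fun α hα h => ?_⟩
    · rintro γ ⟨t, ht, h⟩
      exact lt_trans ((hC1 _ (hlt t) (hlim t ht)).1 h) (hlt t)
    · obtain ⟨s, hs, h⟩ := hup ξ hξ
      obtain ⟨γ, h1, h2⟩ := (hC1 _ (hlt s) (hlim s hs)).2.1 ξ h
      exact ⟨γ, ⟨s, hs, h1⟩, h2⟩
    · obtain ⟨s, hs, h'⟩ := hup β hβ
      exact ⟨s, hs, (hC1 _ (hlt s) (hlim s hs)).2.2 β h' (hacc s hs β h' h)⟩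
    · obtain ⟨s, hs, h'⟩ := hup α hα
      rw [hC2 _ (hlt s) (hlim s hs) α h' (hacc s hs α h' h), ← hD s hs, Set.inter_assoc,
        Set.Iio_inter_Iio, min_eq_right h'.le]

/-- above every point of a perfect set there are unboundedly many gaps with one lower end -/
theorem Ch.gaps (C : Ch L) (hT : C.NoThread)
    (hcl : ∀ (G : L → L) (b : L), ∃ e, b < e ∧ ∀ a < e, G a < e) {T : Set L}
    (hP : ∀ t ∈ T, ∀ b, ∃ u ∈ T, b < u ∧ t ∈ C.A u) {t : L} (ht : t ∈ T) :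
    ∃ β, ∀ b, ∃ c, (t ∈ C.A c ∧ (∀ a ∈ C.A c, a ≤ β) ∧ ∃ u ∈ T, c ∈ C.A u) ∧ b < c := by
  by_contra hc
  push Not at hc
  choose g hg using hc
  have key : ∀ e, t < e → (∀ a < e, g a < e) → ∀ u ∈ T, t ∈ C.A u → e < u → e ∈ C.A u := by
    intro e hte he u hu htu heu
    refine C.acc heu ⟨t, hte⟩ fun b hb => ?_
    obtain ⟨u', hu', -, huu⟩ := hP u hu u
    have hb' : Max.max b t < e := max_lt hb hte
    obtain ⟨c, hc, hmin⟩ := (wellFounded_lt (α := L)).has_min {c | c ∈ C.A u' ∧ Max.max b t < c}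
      ⟨u, huu, hb'.trans heu⟩
    have h1 : c ≤ g (Max.max b t) := hg (Max.max b t) c
      ⟨C.coh _ _ hc.1 _ (C.sub _ _ huu _ htu) ((le_max_right _ _).trans_lt hc.2),
        fun a ha => not_lt.1 fun h => hmin a ⟨C.sub _ _ hc.1 _ ha, h⟩ (C.lt _ _ ha), u', hu', hc.1⟩
    have h2 : c < e := h1.trans_lt (he _ hb')
    exact ⟨c, C.coh _ _ huu _ hc.1 (h2.trans heu), (le_max_left _ _).trans_lt hc.2, h2⟩
  obtain ⟨b, hb⟩ := hT {e | t < e ∧ ∀ a < e, g a < e} fun s hs r hr hsr => by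
    obtain ⟨u, hu, h1, h2⟩ := hP t ht r
    exact C.coh _ _ (key r hr.1 hr.2 u hu h2 h1) _ (key s hs.1 hs.2 u hu h2 (hsr.trans h1)) hsr
  obtain ⟨e, he1, he2⟩ := hcl g (Max.max b t)
  exact absurd (hb e ⟨(le_max_right _ _).trans_lt he1, he2⟩)
    (not_le.2 ((le_max_left _ _).trans_lt he1))

/-- bookkeeping: every task is attached to a point of its unbounded set -/
theorem exists_task (hreg : ∀ (f : L → L) (a : L), ∃ b, a < b ∧ ∀ c ≤ a, f c < b) {K : Type}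
    [Nonempty K] [Nonempty L] (j : K ↪ L) (Y : K → Set L) (hY : ∀ k b, ∃ c ∈ Y k, b < c) :
    ∃ tk : L → K, ∀ k, ∃ c ∈ Y k, tk c = k := by
  classical
  have key : ∀ (i : L) (f : ∀ k, k < i → L), ∃ e, e ∈ Y (Function.invFun j i) ∧
      ∀ k h, f k h < e := fun i f => by
    obtain ⟨b, -, hb⟩ := hreg (fun k => if h : k < i then f k h else k) i
    obtain ⟨e, he, hbe⟩ := hY (Function.invFun j i) b
    exact ⟨e, he, fun k h => lt_trans (by simpa only [dif_pos h] using hb k h.le) hbe⟩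
  choose nx h1 h2 using key
  let φ : L → L := (wellFounded_lt (α := L)).fix nx
  have hφ : ∀ i, φ i = nx i fun k _ => φ k := fun i => WellFounded.fix_eq _ _ _
  have hm : StrictMono φ := fun k i h => hφ i ▸ h2 i (fun k _ => φ k) k h
  refine ⟨fun c => Function.invFun j (Function.invFun φ c), fun k => ⟨φ (j k), ?_, ?_⟩⟩
  · have := h1 (j k) fun k _ => φ k
    rw [Function.leftInverse_invFun j.injective k, ← hφ] at this
    exact this
  · simp only [Function.leftInverse_invFun hm.injective (j k),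
      Function.leftInverse_invFun j.injective k]

/-- captures along a Baire perfect set -/
theorem Ch.baire (C : Ch L) (hT : C.NoThread)
    (hreg : ∀ (f : L → L) (a : L), ∃ b, a < b ∧ ∀ c ≤ a, f c < b)
    (hcl : ∀ (G : L → L) (b : L), ∃ e, b < e ∧ ∀ a < e, G a < e) {T : Set L}
    (hP : ∀ t ∈ T, ∀ b, ∃ u ∈ T, b < u ∧ t ∈ C.A u)
    (hB : ∀ D : ℕ → Set L, (∀ n, ∀ t ∈ T, ∃ u ∈ T ∩ D n, t ∈ C.A u) →
      ∃ d, ∀ n, ∃ u ∈ D n, u ∈ C.A d)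
    {X : Type} [Nonempty X] [Nonempty L] (j : L × L × X × ℕ ↪ L) (h : X → L) (rt : L → X) :
    ∃ (cap : L → Set X) (tm : L → ℕ), (∀ c, (cap c).Countable) ∧
      ∀ (e : L → L) (x : L → X), (∀ b, b < e b) → ∃ d, ∀ n, ∃ c ∈ C.A d, n < tm c ∧
        ∃ b, (∀ a ∈ C.A c, a < e b) ∧ h (x b) < c ∧ x b ∈ cap c ∧ rt (e b) ∈ cap c := by
  choose! β hβ using fun t (ht : t ∈ T) => C.gaps hT hcl hP ht
  obtain ⟨tk, htk⟩ := exists_task hreg j
    (fun k => {c | (k.1 ∈ T → k.1 ∈ C.A c ∧ (∀ a ∈ C.A c, a ≤ β k.1) ∧ ∃ u ∈ T, c ∈ C.A u) ∧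
      h k.2.2.1 < c}) fun k b => by
      by_cases hk : k.1 ∈ T
      · obtain ⟨c, h1, h2⟩ := hβ k.1 hk (Max.max b (h k.2.2.1))
        exact ⟨c, ⟨fun _ => h1, (le_max_right _ _).trans_lt h2⟩, (le_max_left _ _).trans_lt h2⟩
      · obtain ⟨c, h2, -⟩ := hreg id (Max.max b (h k.2.2.1))
        exact ⟨c, ⟨fun g => absurd g hk, (le_max_right _ _).trans_lt h2⟩,
          (le_max_left _ _).trans_lt h2⟩
  refine ⟨fun c => {(tk c).2.2.1, rt (tk c).2.1}, fun c => (tk c).2.2.2,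
    fun c => (Set.toFinite _).countable, fun e x he => ?_⟩
  obtain ⟨d, hd⟩ := hB (fun n => {u | ∃ c ∈ C.A u, n < (tk c).2.2.2 ∧
      ∃ b, (∀ a ∈ C.A c, a < e b) ∧ h (x b) < c ∧ x b = (tk c).2.2.1 ∧ e b = (tk c).2.1})
    fun n t ht => by
      obtain ⟨c, ⟨h1, h2⟩, h3⟩ := htk (t, e (β t), x (β t), n + 1)
      obtain ⟨g1, g2, u, hu, g3⟩ := h1 ht
      refine ⟨u, ⟨hu, c, g3, ?_, β t, fun a ha => (g2 a ha).trans_lt (he _), h2, ?_, ?_⟩,
        C.sub _ _ g3 _ g1⟩ <;> rw [h3]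
      exact Nat.lt_succ_self n
  refine ⟨d, fun n => ?_⟩
  obtain ⟨u, ⟨c, h1, h2, b, h3, h4, h5, h6⟩, hu⟩ := hd n
  exact ⟨c, C.sub _ _ hu _ h1, h2, b, h3, h4, Or.inl h5, Or.inr (congrArg rt h6)⟩

end

open Ordinal Cardinal

theorem mainBaire (hsq : BaireSquare (ℵ_ 2 : Cardinal.{0}).ord) (p : Cohen) :
    Forces Fm.existsAlephTwoSouslin p := by
  classical
  have e1 : (ℵ_ 1 : Cardinal.{0}) = Order.succ ℵ₀ := Cardinal.succ_aleph0.symm
  have e2 : (ℵ_ 2 : Cardinal.{0}) = Order.succ (ℵ_ 1) := by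
    rw [Cardinal.succ_aleph, one_add_one_eq_two]
  have h01 : (ℵ₀ : Cardinal.{0}) < ℵ_ 1 := Cardinal.aleph0_lt_aleph_one
  have h12 : (ℵ_ 1 : Cardinal.{0}) < ℵ_ 2 := e2 ▸ Order.lt_succ _
  have r1 : (ℵ_ 1 : Cardinal.{0}).IsRegular := Cardinal.isRegular_aleph_one
  have r2 : (ℵ_ 2 : Cardinal.{0}).IsRegular := e2 ▸ Cardinal.isRegular_succ h01.le
  let W := (ℵ_ 1 : Cardinal.{0}).ord.ToType
  let L := (ℵ_ 2 : Cardinal.{0}).ord.ToType
  have hW : #W = ℵ_ 1 := mk_ord_toType _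
  have hL : #L = ℵ_ 2 := mk_ord_toType _
  have : Infinite W := Cardinal.infinite_iff.2 (hW ▸ h01.le)
  have : Infinite L := Cardinal.infinite_iff.2 (hL ▸ (h01.trans h12).le)
  have hWW : (ℵ_ 1 : Cardinal.{0}) * ℵ_ 1 = ℵ_ 1 := Cardinal.mul_eq_self h01.le
  have hWc : ∀ S : Set W, S.Countable → ∃ w, ∀ s ∈ S, s < w := fun S hS => by
    obtain ⟨b, hb⟩ := bounded_toType r1 ((Cardinal.le_aleph0_iff_set_countable.2 hS).trans_lt h01)
      (fun s : S => (s : W))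
    exact ⟨b, fun s hs => hb ⟨s, hs⟩⟩
  have hLc : ∀ S : Set L, S.Countable → ∃ w, ∀ s ∈ S, s < w := fun S hS => by
    obtain ⟨b, hb⟩ := bounded_toType r2 ((Cardinal.le_aleph0_iff_set_countable.2 hS).trans_lt
      (h01.trans h12)) (fun s : S => (s : L))
    exact ⟨b, fun s hs => hb ⟨s, hs⟩⟩
  have hL1 : ∀ a : L, #(Iio a) ≤ #W := fun a => by
    rw [hW, ← Order.lt_succ_iff, ← e2]
    exact (mk_Iio_lt a (by rw [hL, type_toType])).trans_eq hL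
  have hLW : ∀ f : W → L, ∃ b, ∀ i, f i < b := fun f => bounded_toType r2 (hW ▸ h12) f
  have hLP : ∀ f : Cohen → L, ∃ b, ∀ i, f i < b := fun f =>
    bounded_toType r2 (mk_le_aleph0.trans_lt (h01.trans h12)) f
  have hreg : ∀ (f : L → L) (a : L), ∃ b, a < b ∧ ∀ c ≤ a, f c < b := fun f a => by
    obtain ⟨b, hb⟩ := bounded_toType r2 (((hL1 a).trans hW.le).trans_lt h12) fun c : Iio a => f c
    obtain ⟨b', hb'⟩ := hLc {a, b, f a} (Set.toFinite _).countable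
    refine ⟨b', hb' a (by simp), fun c hc => ?_⟩
    rcases hc.eq_or_lt with rfl | hc
    · exact hb' _ (by simp)
    · exact (hb ⟨c, hc⟩).trans (hb' b (by simp))
  have hcl : ∀ (G : L → L) (b : L), ∃ e, b < e ∧ ∀ a < e, G a < e := fun G b => by
    obtain ⟨-, e, h1, h2, -⟩ := exists_closed_pt hLc hreg G b
    exact ⟨e, h1, h2⟩
  have hX : ∀ (f : L × W → L) (a : L), ∃ b, ∀ x : L × W, x.1 < a → f x < b := fun f a => by
    choose g hg using fun c => hLW fun w => f (c, w)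
    obtain ⟨b, -, hb⟩ := hreg g a
    exact ⟨b, fun x hx => (hg x.1 x.2).trans (hb _ hx.le)⟩
  obtain ⟨j⟩ : Nonempty (W × W ↪ (ℕ → Bool)) := by
    rw [← Cardinal.le_def]
    simp only [mk_prod, Cardinal.lift_id, hW, hWW, mk_pi, mk_fintype, Fintype.card_bool,
      Nat.cast_ofNat, prod_const, mk_nat, two_power_aleph0]
    exact Cardinal.aleph_one_le_continuum
  obtain ⟨par, tag, mk, g1, g2⟩ := J.exists_nodes' (W := W) hL1
  have hinj : ∀ a : L, InjOn (fun x => mk a (some x) 0) {x : L × W | x.1 < a} :=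
    fun a x hx y hy h => by
      have h1 := (g1 a (some x) 0 fun v hv => Option.some.inj hv ▸ hx).2
      have h2 := (g1 a (some y) 0 fun v hv => Option.some.inj hv ▸ hy).2
      simp only at h
      rw [h, h2] at h1
      exact (Option.some.inj h1).symm
  obtain ⟨jt⟩ : Nonempty (L × L × (L × W) × ℕ ↪ L) := by
    rw [← Cardinal.le_def]
    have h02 := (h01.trans h12).le
    simp only [mk_prod, Cardinal.lift_id, hW, hL, mk_nat, Cardinal.mul_eq_left h02 h12.le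
      (zero_lt_one.trans_le (Cardinal.one_le_aleph0.trans h01.le)).ne',
      Cardinal.mul_aleph0_eq h02, Cardinal.mul_eq_self h02, le_refl]
  obtain ⟨C0, hC1, hC2, hC3, T0, hT1, hT2, hT3⟩ := hsq
  obtain ⟨C, hA, hT⟩ := ch_of_seq (toType_strictMono _) (lt_iff_toType _) hC1 hC2 hC3
  obtain ⟨cap, tm, hc1, hc2⟩ := C.baire hT hreg hcl (T := {a : L | (a : Ordinal.{0}) ∈ T0})
    (fun t ht b => by
      obtain ⟨u, hu, h1, h2⟩ := hT2 _ ht b (ToType.toOrd b).2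
      obtain ⟨u, rfl⟩ := (lt_iff_toType _ _).1 (hT1 hu)
      exact ⟨u, hu, (toType_strictMono _).lt_iff_lt.1 h1, (hA _ _).2 h2⟩)
    (fun D hD => by
      obtain ⟨d, hd, h1⟩ := hT3 (fun n => (fun a : L => (a : Ordinal.{0})) '' D n) fun n t ht => by
        obtain ⟨t, rfl⟩ := (lt_iff_toType _ _).1 (hT1 ht)
        obtain ⟨u, hu, h2⟩ := hD n t ht
        exact ⟨_, ⟨hu.1, u, hu.2, rfl⟩, (hA _ _).1 h2⟩
      obtain ⟨d, rfl⟩ := (lt_iff_toType _ _).1 hd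
      refine ⟨d, fun n => ?_⟩
      obtain ⟨_, ⟨u, hu, rfl⟩, h2⟩ := h1 n
      exact ⟨u, hu, (hA _ _).2 h2⟩)
    jt Prod.fst fun a => (a, mk a none 0)
  obtain ⟨lad, l1, l2, l3⟩ := C.lad
  let D : Sys L (L × W) :=
    ⟨C.A, lad, cap, tm, Prod.fst, par, tag, fun a o m => (a, mk a o m), C.lt, C.coh, C.sub,
      C.max, l1, l2, l3, hc1, fun _ _ _ => rfl, fun a o m h => (g1 a o m h).1,
      fun a o m h => (g1 a o m h).2, g2⟩
  obtain ⟨T, hT, hS, hS'⟩ : ∃ T : J.TR L (L × W) Cohen, T.h = Prod.fst ∧ Good T := by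
    obtain ⟨adr, hrk⟩ := exists_adr D hWc
      ⟨fun w => j (w, w), fun _ _ h => congrArg Prod.fst (j.injective h)⟩
    exact exists_TR D adr hrk (fun e x h1 _ => hc2 e x h1) hcl hLc hX
  refine forces_ex_intro (oN Cohen.one (ℵ_ 2 : Cardinal.{0}).ord)
    ⟨forces_isAlephTwo Cohen.le_one p, forces_ex_intro _ (forces_ex_intro _
      (J.forces_isSouslin Cohen.le_one T (toType_strictMono _) (lt_iff_toType _)
        (fun a => ⟨(a, Classical.arbitrary W), by rw [hT]⟩) hLP hS hS' (fun a => ?_) p))⟩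
  rw [hT]
  exact ⟨(ℵ_ 1 : Cardinal.{0}).ord, Cardinal.ord_lt_ord.2 h12,
    fun x => (mk a (some x) 0 : Ordinal.{0}), fun x _ => (ToType.toOrd _).2,
    fun x hx y hy h => hinj a hx hy ((toType_strictMono _).injective h)⟩

end Pool.Agent.Lib.MP_40ade9_lc.K
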