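import Pool.Agent.Lib.MP_40ade9_lc.KThin

/-! Capturing sets from an unbounded family, time stamps, and the labels that exist if no choice
of parameters captures every unbounded family. -/

set_option autoImplicit false

namespace Pool.Agent.Lib.MP_40ade9_lc.K

open Set

variable {L W X : Type} [LinearOrder L] [WellFoundedLT L] [LinearOrder W] [WellFoundedLT W]

omit [WellFoundedLT L] [WellFoundedLT W] in
theorem exists_cap (hW1 : ∀ w : W, (Iic w).Countable)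
    (hWc : ∀ Z : Set W, Z.Countable → ∃ b, ∀ z ∈ Z, z < b)
    (hLW : ∀ f : W → L, ∃ b, ∀ i, f i < b) (h : X → L) (ι : L → X → W)
    (hι : ∀ a ν, {x | h x < a ∧ ι a x ≤ ν}.Countable) (κ : L → L → W)
    (hκ : ∀ a ν, {b | b < a ∧ κ a b ≤ ν}.Countable) (f : L → W → W)
    (hf : ∀ g : W → W, ∃ γ, ∀ ξ₀, ∃ ξ, ξ₀ ≤ ξ ∧ g ξ < f γ ξ) :
    ∃ cap : W → L → Set X, (∀ π c, (cap π c).Countable) ∧
      ∀ (u u' : W → X) (P : Set W), (∀ ν, ∃ π ∈ P, ν ≤ π) → ∃ γ, ∀ c, γ < c →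
        ∃ π ∈ P, h (u π) < c ∧ u π ∈ cap π c ∧ u' π ∈ cap π c := by
  choose f' hf' using fun γ π => hWc _ ((hW1 π).image (f γ))
  refine ⟨fun π c => ⋃ b ∈ {b | b < c ∧ κ c b ≤ π}, ⋃ γ ∈ {b | b < c ∧ κ c b ≤ π},
    {x | h x < b ∧ ι b x ≤ f' γ π}, fun π c => (hκ c π).biUnion fun b _ =>
      (hκ c π).biUnion fun γ _ => hι _ _, fun u u' P hP => ?_⟩
  obtain ⟨b, hb⟩ := hLW fun π => max (h (u π)) (h (u' π))
  choose nx hx1 hx2 using hP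
  obtain ⟨γ, hγ⟩ := hf fun ξ => max (ι b (u (nx ξ))) (ι b (u' (nx ξ)))
  refine ⟨max b γ, fun c hc => ?_⟩
  obtain ⟨ξ, h1, h2⟩ := hγ (max (κ c b) (κ c γ))
  have h3 := h2.trans (hf' γ (nx ξ) _ ⟨ξ, hx2 ξ, rfl⟩)
  have hbc : b < c := (le_max_left _ _).trans_lt hc
  have h4 : ∀ x, h x < b → ι b x ≤ f' γ (nx ξ) → x ∈ ⋃ b ∈ {b | b < c ∧ κ c b ≤ nx ξ},
      ⋃ γ ∈ {b | b < c ∧ κ c b ≤ nx ξ}, {x | h x < b ∧ ι b x ≤ f' γ (nx ξ)} := fun x g1 g2 =>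
    Set.mem_biUnion (x := b) ⟨hbc, ((le_max_left _ _).trans h1).trans (hx2 ξ)⟩
      (Set.mem_biUnion (x := γ) ⟨(le_max_right _ _).trans_lt hc,
        ((le_max_right _ _).trans h1).trans (hx2 ξ)⟩ ⟨g1, g2⟩)
  exact ⟨nx ξ, hx1 ξ, ((le_max_left _ _).trans_lt (hb _)).trans hbc,
    h4 _ ((le_max_left _ _).trans_lt (hb _)) ((le_max_left _ _).trans h3.le),
    h4 _ ((le_max_right _ _).trans_lt (hb _)) ((le_max_right _ _).trans h3.le)⟩

omit [WellFoundedLT W] in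
theorem exists_tm (hW1 : ∀ w : W, (Iic w).Countable)
    (hWc : ∀ Z : Set W, Z.Countable → ∃ b, ∀ z ∈ Z, z < b) (κ : L → L → W)
    (hκ : ∀ a ν, {b | b < a ∧ κ a b ≤ ν}.Countable) :
    ∃ tm : W × W → L → ℕ, ∀ Z : Set L, Z.Countable → ∃ j, InjOn (tm j) Z := by
  have key : ∀ (ν : W) (b : L) (G : ∀ a, a < b → W), ∃ w, ∀ a (h : a < b), κ b a ≤ ν →
      G a h < w := by
    intro ν b G
    obtain ⟨w, hw⟩ := hWc _ (((hκ b ν).preimage (f := fun a : Iio b => a.1)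
      Subtype.val_injective).image fun a => G a.1 a.2)
    exact ⟨w, fun a h hj => hw _ ⟨⟨a, h⟩, ⟨h, hj⟩, rfl⟩⟩
  choose nx hnx using key
  let t : W → L → W := fun ν => (wellFounded_lt (α := L)).fix (nx ν)
  have ht : ∀ ν a b, a < b → κ b a ≤ ν → t ν a < t ν b := fun ν a b h h' => by
    have h1 : t ν b = nx ν b fun a _ => t ν a := WellFounded.fix_eq _ _ _
    exact h1 ▸ hnx ν b (fun a _ => t ν a) a h h'
  choose en hen using fun w => Set.countable_iff_exists_injOn.1 (hW1 w)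
  refine ⟨fun j b => en j.2 (t j.1 b), fun Z hZ => ?_⟩
  obtain ⟨ν, hν⟩ := hWc _ ((hZ.prod hZ).image fun p => κ p.1 p.2)
  obtain ⟨ν', hν'⟩ := hWc _ (hZ.image (t ν))
  refine ⟨(ν, ν'), fun a ha b hb e => ?_⟩
  have e' := hen ν' (hν' _ ⟨a, ha, rfl⟩).le (hν' _ ⟨b, hb, rfl⟩).le e
  rcases lt_trichotomy a b with g | g | g
  · exact absurd e' (ht ν a b g (hν _ ⟨(b, a), ⟨hb, ha⟩, rfl⟩).le).ne
  · exact g
  · exact absurd e' (ht ν b a g (hν _ ⟨(a, b), ⟨ha, hb⟩, rfl⟩).le).ne'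

omit [WellFoundedLT L] [WellFoundedLT W] in
theorem Ch.label {I : Type} (C : Ch L) (hWc : ∀ Z : Set W, Z.Countable → ∃ b, ∀ z ∈ Z, z < b)
    (hLI : ∀ f : I → L, ∃ b, ∀ i, f i < b) (tm : I → L → ℕ)
    (htm : ∀ Z : Set L, Z.Countable → ∃ j, InjOn (tm j) Z) (Gd : W → I → L → Prop)
    (hbd : ∀ π j d, ∃ n, ∀ c ∈ C.A d, Gd π j c → tm j c ≤ n)
    (hG : ∀ d j (P : Set W), (∀ ν, ∃ π ∈ P, ν ≤ π) → ∃ γ, ∀ c, γ < c → IsGreatest (C.A c) d →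
      ∃ π ∈ P, Gd π j c) :
    ∃ (G : L → L) (lab : L → (I × ℕ × W) ⊕ ℕ),
      ∀ a, ∀ c ∈ C.A a, C.Big G a → C.Big G c → lab c ≠ lab a := by
  classical
  let P : L → I → ℕ → Set W := fun d j n => {π | ∀ c, c ∈ C.A d ∨ c = d → Gd π j c → tm j c ≤ n}
  have hP : ∀ d j, ∃ n, ∀ ν, ∃ π ∈ P d j n, ν ≤ π := fun d j => by
    by_contra hc
    push Not at hc
    choose k hk using hc
    obtain ⟨π, hπ⟩ := hWc _ (Set.countable_range k)
    obtain ⟨n, hn⟩ := hbd π j d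
    refine lt_asymm (hπ _ ⟨Max.max n (tm j d), rfl⟩) (hk _ π ?_)
    rintro c (hc | rfl) h
    · exact (hn c hc h).trans (le_max_left _ _)
    · exact le_max_right _ _
  let ns : L → I → ℕ := fun d j => Nat.find (hP d j)
  have hmono : ∀ d, ∀ e ∈ C.A d, ∀ j, ns e j ≤ ns d j := fun d e he j =>
    Nat.find_min' _ fun ν => (Nat.find_spec (hP d j) ν).imp fun π hπ => ⟨fun c hc =>
      hπ.1 c (Or.inl (hc.elim (C.sub _ _ he _) fun h => h ▸ he)), hπ.2⟩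
  choose γ hγ using fun d j => hG d j _ (Nat.find_spec (hP d j))
  choose G hG' using fun d => hLI (γ d)
  let bad : L → Prop := fun c => ∃ d, IsGreatest (C.A c) d ∧ ∀ j, tm j c ≤ ns d j
  have hfin : ∀ a, {c | c ∈ C.A a ∧ bad c}.Finite := fun a => by
    by_contra hc
    obtain ⟨Z, hZ, hZ1, hZ2⟩ := (Set.not_finite.1 hc).exists_subset_countable_infinite
    obtain ⟨j, hj⟩ := htm Z hZ1
    refine hZ2 (Set.Finite.of_finite_image ((Set.finite_Iic (ns a j)).subset ?_) hj)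
    rintro _ ⟨c, hc, rfl⟩
    obtain ⟨h1, d, h2, h3⟩ := hZ hc
    exact (h3 j).trans (hmono a d (C.sub _ _ h1 _ h2.1) j)
  have hlab : ∀ c, ∃ l : (I × ℕ × W) ⊕ ℕ, C.Big G c →
      (bad c ∧ l = .inr {e | e ∈ C.A c ∧ bad e}.ncard) ∨
      ∃ d j n π, l = .inl (j, n, π) ∧ IsGreatest (C.A c) d ∧ π ∈ P d j n ∧ n < tm j c ∧
        Gd π j c := fun c => by
    by_cases hb : bad c
    · exact ⟨_, fun _ => Or.inl ⟨hb, rfl⟩⟩
    by_cases hc : C.Big G c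
    · obtain ⟨d, h1, h2⟩ := hc
      obtain ⟨j, hj⟩ : ∃ j, ns d j < tm j c := by
        by_contra hn
        push Not at hn
        exact hb ⟨d, h1, hn⟩
      obtain ⟨π, h3, h4⟩ := hγ d j c ((hG' d j).trans h2) h1
      exact ⟨_, fun _ => Or.inr ⟨d, j, _, π, rfl, h1, h3, hj, h4⟩⟩
    · exact ⟨.inr 0, fun h => absurd h hc⟩
  choose lab hlab using hlab
  refine ⟨G, lab, fun a c hc ha hc' e => ?_⟩
  rcases hlab a ha with ⟨-, h2⟩ | ⟨d, j, n, π, h1, h2, h3, -⟩ <;>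
    rcases hlab c hc' with ⟨g1, g2⟩ | ⟨d', j', n', π', g1, -, -, g4, g5⟩
  · rw [h2, g2, Sum.inr.injEq] at e
    refine (Set.ncard_lt_ncard (Set.ssubset_def ▸ And.intro (fun u hu => ?_) fun h => ?_)
      (hfin a)).ne e
    · exact ⟨C.sub _ _ hc _ hu.1, hu.2⟩
    · exact lt_irrefl _ (C.lt _ _ (h ⟨hc, g1⟩).1)
  · rw [h2, g1] at e
    cases e
  · rw [h1, g2] at e
    cases e
  · rw [h1, g1] at e
    cases e
    exact absurd (h3 c ((h2.2 hc).eq_or_lt.elim Or.inr fun h => Or.inl (C.coh _ _ h2.1 _ hc h)) g5)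
      (not_le.2 g4)

end Pool.Agent.Lib.MP_40ade9_lc.K
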