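import Pool.Agent.Lib.MP_40ade9_lc.BDefs
import Pool.Agent.Lib.MP_40ade9_lc.KDich
import Pool.Agent.Lib.MP_40ade9_lc.KForce

/-! The main theorem: square at `ℵ₂` and bounding number `ℵ₂` at `ω₁`. -/

set_option autoImplicit false

namespace Pool.Agent.Lib.MP_40ade9_lc.K

open Ordinal Cardinal Set

theorem mainK (hsq : Square (ℵ_ 2 : Cardinal.{0}).ord)
    (hb : BoundingLE (ℵ_ 1 : Cardinal.{0}).ord (ℵ_ 2)) (p : Cohen) :
    Forces Fm.existsAlephTwoSouslin p := by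
  classical
  have e1 : (ℵ_ 1 : Cardinal.{0}) = Order.succ ℵ₀ := Cardinal.succ_aleph0.symm
  have e2 : (ℵ_ 2 : Cardinal.{0}) = Order.succ (ℵ_ 1) := by
    rw [Cardinal.succ_aleph, one_add_one_eq_two]
  have h01 : (ℵ₀ : Cardinal.{0}) < ℵ_ 1 := Cardinal.aleph0_lt_aleph_one
  have h12 : (ℵ_ 1 : Cardinal.{0}) < ℵ_ 2 := e2 ▸ Order.lt_succ _
  have r1 : (ℵ_ 1 : Cardinal.{0}).IsRegular := Cardinal.isRegular_aleph_one
  have r2 : (ℵ_ 2 : Cardinal.{0}).IsRegular := e2 ▸ Cardinal.isRegular_succ h01.le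
  let W := (ℵ_ 1 : Cardinal.{0}).ord.ToType
  let L := (ℵ_ 2 : Cardinal.{0}).ord.ToType
  have hW : #W = ℵ_ 1 := mk_ord_toType _
  have hL : #L = ℵ_ 2 := mk_ord_toType _
  have : Infinite W := Cardinal.infinite_iff.2 (hW ▸ h01.le)
  have : Infinite L := Cardinal.infinite_iff.2 (hL ▸ (h01.trans h12).le)
  have hWW : (ℵ_ 1 : Cardinal.{0}) * ℵ_ 1 = ℵ_ 1 := Cardinal.mul_eq_self h01.le
  have hW1 : ∀ w : W, (Iic w).Countable := fun w => by
    rw [← Set.Iio_insert]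
    refine Set.Countable.insert _ ?_
    rw [← Cardinal.le_aleph0_iff_set_countable, ← Order.lt_succ_iff, ← e1]
    exact (mk_Iio_lt w (by rw [hW, type_toType])).trans_eq hW
  have hWc : ∀ S : Set W, S.Countable → ∃ w, ∀ s ∈ S, s < w := fun S hS => by
    obtain ⟨b, hb⟩ := bounded_toType r1 ((Cardinal.le_aleph0_iff_set_countable.2 hS).trans_lt h01)
      (fun s : S => (s : W))
    exact ⟨b, fun s hs => hb ⟨s, hs⟩⟩
  have hLc : ∀ S : Set L, S.Countable → ∃ w, ∀ s ∈ S, s < w := fun S hS => by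
    obtain ⟨b, hb⟩ := bounded_toType r2 ((Cardinal.le_aleph0_iff_set_countable.2 hS).trans_lt
      (h01.trans h12)) (fun s : S => (s : L))
    exact ⟨b, fun s hs => hb ⟨s, hs⟩⟩
  have hL1 : ∀ a : L, #(Iio a) ≤ #W := fun a => by
    rw [hW, ← Order.lt_succ_iff, ← e2]
    exact (mk_Iio_lt a (by rw [hL, type_toType])).trans_eq hL
  have hLW : ∀ f : W → L, ∃ b, ∀ i, f i < b := fun f => bounded_toType r2 (hW ▸ h12) f
  have hLI : ∀ f : W × W → L, ∃ b, ∀ i, f i < b := fun f =>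
    bounded_toType r2 (by simpa only [mk_prod, Cardinal.lift_id, hW, hWW] using h12) f
  have hLP : ∀ f : Cohen → L, ∃ b, ∀ i, f i < b := fun f =>
    bounded_toType r2 (mk_le_aleph0.trans_lt (h01.trans h12)) f
  have hreg : ∀ (f : L → L) (a : L), ∃ b, a < b ∧ ∀ c ≤ a, f c < b := fun f a => by
    obtain ⟨b, hb⟩ := bounded_toType r2 (((hL1 a).trans hW.le).trans_lt h12) fun c : Iio a => f c
    obtain ⟨b', hb'⟩ := hLc {a, b, f a} (Set.toFinite _).countable
    refine ⟨b', hb' a (by simp), fun c hc => ?_⟩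
    rcases hc.eq_or_lt with rfl | hc
    · exact hb' _ (by simp)
    · exact (hb ⟨c, hc⟩).trans (hb' b (by simp))
  have hcl : ∀ (G : L → L) (b : L), ∃ e, b < e ∧ ∀ a < e, G a < e := fun G b => by
    obtain ⟨-, e, h1, h2, -⟩ := exists_closed_pt hLc hreg G b
    exact ⟨e, h1, h2⟩
  have hX : ∀ (f : L × W → L) (a : L), ∃ b, ∀ x : L × W, x.1 < a → f x < b := fun f a => by
    choose g hg using fun c => hLW fun w => f (c, w)
    obtain ⟨b, -, hb⟩ := hreg g a
    exact ⟨b, fun x hx => (hg x.1 x.2).trans (hb _ hx.le)⟩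
  have hunc : ∀ Z : Set L, (∀ b, (Z ∩ Iio b).Countable) → ∃ b, ∀ z ∈ Z, z < b := fun Z hZ => by
    by_cases hc : Z.Countable
    · exact hLc Z hc
    rw [← Cardinal.le_aleph0_iff_set_countable, not_le, ← Order.succ_le_iff, ← e1, ← hW] at hc
    obtain ⟨f⟩ := (Cardinal.le_def _ _).1 hc
    obtain ⟨b, hb⟩ := hLW fun i => f i
    have : (univ : Set W).Countable := Set.MapsTo.countable_of_injOn (f := fun i => (f i : L))
      (fun i _ => And.intro (f i).2 (hb i)) (fun i _ k _ h => f.injective (Subtype.ext h)) (hZ b)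
    obtain ⟨w, hw⟩ := hWc _ this
    exact absurd (hw w trivial) (lt_irrefl _)
  obtain ⟨j⟩ : Nonempty (W × W ↪ (ℕ → Bool)) := by
    rw [← Cardinal.le_def]
    simp only [mk_prod, Cardinal.lift_id, hW, hWW, mk_pi, mk_fintype, Fintype.card_bool,
      Nat.cast_ofNat, prod_const, mk_nat, two_power_aleph0]
    exact Cardinal.aleph_one_le_continuum
  obtain ⟨jl⟩ : Nonempty (((W × W) × ℕ × W) ⊕ ℕ ↪ W) := by
    rw [← Cardinal.le_def]
    simp only [mk_sum, mk_prod, Cardinal.lift_id, hW, hWW, mk_nat,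
      Cardinal.aleph0_mul_eq h01.le, Cardinal.add_eq_left h01.le h01.le, le_refl]
  obtain ⟨f, hf⟩ : ∃ f : L → W → W, ∀ g : W → W, ∃ γ, ∀ ξ₀, ∃ ξ, ξ₀ ≤ ξ ∧ g ξ < f γ ξ := by
    obtain ⟨B, hB1, hB2⟩ := hb
    push Not at hB2
    obtain ⟨i⟩ := (Cardinal.le_def _ _).1 (hB1.trans hL.ge)
    obtain ⟨f0, hf0, -⟩ := hB2 id
    have : Nonempty B := ⟨⟨f0, hf0⟩⟩
    refine ⟨fun γ => (Function.invFun i γ).1, fun g => ?_⟩
    obtain ⟨f1, h1, h2⟩ := hB2 g
    exact ⟨i ⟨f1, h1⟩, by simpa only [Function.leftInverse_invFun i.injective _] using h2⟩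
  obtain ⟨par, tag, mk, g1, g2⟩ := J.exists_nodes' (W := W) hL1
  have hinj : ∀ a : L, InjOn (fun x => mk a (some x) 0) {x : L × W | x.1 < a} :=
    fun a x hx y hy h => by
      have h1 := (g1 a (some x) 0 fun v hv => Option.some.inj hv ▸ hx).2
      have h2 := (g1 a (some y) 0 fun v hv => Option.some.inj hv ▸ hy).2
      simp only at h
      rw [h, h2] at h1
      exact (Option.some.inj h1).symm
  have hι : ∀ a ν, {x : L × W | x.1 < a ∧ mk a (some x) 0 ≤ ν}.Countable := fun a ν =>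
    Set.MapsTo.countable_of_injOn (fun x hx => hx.2) ((hinj a).mono fun x hx => hx.1) (hW1 ν)
  have hκ : ∀ a ν, {b : L | b < a ∧ mk a (some (b, mk b none 0)) 0 ≤ ν}.Countable := fun a ν =>
    (hι a ν).preimage (f := fun b => (b, mk b none 0)) fun _ _ h => congrArg Prod.fst h
  obtain ⟨cap, hc1, hc2⟩ := exists_cap hW1 hWc hLW Prod.fst _ hι _ hκ f hf
  obtain ⟨tm, htm⟩ := exists_tm hW1 hWc _ hκ
  obtain ⟨C, hT⟩ := ch_of_square (toType_strictMono _) (lt_iff_toType _) hsq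
  obtain ⟨lad, l1, l2, l3⟩ := C.lad
  let D : W → W × W → Sys L (L × W) := fun π i =>
    ⟨C.A, lad, cap π, tm i, Prod.fst, par, tag, fun a o m => (a, mk a o m), C.lt, C.coh, C.sub,
      C.max, l1, l2, l3, hc1 π, fun _ _ _ => rfl, fun a o m h => (g1 a o m h).1,
      fun a o m h => (g1 a o m h).2, g2⟩
  obtain ⟨T, hT, hS, hS'⟩ : ∃ T : J.TR L (L × W) Cohen, T.h = Prod.fst ∧ Good T := by
    by_cases hs : ∃ π i, (D π i).Succ
    · obtain ⟨π, i, hs⟩ := hs
      obtain ⟨adr, hrk⟩ := exists_adr (D π i) hWc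
        ⟨fun w => j (w, w), fun _ _ h => congrArg Prod.fst (j.injective h)⟩
      exact exists_TR (D π i) adr hrk hs hcl hLc hX
    simp only [Sys.Succ, not_exists, not_forall, not_and] at hs
    choose e x h1 h2 h3 using hs
    obtain ⟨G, lab, hlab⟩ := C.label hWc hLI tm htm (fun π i c => (D π i).Gd (e π i) (x π i) c)
      (fun π i d => (h3 π i d).imp fun n hn c hc hG => not_lt.1 fun h => hn c hc h hG)
      fun d i P hP => (hc2 (fun π => x π i d) (fun π => (e π i d, mk (e π i d) none 0)) P hP).imp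
        fun γ hγ c hc hd => (hγ c hc).imp fun π hπ =>
          ⟨hπ.1, d, fun a ha => (hd.2 ha).trans_lt (h1 π i d), hπ.2⟩
    obtain ⟨C1, F5⟩ := C.thin hT hW1 hcl hreg G (fun c => jl (lab c))
      fun a c hc g g' e => hlab a c hc g g' (jl.injective e)
    obtain ⟨C2, pos, a8, hst⟩ := C1.cut hW1 hWc hLc hLW hreg F5
    obtain ⟨lad', l1', l2', l3'⟩ := C2.lad
    let D' : J.Sys L W (L × W) := ⟨C2.A, lad', pos, Prod.fst, par, tag,
      fun a o m => (a, mk a o m), fun a x => mk a (some x) 0, C2.lt, C2.coh, C2.sub, C2.max, l1',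
      l2', l3', a8, fun _ _ _ => rfl, fun a o m h => (g1 a o m h).1,
      fun a o m h => (g1 a o m h).2, g2, hι⟩
    obtain ⟨adr, hrk, hpos⟩ := J.exists_adr D' hWc j
    exact J.exists_TR D' adr hrk hpos hLc hLW hst hWc hunc
  refine forces_ex_intro (oN Cohen.one (ℵ_ 2 : Cardinal.{0}).ord)
    ⟨forces_isAlephTwo Cohen.le_one p, forces_ex_intro _ (forces_ex_intro _
      (J.forces_isSouslin Cohen.le_one T (toType_strictMono _) (lt_iff_toType _)
        (fun a => ⟨(a, Classical.arbitrary W), by rw [hT]⟩) hLP hS hS' (fun a => ?_) p))⟩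
  rw [hT]
  exact ⟨(ℵ_ 1 : Cardinal.{0}).ord, Cardinal.ord_lt_ord.2 h12,
    fun x => (mk a (some x) 0 : Ordinal.{0}), fun x _ => (ToType.toOrd _).2,
    fun x hx y hy h => hinj a hx hy ((toType_strictMono _).injective h)⟩

end Pool.Agent.Lib.MP_40ade9_lc.K
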