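import Pool.Agent.Lib.MP_40ade9_lc.KCh

/-! Labels that are one-to-one on the large gaps of every chain give a system of chains with
countable initial segments. -/

set_option autoImplicit false

namespace Pool.Agent.Lib.MP_40ade9_lc.K

open Set

variable {L W : Type} [LinearOrder L] [WellFoundedLT L] [LinearOrder W] [WellFoundedLT W]

/-- `c` is the top of a gap that is large with respect to `G` -/
def Ch.Big (C : Ch L) (G : L → L) (c : L) : Prop := ∃ d, IsGreatest (C.A c) d ∧ G d < c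

theorem Ch.big_unb (C : Ch L) (hT : C.NoThread)
    (hcl : ∀ (G : L → L) (b : L), ∃ e, b < e ∧ ∀ a < e, G a < e) (G : L → L) :
    ∃ G1 : L → L, ∀ a, (∀ b < a, G1 b < a) → (∀ b < a, ∃ c ∈ C.A a, b < c) →
      ∀ b < a, ∃ c ∈ C.A a, C.Big G c ∧ b < c := by
  have key : ∀ b, ∃ u, ∀ a, u < a →
      ∃ δ, (∀ e < δ, G e < δ) ∧ b < δ ∧ δ < a ∧ δ ∉ C.A a := fun b => by
    by_contra hc
    push Not at hc
    obtain ⟨u, hu⟩ := hT {δ | (∀ e < δ, G e < δ) ∧ b < δ} fun s hs t ht hst => by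
      obtain ⟨a, ha, h⟩ := hc t
      exact C.coh _ _ (h t ht.1 ht.2 ha) _ (h s hs.1 hs.2 (hst.trans ha)) hst
    obtain ⟨e, h1, h2⟩ := hcl G (Max.max u b)
    exact absurd (hu e ⟨h2, (le_max_right _ _).trans_lt h1⟩)
      (not_le.2 ((le_max_left _ _).trans_lt h1))
  choose G1 hG1 using key
  refine ⟨G1, fun a ha hA b hb => ?_⟩
  obtain ⟨b1, hb1, hbb⟩ := hA b hb
  obtain ⟨δ, h1, h2, h3, h4⟩ := hG1 b1 a (ha b1 (C.lt _ _ hb1))
  obtain ⟨c, hc, hmin⟩ := (wellFounded_lt (α := L)).has_min {c | c ∈ C.A a ∧ δ < c} (hA δ h3)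
  have h5 : ∀ e ∈ C.A c, e < δ := fun e he => lt_of_le_of_ne
    (not_lt.1 fun h => hmin e ⟨C.sub _ _ hc.1 _ he, h⟩ (C.lt _ _ he))
    fun h => h4 (h ▸ C.sub _ _ hc.1 _ he)
  obtain ⟨d, hd⟩ := C.max c δ hc.2 (fun e he => (h5 e he).le)
    ⟨b1, C.coh _ _ hc.1 _ hb1 (h2.trans hc.2)⟩
  exact ⟨c, hc.1, ⟨d, hd, (h1 d (h5 d hd.1)).trans hc.2⟩, (hbb.trans h2).trans hc.2⟩

theorem Ch.thin (C : Ch L) (hT : C.NoThread) (hW1 : ∀ w : W, (Iic w).Countable)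
    (hcl : ∀ (G : L → L) (b : L), ∃ e, b < e ∧ ∀ a < e, G a < e)
    (hreg : ∀ (f : L → L) (a : L), ∃ b, a < b ∧ ∀ c ≤ a, f c < b) (G : L → L) (lab : L → W)
    (hlab : ∀ a, ∀ c ∈ C.A a, C.Big G a → C.Big G c → lab c ≠ lab a) :
    ∃ C' : Ch L, ∀ a b, b < a → {c | c ∈ C'.A a ∧ c < b}.Countable := by
  obtain ⟨G1, hG1⟩ := C.big_unb hT hcl G
  obtain ⟨φ, hφ, hE⟩ := exists_enum hreg (E := {a | ∀ b < a, G1 b < a}) (hcl G1 · |>.imp
    fun e he => ⟨he.2, he.1⟩)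
  have hφE : ∀ i, ∀ b < φ i, G1 b < φ i := fun i => (hE ▸ Set.mem_range_self i :
    φ i ∈ {a | ∀ b < a, G1 b < a})
  have hcE : ∀ σ, (∀ b < σ, ∃ k, b < φ k ∧ φ k < σ) → ∃ d, φ d = σ := fun σ h => by
    have : σ ∈ Set.range φ := hE ▸ fun b hb =>
      (h b hb).elim fun k hk => (hφE k b hk.1).trans hk.2
    exact this
  let R : L → L → Prop := fun a c => c ∈ C.A a ∧ C.Big G c ∧
    ∀ c' ∈ C.A a, C.Big G c' → c < c' → lab c < lab c'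
  have R1 : ∀ a b, (∃ c ∈ C.A a, C.Big G c ∧ b < c) → ∃ r, R a r ∧ b < r := fun a b h => by
    obtain ⟨r, hr, hmin⟩ := (InvImage.wf lab (wellFounded_lt (α := W))).has_min
      {c | c ∈ C.A a ∧ C.Big G c ∧ b < c} h
    exact ⟨r, ⟨hr.1, hr.2.1, fun c hc h1 h2 => lt_of_le_of_ne
      (not_lt.1 (hmin c ⟨hc, h1, hr.2.2.trans h2⟩))
      (hlab c r (C.coh _ _ hc _ hr.1 h2) h1 hr.2.1)⟩, hr.2.2⟩
  let Ac : L → L → Prop := fun a c => c < a ∧ (∀ b < a, ∃ r, R a r ∧ b < r) ∧ (∃ b, b < c) ∧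
    ∀ b < c, ∃ r, R a r ∧ b < r ∧ r < c
  have A1 : ∀ {a c}, Ac a c → c ∈ C.A a := fun h =>
    C.acc h.1 h.2.2.1 fun b hb => (h.2.2.2 b hb).imp fun r hr => ⟨hr.1.1, hr.2⟩
  have A2 : ∀ {a c r}, Ac a c → R a r → r < c → R c r := fun h hr hrc =>
    ⟨C.coh _ _ (A1 h) _ hr.1 hrc, hr.2.1, fun c' hc' => hr.2.2 c' (C.sub _ _ (A1 h) _ hc')⟩
  have A3 : ∀ {a c r}, Ac a c → R c r → R a r := fun {a c r} h hr => by
    refine ⟨C.sub _ _ (A1 h) _ hr.1, hr.2.1, fun c' hc' h1 h2 => ?_⟩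
    rcases lt_or_ge c' c with g | g
    · exact hr.2.2 c' (C.coh _ _ (A1 h) _ hc' g) h1 h2
    · obtain ⟨r', g1, g2, g3⟩ := h.2.2.2 r (C.lt _ _ hr.1)
      exact (hr.2.2 r' (C.coh _ _ (A1 h) _ g1.1 g3) g1.2.1 g2).trans
        (g1.2.2 c' hc' h1 (g3.trans_le g))
  refine ⟨⟨fun i => {k | Ac (φ i) (φ k)}, fun i k hk => hφ.lt_iff_lt.1 hk.1,
    fun i k hk l hl hlk => ⟨hφ hlk, fun b hb => (hk.2.2.2 b hb).imp fun r hr =>
      ⟨A2 hk hr.1 hr.2.2, hr.2.1⟩, hl.2.2.1, fun b hb => (hl.2.2.2 b hb).imp fun r hr =>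
        ⟨A2 hk hr.1 (hr.2.2.trans (hφ hlk)), hr.2⟩⟩,
    fun i k hk l hl => ⟨hl.1.trans hk.1, hk.2.1, hl.2.2.1, fun b hb =>
      (hl.2.2.2 b hb).imp fun r hr => ⟨A3 hk hr.1, hr.2⟩⟩, fun i b hb h ⟨k0, hk0⟩ => ?_,
    fun i hn b hb => ?_⟩, fun i b hb => ?_⟩
  · obtain ⟨σ, g1, g2, g3⟩ := exists_lub (S := φ '' {k | Ac (φ i) (φ k)}) (b := φ b) (by
      rintro _ ⟨k, hk, rfl⟩
      exact hφ.monotone (h k hk))
    have hσ : σ ∈ φ '' {k | Ac (φ i) (φ k)} := by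
      by_contra hn
      obtain ⟨d, rfl⟩ := hcE σ fun e he => by
        obtain ⟨_, ⟨k, -, rfl⟩, h'⟩ := g3 hn e he
        exact ⟨k, h'⟩
      refine hn ⟨d, ⟨g1.trans_lt (hφ hb), hk0.2.1, ⟨φ k0, (g2 _ ⟨k0, hk0, rfl⟩).lt_of_ne
        fun e => hn ⟨k0, hk0, e⟩⟩, fun e he => ?_⟩, rfl⟩
      obtain ⟨_, ⟨k, hk, rfl⟩, h1, h2⟩ := g3 hn e he
      exact (hk.2.2.2 e h1).imp fun r hr => ⟨hr.1, hr.2.1, hr.2.2.trans h2⟩
    obtain ⟨d, hd, rfl⟩ := hσ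
    exact ⟨d, hd, fun k hk => hφ.le_iff_le.1 (g2 _ ⟨k, hk, rfl⟩)⟩
  · have hlim : ∀ k < i, ∃ e < i, k < e := fun k hk =>
      (hn {k} (Set.countable_singleton k) (by simpa using hk)).imp fun e he => ⟨he.1, he.2 k rfl⟩
    have hcof : ∀ z < φ i, ∃ k < i, z < φ k := by
      obtain ⟨σ, g1, g2, g3⟩ := exists_lub (S := φ '' Iio i) (b := φ i) (by
        rintro _ ⟨k, hk, rfl⟩
        exact (hφ hk).le)
      have hσ : σ ∉ φ '' Iio i := by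
        rintro ⟨k, hk, rfl⟩
        obtain ⟨e, he, hke⟩ := hlim k hk
        exact absurd (g2 _ ⟨e, he, rfl⟩) (not_le.2 (hφ hke))
      obtain ⟨d, rfl⟩ := hcE σ fun e he => by
        obtain ⟨_, ⟨k, -, rfl⟩, h'⟩ := g3 hσ e he
        exact ⟨k, h'⟩
      obtain rfl : d = i := le_antisymm (hφ.le_iff_le.1 g1) (not_lt.1 fun h => hσ ⟨d, h, rfl⟩)
      intro z hz
      obtain ⟨_, ⟨k, hk, rfl⟩, h', -⟩ := g3 hσ z hz
      exact ⟨k, hk, h'⟩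
    have hU : Unc (φ i) := fun Z hZ h => by
      choose! k hk1 hk2 using hcof
      obtain ⟨e, he, h'⟩ := hn (k '' Z) (hZ.image k) (by
        rintro _ ⟨z, hz, rfl⟩
        exact hk1 z (h z hz))
      exact ⟨φ e, hφ he, fun z hz => (hk2 z (h z hz)).trans (hφ (h' _ ⟨z, hz, rfl⟩))⟩
    have hUn : ∀ x < φ i, ∃ r, R (φ i) r ∧ x < r := fun x hx =>
      R1 _ _ (hG1 _ (hφE i) (C.unb _ hU) x hx)
    have hG : ∀ x, ∃ k, x < φ i → φ k < φ i ∧ ∃ r, R (φ i) r ∧ x < r ∧ r < φ k := fun x => by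
      by_cases hx : x < φ i
      · obtain ⟨r, h1, h2⟩ := hUn x hx
        obtain ⟨k, h3, h4⟩ := hcof r (C.lt _ _ h1.1)
        exact ⟨k, fun _ => ⟨hφ h3, r, h1, h2, h4⟩⟩
      · exact ⟨x, fun h => absurd h hx⟩
    choose g hg using hG
    obtain ⟨u, σ, h1, h2, h3, h4, h5⟩ := J.exists_lim (fun x => x < φ i)
      (fun _ _ h h' => h.trans_lt h')
      (fun f hf => (hU _ (Set.countable_range f) (by rintro _ ⟨n, rfl⟩; exact hf n)).imp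
        fun b hb => ⟨hb.1, fun n => hb.2 _ ⟨n, rfl⟩⟩) (fun x => φ (g x))
      (fun x hx => ⟨(hg x hx).2.elim fun r hr => hr.2.1.trans hr.2.2, (hg x hx).1⟩) (hφ hb)
    have h6 : ∀ e < σ, ∃ k r, R (φ i) r ∧ e < r ∧ r < φ k ∧ φ k < σ := fun e he => by
      obtain ⟨n, hn⟩ := h5 e he
      obtain ⟨-, r, g1, g2, g3⟩ := hg (u n) ((h4 n).trans h1)
      exact ⟨g (u n), r, g1, hn.trans g2, g3, h3 n ▸ h4 (n + 1)⟩
    obtain ⟨d, rfl⟩ := hcE σ fun e he => by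
      obtain ⟨k, r, -, g1, g2, g3⟩ := h6 e he
      exact ⟨k, g1.trans g2, g3⟩
    refine ⟨d, ⟨h1, hUn, ⟨_, h4 0⟩, fun e he => ?_⟩, hφ.lt_iff_lt.1 (h2 ▸ h4 0)⟩
    obtain ⟨k, r, g0, g1, g2, g3⟩ := h6 e he
    exact ⟨r, g0, g1, g2.trans g3⟩
  · by_cases hU : ∀ x < φ i, ∃ r, R (φ i) r ∧ x < r
    · obtain ⟨r0, h0, hr0⟩ := hU (φ b) (hφ hb)
      have hnx : ∀ k, ∃ r, k < b → (R (φ i) r ∧ φ k ≤ r) ∧
          ∀ r', R (φ i) r' ∧ φ k ≤ r' → ¬ r' < r := fun k => by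
        by_cases hk : k < b
        · exact ((wellFounded_lt (α := L)).has_min {r | R (φ i) r ∧ φ k ≤ r}
            ⟨r0, h0, ((hφ hk).trans hr0).le⟩).imp fun r hr _ => hr
        · exact ⟨k, fun h => absurd h hk⟩
      choose nx hnx using hnx
      have hlt : ∀ k l, l < b → Ac (φ i) (φ l) → k < l → lab (nx k) < lab (nx l) := by
        intro k l hl hA hkl
        obtain ⟨r, g1, g2, g3⟩ := hA.2.2.2 (φ k) (hφ hkl)
        have hk := hnx k (hkl.trans hl)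
        exact hk.1.1.2.2 _ (hnx l hl).1.1.1 (hnx l hl).1.1.2.1
          (((not_lt.1 (hk.2 r ⟨g1, g2.le⟩)).trans_lt g3).trans_le (hnx l hl).1.2)
      refine Set.MapsTo.countable_of_injOn (f := fun k => lab (nx k)) (fun k hk => ?_)
        (fun k hk l hl h => ?_) (hW1 (lab r0))
      · have h1 := hnx k hk.2
        rcases (not_lt.1 (h1.2 r0 ⟨h0, ((hφ hk.2).trans hr0).le⟩)).eq_or_lt with g | g
        · exact (congrArg lab g).le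
        · exact (h1.1.1.2.2 r0 h0.1 h0.2.1 g).le
      · rcases lt_trichotomy k l with g | g | g
        · exact absurd h (hlt k l hl.2 hl.1 g).ne
        · exact g
        · exact absurd h (hlt l k hk.2 hk.1 g).ne'
    · exact Set.countable_empty.mono fun k hk => hU hk.1.2.1

end Pool.Agent.Lib.MP_40ade9_lc.K
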