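import Pool.Agent.Lib.MP_40ade9_lc.JMerge

/-! A tree order built by finitely many time-stamped commands along a coherent system of chains
(variant of `JTree` without positions). -/

set_option autoImplicit false

namespace Pool.Agent.Lib.MP_40ade9_lc.K

open Relation

/-- Ground-model data: a coherent system of closed chains of levels, and nodes. -/
structure Sys (L X : Type) [LinearOrder L] where
  A : L → Set L
  lad : L → Set L
  cap : L → Set X
  tm : L → ℕ
  h : X → L
  par : X → Option X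
  tag : X → ℕ
  mk' : L → Option X → ℕ → X
  A_lt : ∀ a, ∀ c ∈ A a, c < a
  A_coh : ∀ a, ∀ c ∈ A a, ∀ e ∈ A a, e < c → e ∈ A c
  A_sub : ∀ a, ∀ c ∈ A a, ∀ e ∈ A c, e ∈ A a
  A_max : ∀ a b, b < a → (∀ c ∈ A a, c ≤ b) → (A a).Nonempty → ∃ c, IsGreatest (A a) c
  lad_lt : ∀ a, ∀ c ∈ lad a, c < a
  lad_ct : ∀ a, (lad a).Countable
  lad_cof : ∀ a b, b < a → (∀ c ∈ A a, c ≤ b) → ∀ e < a, ∃ c ∈ lad a, e ≤ c
  cap_ct : ∀ a, (cap a).Countable
  h_mk : ∀ a o m, h (mk' a o m) = a
  tag_mk : ∀ a o m, (∀ v, o = some v → h v < a) → tag (mk' a o m) = m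
  par_mk : ∀ a o m, (∀ v, o = some v → h v < a) → par (mk' a o m) = o
  par_lt : ∀ x v, par x = some v → h v < h x

namespace Sys

variable {L X : Type} [LinearOrder L] (D : Sys L X)

/-- the hull operation -/
def F (t t' : X) : Set X :=
  {z | D.par t = some z} ∪ (Set.range (D.mk' (D.h t') none) ∪ Set.range (D.mk' (D.h t') (some t))) ∪
    (fun c => D.mk' c none 0) '' (D.lad (D.h t) ∪ {c | IsGreatest (D.A (D.h t)) c} ∪
      {c | IsLeast {e | e ∈ D.A (D.h t) ∧ D.h t' ≤ e} c}) ∪ D.cap (D.h t)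

theorem F_ct (t t' : X) : (D.F t t').Countable := by
  refine ((Set.Countable.union ?_ ((Set.countable_range _).union (Set.countable_range _))).union
    (Set.Countable.image (((D.lad_ct _).union ?_).union ?_) _)).union (D.cap_ct _)
  · exact Set.Subsingleton.countable fun a ha b hb => Option.some.inj (ha.symm.trans hb)
  · exact Set.Subsingleton.countable fun a ha b hb => ha.unique hb
  · exact Set.Subsingleton.countable fun a ha b hb => ha.unique hb

/-- closed sets of nodes -/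
def Closed (S : Set X) : Prop := ∀ t ∈ S, ∀ t' ∈ S, D.F t t' ⊆ S

/-- the hull of a node -/
def N (w : X) : Set X := {z | ∀ S, D.Closed S → w ∈ S → z ∈ S}

theorem self_mem_N (w : X) : w ∈ D.N w := fun _ _ h => h

theorem N_closed (w : X) : D.Closed (D.N w) := fun t ht t' ht' _ hz S hS hw =>
  hS t (ht S hS hw) t' (ht' S hS hw) hz

variable {D} in
theorem Closed.N_sub {S : Set X} (hS : D.Closed S) {w : X} (hw : w ∈ S) : D.N w ⊆ S :=
  fun _ hz => hz S hS hw

theorem N_ct (w : X) : (D.N w).Countable := by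
  obtain ⟨S, h1, h2, h3⟩ := J.exists_closed D.F D.F_ct w
  exact h1.mono (Closed.N_sub h3 h2)

/-- the level `a` occurs in `S` -/
def Lev (S : Set X) (a : L) : Prop := ∃ t ∈ S, D.h t = a

variable {D}

theorem Closed.par {S : Set X} (hS : D.Closed S) {t v : X} (ht : t ∈ S) (h : D.par t = some v) :
    v ∈ S := hS t ht t ht (Or.inl (Or.inl (Or.inl h)))

theorem Closed.mk_mem {S : Set X} (hS : D.Closed S) {a : L} (ha : D.Lev S a) {o : Option X}
    (ho : ∀ v, o = some v → v ∈ S) (m : ℕ) : D.mk' a o m ∈ S := by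
  obtain ⟨t', ht', rfl⟩ := ha
  cases o with
  | none => exact hS t' ht' t' ht' (Or.inl (Or.inl (Or.inr (Or.inl ⟨m, rfl⟩))))
  | some v => exact hS v (ho v rfl) t' ht' (Or.inl (Or.inl (Or.inr (Or.inr ⟨m, rfl⟩))))

theorem Closed.lev_lad {S : Set X} (hS : D.Closed S) {t : X} (ht : t ∈ S) {c : L}
    (hc : c ∈ D.lad (D.h t)) : D.Lev S c :=
  ⟨_, hS t ht t ht (Or.inl (Or.inr ⟨c, Or.inl (Or.inl hc), rfl⟩)), D.h_mk _ _ _⟩

theorem Closed.lev_max {S : Set X} (hS : D.Closed S) {t : X} (ht : t ∈ S) {c : L}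
    (hc : IsGreatest (D.A (D.h t)) c) : D.Lev S c :=
  ⟨_, hS t ht t ht (Or.inl (Or.inr ⟨c, Or.inl (Or.inr hc), rfl⟩)), D.h_mk _ _ _⟩

theorem Closed.lev_ent {S : Set X} (hS : D.Closed S) {t : X} (ht : t ∈ S) {b c : L}
    (hb : D.Lev S b) (hc : IsLeast {e | e ∈ D.A (D.h t) ∧ b ≤ e} c) : D.Lev S c := by
  obtain ⟨t', ht', rfl⟩ := hb
  exact ⟨_, hS t ht t' ht' (Or.inl (Or.inr ⟨c, Or.inr hc, rfl⟩)), D.h_mk _ _ _⟩

theorem Closed.cap_sub {S : Set X} (hS : D.Closed S) {t : X} (ht : t ∈ S) :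
    D.cap (D.h t) ⊆ S := fun _ hz => hS t ht t ht (Or.inr hz)

variable (D)

/-- enumeration of the hull -/
noncomputable def en (w : X) : ℕ → X := ((D.N_ct w).exists_eq_range ⟨w, D.self_mem_N w⟩).choose

theorem en_mem (w : X) (i : ℕ) : D.en w i ∈ D.N w := by
  rw [((D.N_ct w).exists_eq_range ⟨w, D.self_mem_N w⟩).choose_spec]
  exact ⟨i, rfl⟩

theorem en_surj {w z : X} (h : z ∈ D.N w) : ∃ i, D.en w i = z := by
  rw [((D.N_ct w).exists_eq_range ⟨w, D.self_mem_N w⟩).choose_spec] at h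
  exact h

/-- commands: a tag, an address, a mode, an index and a time stamp -/
abbrev Cmd : Type := ℕ × List (ℕ × Bool) × Bool × ℕ × ℕ

/-- ground-model predecessors -/
def B0 (z x : X) : Prop :=
  D.par x = some z ∨ ∃ c ∈ D.A (D.h x), (∀ v, D.par x = some v → D.h v < c) ∧
    z = D.mk' c (D.par x) (D.tag x)

/-- the target of a command -/
noncomputable def tg (c : Cmd) (x : X) : X :=
  if c.2.2.1 then D.en x c.2.2.2.1 else D.mk' (D.h (D.en x c.2.2.2.1)) (D.par x) (D.tag x)

variable (adr : X → ℕ → Bool)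

/-- the command addresses the node -/
def act (c : Cmd) (x : X) : Prop :=
  D.tag x = c.1 ∧ (∀ e ∈ c.2.1, adr x e.1 = e.2) ∧ D.tm (D.h x) = c.2.2.2.2

/-- jumps made so far -/
def Jm : List Cmd → X → X → Prop
  | [] => fun _ _ => False
  | c :: s => fun z x => Jm s z x ∨ (D.act adr c x ∧ z = D.tg c x ∧ D.h z < D.h x ∧
      ∀ z', (D.B0 z' x ∨ Jm s z' x) → TransGen (fun a b => D.B0 a b ∨ Jm s a b) z' z)

/-- declared predecessors -/
def Ba (s : List Cmd) (z x : X) : Prop := D.B0 z x ∨ D.Jm adr s z x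

/-- the order after the commands `s` -/
def R (s : List Cmd) : X → X → Prop := TransGen (D.Ba adr s)

variable {D adr}

theorem Jm_cons {c : Cmd} {s : List Cmd} {z x : X} : D.Jm adr (c :: s) z x ↔ D.Jm adr s z x ∨
    (D.act adr c x ∧ z = D.tg c x ∧ D.h z < D.h x ∧ ∀ z', D.Ba adr s z' x → D.R adr s z' z) :=
  Iff.rfl

theorem B0.lt {z x : X} (h : D.B0 z x) : D.h z < D.h x := by
  rcases h with h | ⟨c, hc, -, rfl⟩
  · exact D.par_lt _ _ h
  · rw [D.h_mk]; exact D.A_lt _ _ hc

theorem Jm.lt {s : List Cmd} {z x : X} (h : D.Jm adr s z x) : D.h z < D.h x := by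
  induction s with
  | nil => exact h.elim
  | cons c s ih => exact h.elim ih fun h => h.2.2.1

theorem Ba.lt {s : List Cmd} {z x : X} (h : D.Ba adr s z x) : D.h z < D.h x :=
  h.elim B0.lt Jm.lt

theorem R.lt {s : List Cmd} {z x : X} (h : D.R adr s z x) : D.h z < D.h x := by
  induction h with
  | single h => exact h.lt
  | tail _ h ih => exact ih.trans h.lt

theorem Jm.mono {s s' : List Cmd} {z x : X} (h : D.Jm adr s z x) (hs : s <:+ s') :
    D.Jm adr s' z x := by
  obtain ⟨t, rfl⟩ := hs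
  induction t with
  | nil => exact h
  | cons c t ih => exact Or.inl ih

theorem Ba.mono {s s' : List Cmd} {z x : X} (h : D.Ba adr s z x) (hs : s <:+ s') :
    D.Ba adr s' z x := h.imp id fun h => h.mono hs

theorem R.mono {s s' : List Cmd} {z x : X} (h : D.R adr s z x) (hs : s <:+ s') :
    D.R adr s' z x := by
  induction h with
  | single h => exact TransGen.single (h.mono hs)
  | tail _ h ih => exact TransGen.tail ih (h.mono hs)

theorem Ba.R {s : List Cmd} {z x : X} (h : D.Ba adr s z x) : D.R adr s z x := TransGen.single h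

theorem B0.R {s : List Cmd} {z x : X} (h : D.B0 z x) : D.R adr s z x := TransGen.single (Or.inl h)

theorem R.trans {s : List Cmd} {x y z : X} (h : D.R adr s x y) (h' : D.R adr s y z) :
    D.R adr s x z := TransGen.trans h h'

theorem R.cases {s : List Cmd} {u x : X} (h : D.R adr s u x) :
    ∃ z, D.Ba adr s z x ∧ (u = z ∨ D.R adr s u z) := by
  cases h with
  | single h => exact ⟨u, h, Or.inl rfl⟩
  | tail h1 h2 => exact ⟨_, h2, Or.inr h1⟩

theorem Jm.mem_N {s : List Cmd} {z x : X} (h : D.Jm adr s z x) : z ∈ D.N x := by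
  induction s with
  | nil => exact h.elim
  | cons c s ih =>
    rcases h with h | ⟨-, rfl, -⟩
    · exact ih h
    · unfold tg
      split_ifs
      · exact D.en_mem _ _
      · exact (D.N_closed x).mk_mem ⟨_, D.en_mem _ _, rfl⟩
          (fun v hv => (D.N_closed x).par (D.self_mem_N x) hv) _

theorem B0_par {a : L} {v : X} {m : ℕ} (h : D.h v < a) : D.B0 v (D.mk' a (some v) m) :=
  Or.inl (D.par_mk _ _ _ fun _ hv => Option.some.inj hv ▸ h)

theorem B0_chain {a c : L} {o : Option X} {m : ℕ} (hc : c ∈ D.A a)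
    (ho : ∀ v, o = some v → D.h v < c) : D.B0 (D.mk' c o m) (D.mk' a o m) := by
  have ho' : ∀ v, o = some v → D.h v < a := fun v hv => (ho v hv).trans (D.A_lt _ _ hc)
  refine Or.inr ⟨c, by rwa [D.h_mk], ?_, ?_⟩
  · rwa [D.par_mk _ _ _ ho']
  · rw [D.par_mk _ _ _ ho', D.tag_mk _ _ _ ho']

theorem B0.cmp {s : List Cmd} {z z' x : X} (h : D.B0 z x) (h' : D.B0 z' x) :
    z = z' ∨ D.R adr s z z' ∨ D.R adr s z' z := by
  rcases h with h | ⟨c, hc, h1, rfl⟩ <;> rcases h' with h' | ⟨c', hc', h1', rfl⟩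
  · exact Or.inl (Option.some.inj (h.symm.trans h'))
  · rw [h]; exact Or.inr (Or.inl (B0_par (h1' z h)).R)
  · rw [h']; exact Or.inr (Or.inr (B0_par (h1 z' h')).R)
  · rcases lt_trichotomy c c' with hlt | rfl | hlt
    · exact Or.inr (Or.inl (B0_chain (D.A_coh _ _ hc' _ hc hlt) h1).R)
    · exact Or.inl rfl
    · exact Or.inr (Or.inr (B0_chain (D.A_coh _ _ hc _ hc' hlt) h1').R)

theorem Ba.cmp {s : List Cmd} {z z' x : X} (h : D.Ba adr s z x) (h' : D.Ba adr s z' x) :
    z = z' ∨ D.R adr s z z' ∨ D.R adr s z' z := by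
  induction s with
  | nil => exact (h.resolve_right id).cmp (h'.resolve_right id)
  | cons c s ih =>
    have hs : s <:+ c :: s := List.suffix_cons c s
    have e : ∀ {u}, D.Ba adr (c :: s) u x → D.Ba adr s u x ∨ (u = D.tg c x ∧
        ∀ z', D.Ba adr s z' x → D.R adr s z' u) := fun {u} hu => by
      rcases hu with hu | hu | hu
      · exact Or.inl (Or.inl hu)
      · exact Or.inl (Or.inr hu)
      · exact Or.inr ⟨hu.2.1, hu.2.2.2⟩
    rcases e h with g | g <;> rcases e h' with g' | g'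
    · exact (ih g g').imp id (Or.imp (fun h => h.mono hs) fun h => h.mono hs)
    · exact Or.inr (Or.inl ((g'.2 z g).mono hs))
    · exact Or.inr (Or.inr ((g.2 z' g').mono hs))
    · exact Or.inl (g.1.trans g'.1.symm)

theorem le_trans' {s : List Cmd} {x y z : X} (h : x = y ∨ D.R adr s x y) (h' : D.R adr s y z) :
    D.R adr s x z := h.elim (fun h => h ▸ h') fun h => h.trans h'

theorem lt_le' {s : List Cmd} {x y z : X} (h : D.R adr s x y) (h' : y = z ∨ D.R adr s y z) :
    D.R adr s x z := h'.elim (fun h' => h' ▸ h) fun h' => h.trans h'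

theorem le_le' {s : List Cmd} {x y z : X} (h : x = y ∨ D.R adr s x y)
    (h' : y = z ∨ D.R adr s y z) : x = z ∨ D.R adr s x z :=
  h.elim (fun h => h ▸ h') fun h => Or.inr (lt_le' h h')

theorem le_mono' {s s' : List Cmd} {x y : X} (h : x = y ∨ D.R adr s x y) (hs : s <:+ s') :
    x = y ∨ D.R adr s' x y := h.imp id fun h => h.mono hs

variable [WellFoundedLT L]

theorem R.cmp {s : List Cmd} {u u' x : X} (h : D.R adr s u x) (h' : D.R adr s u' x) :
    u = u' ∨ D.R adr s u u' ∨ D.R adr s u' u := by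
  induction hx : D.h x using WellFoundedLT.induction generalizing x with
  | ind a ih =>
    subst hx
    have key : ∀ z, D.h z < D.h x → (u = z ∨ D.R adr s u z) → (u' = z ∨ D.R adr s u' z) →
        u = u' ∨ D.R adr s u u' ∨ D.R adr s u' u := by
      rintro z hz (g | g) (g' | g')
      · exact Or.inl (g.trans g'.symm)
      · exact Or.inr (Or.inr (g ▸ g'))
      · exact Or.inr (Or.inl (g' ▸ g))
      · exact ih _ hz g g' rfl
    obtain ⟨z, hz, g⟩ := h.cases
    obtain ⟨z', hz', g'⟩ := h'.cases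
    rcases hz.cmp hz' with e | e | e
    · exact key z hz.lt g (e ▸ g')
    · exact key z' hz'.lt (Or.inr (le_trans' g e)) g'
    · exact key z hz.lt g (Or.inr (le_trans' g' e))

theorem R.unique {s : List Cmd} {u u' x : X} (h : D.R adr s u x) (h' : D.R adr s u' x)
    (e : D.h u = D.h u') : u = u' := by
  rcases h.cmp h' with g | g | g
  · exact g
  · exact absurd g.lt (e ▸ lt_irrefl _)
  · exact absurd g.lt (e ▸ lt_irrefl _)

/-- The least node below `y` at or above a given level. -/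
theorem exists_gap {S : Set X} (hS : D.Closed S) (s : List Cmd) {b : L} (hb : D.Lev S b)
    {y : X} (hy : y ∈ S) (hby : b ≤ D.h y) : ∃ w ∈ S, (w = y ∨ D.R adr s w y) ∧ b ≤ D.h w ∧
      ∀ z, D.Ba adr s z w → D.h z < b := by
  induction hx : D.h y using WellFoundedLT.induction generalizing y with
  | ind a ih =>
    subst hx
    by_cases hc : ∀ z, D.Ba adr s z y → D.h z < b
    · exact ⟨y, hy, Or.inl rfl, hby, hc⟩
    push Not at hc
    obtain ⟨z, hz, hbz⟩ := hc
    obtain ⟨z, hzS, hz, hbz⟩ : ∃ z ∈ S, D.Ba adr s z y ∧ b ≤ D.h z := by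
      by_cases hp : ∃ v, D.par y = some v ∧ b ≤ D.h v
      · obtain ⟨v, h1, h2⟩ := hp
        exact ⟨v, hS.par hy h1, Or.inl (Or.inl h1), h2⟩
      push Not at hp
      rcases hz with (hz | ⟨c, hc, -, rfl⟩) | hz
      · exact absurd hbz (not_le.2 (hp z hz))
      · rw [D.h_mk] at hbz
        obtain ⟨e, he, hmin⟩ := (wellFounded_lt (α := L)).has_min
          {e | e ∈ D.A (D.h y) ∧ b ≤ e} ⟨c, hc, hbz⟩
        refine ⟨D.mk' e (D.par y) (D.tag y), hS.mk_mem (hS.lev_ent hy hb
          ⟨he, fun e' he' => not_lt.1 (hmin e' he')⟩) (fun v hv => hS.par hy hv) _,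
          Or.inl (Or.inr ⟨e, he.1, fun v hv => (hp v hv).trans_le he.2, rfl⟩), ?_⟩
        rw [D.h_mk]; exact he.2
      · exact ⟨z, hS.N_sub hy hz.mem_N, Or.inr hz, hbz⟩
    obtain ⟨w, hw, h1, h2⟩ := ih _ hz.lt hzS hbz rfl
    exact ⟨w, hw, Or.inr (le_trans' h1 hz.R), h2⟩

omit [WellFoundedLT L] in
theorem A_bound {s : List Cmd} {w : X} {b : L} (h : ∀ z, D.Ba adr s z w → D.h z < b) :
    ∀ c ∈ D.A (D.h w), c < b := by
  intro c hc
  by_cases hp : ∀ v, D.par w = some v → D.h v < c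
  · have := h _ (Or.inl (Or.inr ⟨c, hc, hp, rfl⟩))
    rwa [D.h_mk] at this
  · push Not at hp
    obtain ⟨v, h1, h2⟩ := hp
    exact h2.trans_lt (h v (Or.inl (Or.inl h1)))

omit [WellFoundedLT L] in
/-- The current position of a node whose ground-model chain is bounded. -/
theorem exists_top (s : List Cmd) {w : X} {b : L} (hb : b < D.h w)
    (h : ∀ c ∈ D.A (D.h w), c ≤ b) : ∃ o : Option X, (∀ v, o = some v → D.Ba adr s v w ∧ v ∈ D.N w) ∧
      ∀ z, D.Ba adr s z w → ∃ v, o = some v ∧ (z = v ∨ D.R adr s z v) := by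
  induction s with
  | nil =>
    by_cases hc : ∃ c ∈ D.A (D.h w), ∀ v, D.par w = some v → D.h v < c
    · obtain ⟨c, hc, hp⟩ := hc
      obtain ⟨e, he⟩ := D.A_max _ _ hb h ⟨c, hc⟩
      have hp' : ∀ v, D.par w = some v → D.h v < e := fun v hv => (hp v hv).trans_le (he.2 hc)
      have hB : D.B0 (D.mk' e (D.par w) (D.tag w)) w := Or.inr ⟨e, he.1, hp', rfl⟩
      refine ⟨some (D.mk' e (D.par w) (D.tag w)), ?_, fun z hz => ⟨_, rfl, ?_⟩⟩
      · rintro v ⟨rfl⟩
        exact ⟨Or.inl hB, (D.N_closed w).mk_mem ((D.N_closed w).lev_max (D.self_mem_N w) he)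
          (fun v hv => (D.N_closed w).par (D.self_mem_N w) hv) _⟩
      · have hz' := hz.resolve_right id
        rcases hz'.cmp (adr := adr) (s := []) hB with g | g | g
        · exact Or.inl g
        · exact Or.inr g
        · exfalso
          have g1 := g.lt
          rw [D.h_mk] at g1
          rcases hz' with hz' | ⟨c', hc', -, rfl⟩
          · exact lt_asymm g1 (hp' z hz')
          · rw [D.h_mk] at g1
            exact absurd (he.2 hc') (not_le.2 g1)
    · refine ⟨D.par w, fun v hv => ⟨Or.inl (Or.inl hv),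
        (D.N_closed w).par (D.self_mem_N w) hv⟩, fun z hz => ?_⟩
      rcases hz.resolve_right id with hz | ⟨c, h1, h2, -⟩
      · exact ⟨z, hz, Or.inl rfl⟩
      · exact absurd ⟨c, h1, h2⟩ hc
  | cons c s ih =>
    have hs : s <:+ c :: s := List.suffix_cons c s
    by_cases hj : D.act adr c w ∧ D.h (D.tg c w) < D.h w ∧
        ∀ z', D.Ba adr s z' w → D.R adr s z' (D.tg c w)
    · have hJ : D.Jm adr (c :: s) (D.tg c w) w := Or.inr ⟨hj.1, rfl, hj.2⟩
      refine ⟨some (D.tg c w), ?_, fun z hz => ⟨_, rfl, ?_⟩⟩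
      · rintro v ⟨rfl⟩
        exact ⟨Or.inr hJ, hJ.mem_N⟩
      · rcases hz with hz | hz | hz
        · exact Or.inr ((hj.2.2 z (Or.inl hz)).mono hs)
        · exact Or.inr ((hj.2.2 z (Or.inr hz)).mono hs)
        · exact Or.inl hz.2.1
    · obtain ⟨o, h1, h2⟩ := ih
      refine ⟨o, fun v hv => ⟨(h1 v hv).1.mono hs, (h1 v hv).2⟩, fun z hz => ?_⟩
      have : D.Ba adr s z w := by
        rcases hz with hz | hz | ⟨g1, rfl, g2⟩
        · exact Or.inl hz
        · exact Or.inr hz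
        · exact absurd ⟨g1, g2⟩ hj
      obtain ⟨v, g1, g2⟩ := h2 z this
      exact ⟨v, g1, le_mono' g2 hs⟩

end Sys

end Pool.Agent.Lib.MP_40ade9_lc.K
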