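import Pool.Agent.Lib.MP_40ade9_lc.Souslin

/-! From `□(ω₂)` to a ladder system, the Cohen real, and the main theorem. -/

set_option autoImplicit false

namespace Pool.Agent.Lib.MP_40ade9_lc

open Ordinal Cardinal Set

/-! ### The Cohen real -/

instance : Countable Cohen :=
  Function.Injective.countable (f := Cohen.graph) fun p q h => by
    cases p; cases q; congr

/-- the empty condition -/
def Cohen.one : Cohen := ⟨∅, by simp⟩

theorem Cohen.le_one (p : Cohen) : p ≤ Cohen.one := Finset.empty_subset _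

/-- The `m`-th column of the Cohen real has its first `1` at position `k`. -/
noncomputable def cohenGen : Gen Cohen where
  K p m k := (∀ j < k, (Nat.pair m j, false) ∈ p.graph) ∧ (Nat.pair m k, true) ∈ p.graph
  mono _ _ _ _ h hq := ⟨fun j hj => hq (h.1 j hj), hq h.2⟩
  func p m k k' h h' := by
    rcases lt_trichotomy k k' with hlt | heq | hlt
    · exact absurd (p.func _ _ _ h.2 (h'.1 k hlt)) (by simp)
    · exact heq
    · exact absurd (p.func _ _ _ h'.2 (h.1 k' hlt)) (by simp)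
  dense p m := by
    classical
    have hex : ∃ k, (Nat.pair m k, false) ∉ p.graph := by
      by_contra hc
      push Not at hc
      refine Set.infinite_of_injective_forall_mem (s := (p.graph : Set (ℕ × Bool)))
        (f := fun k : ℕ => (Nat.pair m k, false)) (fun k k' h => ?_) hc p.graph.finite_toSet
      simpa using h
    refine ⟨⟨insert (Nat.pair m (Nat.find hex), true) p.graph, fun n a b ha hb => ?_⟩,
      Finset.subset_insert _ _, Nat.find hex, fun j hj => ?_, Finset.mem_insert_self _ _⟩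
    · have h0 := Nat.find_spec hex
      simp only [Finset.mem_insert, Prod.mk.injEq] at ha hb
      rcases ha with ⟨rfl, rfl⟩ | ha <;> rcases hb with ⟨hb1, rfl⟩ | hb
      · rfl
      · cases b
        · exact absurd hb h0
        · rfl
      · subst hb1
        cases a
        · exact absurd ha h0
        · rfl
      · exact p.func _ _ _ ha hb
    · exact Finset.mem_insert_of_mem (not_not.1 (Nat.find_min hex hj))
  top := Cohen.one
  le_top := Cohen.le_one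
  T p := p.graph.image fun x => x.1.unpair.1
  meet p p' q h h' := ⟨⟨p.graph ∪ p'.graph, fun n a b ha hb => q.func n a b
    (Finset.union_subset h h' ha) (Finset.union_subset h h' hb)⟩, Finset.subset_union_left,
    Finset.subset_union_right, by rw [Finset.image_union]⟩
  free p m hm k := by
    classical
    have hno : ∀ j a, (Nat.pair m j, a) ∉ p.graph := fun j a h =>
      hm (Finset.mem_image.2 ⟨_, h, by simp⟩)
    refine ⟨⟨p.graph ∪ (Finset.range (k + 1)).image fun j => (Nat.pair m j, decide (j = k)),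
      fun n a b ha hb => ?_⟩, Finset.subset_union_left, fun j hj => ?_, ?_⟩
    · simp only [Finset.mem_union, Finset.mem_image, Prod.mk.injEq] at ha hb
      rcases ha with ha | ⟨j, -, rfl, rfl⟩ <;> rcases hb with hb | ⟨j', -, hj', rfl⟩
      · exact p.func _ _ _ ha hb
      · exact absurd (hj' ▸ ha) (hno _ _)
      · exact absurd hb (hno _ _)
      · rw [(Nat.pair_eq_pair.1 hj').2]
    · refine Finset.mem_union_right _ (Finset.mem_image.2 ⟨j, Finset.mem_range.2 (by omega), ?_⟩)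
      simp [hj.ne]
    · exact Finset.mem_union_right _ (Finset.mem_image.2 ⟨k, Finset.mem_range.2 (by omega), by simp⟩)

/-! ### Guessing gaps -/

theorem IsAccPt.isSuccLimit {C : Set Ordinal.{0}} {β : Ordinal.{0}} (h : IsAccPt C β) :
    Order.IsSuccLimit β := by
  rw [Ordinal.isSuccLimit_iff]
  refine ⟨h.1.ne', Order.isSuccPrelimit_iff_succ_lt.2 fun b hb => ?_⟩
  obtain ⟨γ, -, h1, h2⟩ := h.2 b hb
  exact (Order.succ_le_of_lt h1).trans_lt h2

theorem exists_gap {C : Set Ordinal.{0}} {α e η0 : Ordinal.{0}} (hC : IsClubIn C α) (he : e < α)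
    (hacc : ¬ IsAccPt C e) (h0 : η0 ∈ C) (h0e : η0 < e) :
    ∃ η ∈ C, ∃ β ∈ C, η0 ≤ η ∧ η < e ∧ e ≤ β ∧ ∀ w ∈ C, η < w → β ≤ w := by
  have h1 : ∃ ζ < e, ∀ γ ∈ C, ζ < γ → e ≤ γ := by
    by_contra hc
    push Not at hc
    exact hacc ⟨zero_le.trans_lt h0e, hc⟩
  obtain ⟨ζ, hζ, hζ'⟩ := h1
  obtain ⟨β, ⟨hβ, hβe⟩, hβmin⟩ := (wellFounded_lt (α := Ordinal.{0})).has_min
    {γ | γ ∈ C ∧ e ≤ γ} ((hC.2.1 e he).imp fun γ h => ⟨h.1, h.2.le⟩)
  obtain ⟨η, hη, hηmin⟩ := (wellFounded_lt (α := Ordinal.{0})).has_min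
    {u | ∀ γ ∈ C, γ < e → γ ≤ u} ⟨ζ, fun γ hγ hγe => not_lt.1 fun h =>
      absurd (hζ' γ hγ h) (not_le.2 hγe)⟩
  have hηζ : η ≤ ζ := not_lt.1 (hηmin ζ fun γ hγ hγe => not_lt.1 fun h =>
      absurd (hζ' γ hγ h) (not_le.2 hγe))
  have hηe : η < e := hηζ.trans_lt hζ
  have hηC : η ∈ C := by
    by_contra hn
    refine hn (hC.2.2 η (hηe.trans he) ⟨?_, fun ξ hξ => ?_⟩)
    · rcases (hη η0 h0 h0e).lt_or_eq with h | h
      · exact zero_le.trans_lt h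
      · exact absurd (h ▸ h0) hn
    · have := hηmin ξ
      by_contra hc
      push Not at hc
      refine this (fun γ hγ hγe => not_lt.1 fun h => ?_) hξ
      exact hn ((le_antisymm (hη γ hγ hγe) (hc γ hγ h)) ▸ hγ)
  refine ⟨η, hηC, β, hβ, hη η0 h0 h0e, hηe, hβe, fun w hw hηw => ?_⟩
  exact not_lt.1 (hβmin w ⟨hw, not_lt.1 fun h => absurd (hη w hw h) (not_le.2 hηw)⟩)

/-- least strict upper bound of a strictly increasing sequence -/
theorem exists_limit {κ : Ordinal.{0}} (hκ : ∀ a : ℕ → Ordinal.{0}, (∀ n, a n < κ) →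
    ∃ b < κ, ∀ n, a n < b) (G : Ordinal.{0} → Ordinal.{0}) (hG : ∀ η < κ, η < G η ∧ G η < κ)
    {ξ : Ordinal.{0}} (hξ : ξ < κ) : ∃ (a : ℕ → Ordinal.{0}) (α : Ordinal.{0}), α < κ ∧
      a 0 = ξ ∧ (∀ n, a (n + 1) = G (a n)) ∧ (∀ n, a n < α) ∧ ∀ b < α, ∃ n, b < a n := by
  let a : ℕ → Ordinal.{0} := fun n => G^[n] ξ
  have ha : ∀ n, a (n + 1) = G (a n) := fun n => Function.iterate_succ_apply' G n ξ
  have hlt : ∀ n, a n < κ := by
    intro n
    induction n with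
    | zero => exact hξ
    | succ n ih => rw [ha]; exact (hG _ ih).2
  obtain ⟨b, hb, hab⟩ := hκ a hlt
  obtain ⟨α, hα, hmin⟩ := (wellFounded_lt (α := Ordinal.{0})).has_min {u | ∀ n, a n < u} ⟨b, hab⟩
  refine ⟨a, α, (not_lt.1 (hmin b hab)).trans_lt hb, rfl, ha, hα, fun c hc => ?_⟩
  have := fun h => hmin c h hc
  simp only [mem_ofPred_eq, imp_false, not_forall, not_lt] at this
  obtain ⟨n, hn⟩ := this
  exact ⟨n + 1, hn.trans_lt (ha n ▸ (hG _ (hlt n)).1)⟩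

theorem guess_gaps {κ : Ordinal.{0}} (h0 : 0 < κ)
    (hκ : ∀ a : ℕ → Ordinal.{0}, (∀ n, a n < κ) → ∃ b < κ, ∀ n, a n < b)
    (hreg : ∀ F : Ordinal.{0} → Ordinal.{0}, (∀ η < κ, F η < κ) → ∀ ξ < κ, ∃ b < κ,
      ∀ η ≤ ξ, F η < b)
    {C : Ordinal.{0} → Set Ordinal.{0}}
    (hC1 : ∀ α < κ, Order.IsSuccLimit α → IsClubIn (C α) α)
    (hC2 : ∀ α < κ, Order.IsSuccLimit α → ∀ β < α, IsAccPt (C α) β → C β = C α ∩ Set.Iio β)
    (hC3 : ¬ ∃ D, IsClubIn D κ ∧ ∀ α < κ, IsAccPt D α → D ∩ Set.Iio α = C α)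
    (F : Ordinal.{0} → Ordinal.{0}) (hF : ∀ η < κ, F η < κ) :
    ∃ α < κ, Order.IsSuccLimit α ∧ ∃ e c : ℕ → Ordinal.{0}, (∀ k, e k ∈ C α ∧ c k ∈ C α ∧
      e k < c k ∧ (∀ w ∈ C α, e k < w → c k ≤ w) ∧ F (e k) < c k) ∧ ∀ b < α, ∃ k, b < e k := by
  -- closure points of `F`
  let E : Set Ordinal.{0} := {e | e < κ ∧ Order.IsSuccLimit e ∧ ∀ η < e, F η < e}
  have hlim : ∀ (a : ℕ → Ordinal.{0}) (α : Ordinal.{0}), (∀ n, a n < α) →
      (∀ b < α, ∃ n, b < a n) → Order.IsSuccLimit α := fun a α h1 h2 =>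
    IsAccPt.isSuccLimit (C := range a) ⟨zero_le.trans_lt (h1 0), fun ξ hξ =>
      (h2 ξ hξ).elim fun n hn => ⟨a n, ⟨n, rfl⟩, hn, h1 n⟩⟩
  have hE : ∀ ξ < κ, ∃ e ∈ E, ξ < e := by
    intro ξ hξ
    choose! G hG1 hG2 using hreg (fun η => max (F η) η) (fun η hη => max_lt (hF η hη) hη)
    obtain ⟨a, α, h1, h2, h3, h4, h5⟩ := exists_limit hκ G (fun η hη =>
      ⟨(le_max_right _ _).trans_lt (hG2 η hη η le_rfl), hG1 η hη⟩) hξ
    refine ⟨α, ⟨h1, hlim a α h4 h5, fun η hη => ?_⟩, h2 ▸ h4 0⟩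
    obtain ⟨n, hn⟩ := h5 η hη
    exact ((le_max_left _ _).trans_lt (hG2 (a n) ((h4 n).trans h1) η hn.le)).trans
      (h3 n ▸ h4 (n + 1))
  have hbd : ∀ ε < κ, ∃ g < κ, ∀ α ∈ E, g ≤ α → ε < α →
      ∃ e ∈ E, ε < e ∧ e < α ∧ ¬ IsAccPt (C α) e := by
    intro ε hε
    by_contra hc
    push Not at hc
    let S : Set Ordinal.{0} := {α | α ∈ E ∧ ε < α ∧ ∀ e ∈ E, ε < e → e < α → IsAccPt (C α) e}
    have hS : ∀ g < κ, ∃ α ∈ S, g < α := by
      intro g hg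
      obtain ⟨g', hg', hgg⟩ := hκ (fun _ => g) (fun _ => hg)
      obtain ⟨α, h1, h2, h3, h4⟩ := hc g' hg'
      exact ⟨α, ⟨h1, h3, h4⟩, (hgg 0).trans_le h2⟩
    have hcoh : ∀ α ∈ S, ∀ α' ∈ S, α < α' → C α = C α' ∩ Set.Iio α := fun α hα α' hα' hlt =>
      hC2 α' hα'.1.1 hα'.1.2.1 α hlt (hα'.2.2 α hα.1 hα.2.1 hlt)
    let D : Set Ordinal.{0} := {γ | ∃ α ∈ S, γ ∈ C α}
    have hD : ∀ α ∈ S, ∀ γ < α, γ ∈ D ↔ γ ∈ C α := by
      intro α hα γ hγ
      refine ⟨fun ⟨α', hα', h⟩ => ?_, fun h => ⟨α, hα, h⟩⟩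
      rcases lt_trichotomy α α' with hlt | heq | hlt
      · rw [hcoh α hα α' hα' hlt]
        exact ⟨h, hγ⟩
      · exact heq ▸ h
      · rw [hcoh α' hα' α hα hlt] at h
        exact h.1
    have hacc : ∀ α ∈ S, ∀ β < α, IsAccPt D β → IsAccPt (C α) β := fun α hα β hβ h =>
      ⟨h.1, fun ξ hξ => (h.2 ξ hξ).imp fun γ hγ =>
        ⟨(hD α hα γ (hγ.2.2.trans hβ)).1 hγ.1, hγ.2⟩⟩
    refine hC3 ⟨D, ⟨?_, fun ξ hξ => ?_, fun β hβ h => ?_⟩, fun β hβ h => ?_⟩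
    · rintro γ ⟨α, hα, h⟩
      exact lt_trans ((hC1 α hα.1.1 hα.1.2.1).1 h) hα.1.1
    · obtain ⟨α, hα, h⟩ := hS ξ hξ
      obtain ⟨γ, hγ, h'⟩ := (hC1 α hα.1.1 hα.1.2.1).2.1 ξ h
      exact ⟨γ, ⟨α, hα, hγ⟩, h'⟩
    · obtain ⟨α, hα, h'⟩ := hS β hβ
      exact ⟨α, hα, (hC1 α hα.1.1 hα.1.2.1).2.2 β h' (hacc α hα β h' h)⟩
    · obtain ⟨α, hα, h'⟩ := hS β hβ
      rw [hC2 α hα.1.1 hα.1.2.1 β h' (hacc α hα β h' h)]
      ext γ
      exact and_congr_left fun hγ => hD α hα γ (lt_trans hγ h')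
  choose! g hg1 hg2 using hbd
  choose! nx hnx1 hnx2 using hE
  obtain ⟨a, α, h1, -, h3, h4, h5⟩ := exists_limit hκ (fun η => nx (max η (g η))) (fun η hη =>
    ⟨(le_max_left _ _).trans_lt (hnx2 _ (max_lt hη (hg1 η hη))),
      (hnx1 _ (max_lt hη (hg1 η hη))).1⟩) h0
  have hak : ∀ n, max (a n) (g (a n)) < κ := fun n =>
    max_lt ((h4 n).trans h1) (hg1 _ ((h4 n).trans h1))
  have hαlim := hlim a α h4 h5
  have hαE : α ∈ E := by
    refine ⟨h1, hαlim, fun η hη => ?_⟩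
    obtain ⟨n, hn⟩ := h5 η hη
    have := (hnx1 _ (hak n)).2.2 η (hn.trans ((le_max_left _ _).trans_lt (hnx2 _ (hak n))))
    exact this.trans (h3 n ▸ h4 (n + 1))
  have hclub := hC1 α h1 hαlim
  have key : ∀ k, ∃ η β, (η ∈ C α ∧ β ∈ C α ∧ η < β ∧ (∀ w ∈ C α, η < w → β ≤ w) ∧ F η < β) ∧
      a k < η := by
    intro k
    obtain ⟨η0, hη0, hk⟩ := hclub.2.1 (a k) (h4 k)
    obtain ⟨n, hn⟩ := h5 η0 (hclub.1 hη0)
    obtain ⟨e, he, h6, h7, h8⟩ := hg2 (a n) ((h4 n).trans h1) α hαE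
      (((le_max_right _ _).trans_lt (hnx2 _ (hak n))).trans (h3 n ▸ h4 (n + 1))).le (h4 n)
    obtain ⟨η, hη, β, hβ, g1, g2, g3, g4⟩ := exists_gap hclub h7 h8 hη0 (hn.trans h6)
    exact ⟨η, β, ⟨hη, hβ, g2.trans_le g3, g4, (he.2.2 η g2).trans_le g3⟩, hk.trans_le g1⟩
  choose e c hec hae using key
  exact ⟨α, h1, hαlim, e, c, hec, fun b hb => (h5 b hb).imp fun k hk => hk.trans (hae k)⟩

theorem exists_ladder {κ : Ordinal.{0}} {L : Type} [LinearOrder L] {lv : L → Ordinal.{0}}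
    (hlv : StrictMono lv) (hr : ∀ ξ, ξ < κ ↔ ∃ a, lv a = ξ) (h0 : 0 < κ)
    (hκ : ∀ a : ℕ → Ordinal.{0}, (∀ n, a n < κ) → ∃ b < κ, ∀ n, a n < b)
    (hreg : ∀ F : Ordinal.{0} → Ordinal.{0}, (∀ η < κ, F η < κ) → ∀ ξ < κ, ∃ b < κ,
      ∀ η ≤ ξ, F η < b) (hsq : Square κ) : Nonempty (Ladder L) := by
  classical
  obtain ⟨C, hC1, hC2, hC3⟩ := hsq
  have hlt : ∀ a, lv a < κ := fun a => (hr _).2 ⟨a, rfl⟩
  have hnl : ∀ {ξ α : Ordinal.{0}}, ξ + 1 = α → ¬ Order.IsSuccLimit α := fun {ξ α} h h' =>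
    Order.not_isSuccLimit_succ ξ (by rw [Order.succ_eq_add_one, h]; exact h')
  let C' : L → Set L := fun a =>
    {c | (Order.IsSuccLimit (lv a) ∧ lv c ∈ C (lv a)) ∨ lv c + 1 = lv a}
  have hC' : ∀ a, Order.IsSuccLimit (lv a) → ∀ c, c ∈ C' a ↔ lv c ∈ C (lv a) := fun a ha c =>
    ⟨fun h => h.elim (fun h => h.2) (fun h => absurd ha (hnl h)), fun h => Or.inl ⟨ha, h⟩⟩
  refine ⟨⟨C', fun a c hc => ?_, fun a b hb => ?_, fun a c hc ⟨e, he, hec⟩ h => ?_, fun F => ?_⟩⟩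
  · rcases hc with hc | hc
    · exact hlv.lt_iff_lt.1 ((hC1 _ (hlt a) hc.1).1 hc.2)
    · exact hlv.lt_iff_lt.1 (hc ▸ lt_add_one _)
  · rcases Ordinal.zero_or_succ_or_isSuccLimit (lv a) with h | ⟨ξ, h⟩ | h
    · exact absurd (h ▸ hlv hb) not_lt_zero
    · obtain ⟨c, rfl⟩ := (hr ξ).1 ((h ▸ Order.lt_succ ξ).trans (hlt a))
      exact ⟨c, Or.inr h, hlv.le_iff_le.1 (Order.lt_succ_iff.1 (h ▸ hlv hb))⟩
    · obtain ⟨γ, hγ, h'⟩ := (hC1 _ (hlt a) h).2.1 _ (hlv hb)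
      obtain ⟨c, rfl⟩ := (hr γ).1 (lt_trans ((hC1 _ (hlt a) h).1 hγ) (hlt a))
      exact ⟨c, Or.inl ⟨h, hγ⟩, (hlv.lt_iff_lt.1 h').le⟩
  · have ha : Order.IsSuccLimit (lv a) := by
      rcases hc with hc | hc
      · exact hc.1
      · rcases he with he | he
        · exact he.1
        · exact absurd (Order.succ_injective (he.trans hc.symm)) (hlv hec).ne
    have hclub := hC1 _ (hlt a) ha
    have hca : lv c < lv a := hclub.1 ((hC' a ha c).1 hc)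
    have hacc : IsAccPt (C (lv a)) (lv c) := by
      by_contra hn
      obtain ⟨η, hη, β, -, -, g2, g3, g4⟩ := exists_gap hclub hca hn ((hC' a ha e).1 he) (hlv hec)
      obtain ⟨e1, rfl⟩ := (hr η).1 (g2.trans (hlt c))
      obtain ⟨e', he', h1, h2⟩ := h e1 ((hC' a ha e1).2 hη) (hlv.lt_iff_lt.1 g2)
      exact absurd (g3.trans (g4 _ ((hC' a ha e').1 he') (hlv h1))) (not_le.2 (hlv h2))
    ext x
    rw [hC' c hacc.isSuccLimit, hC2 _ (hlt a) ha _ hca hacc, Set.mem_inter_iff, Set.mem_inter_iff,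
      hC' a ha, Set.mem_Iio, Set.mem_Iio, hlv.lt_iff_lt]
  · choose inv hinv using fun ξ (h : ξ < κ) => (hr ξ).1 h
    obtain ⟨α, hα, hlim, e, c, hec, hcof⟩ := guess_gaps h0 hκ hreg hC1 hC2 hC3
      (fun ξ => if h : ξ < κ then lv (F (inv ξ h)) else 0) (fun ξ h => by
        rw [dif_pos h]; exact hlt _)
    obtain ⟨a, rfl⟩ := (hr α).1 hα
    have hclub := hC1 _ hα hlim
    have he : ∀ k, e k < κ := fun k => lt_trans (hclub.1 (hec k).1) hα
    have hc : ∀ k, c k < κ := fun k => lt_trans (hclub.1 (hec k).2.1) hα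
    refine ⟨a, fun k => inv _ (he k), fun k => inv _ (hc k), fun k => ?_, fun b hb => ?_⟩
    · obtain ⟨h1, h2, h3, h4, h5⟩ := hec k
      rw [dif_pos (he k)] at h5
      refine ⟨(hC' a hlim _).2 (by rw [hinv]; exact h1), (hC' a hlim _).2 (by rw [hinv]; exact h2),
        hlv.lt_iff_lt.1 (by rw [hinv, hinv]; exact h3), fun w hw hlt' => ?_,
        hlv.lt_iff_lt.1 (by rw [hinv (c k)]; exact h5)⟩
      refine hlv.le_iff_le.1 ?_
      rw [hinv]
      refine h4 _ ((hC' a hlim w).1 hw) ?_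
      rw [← hinv _ (he k)]
      exact hlv hlt'
    · obtain ⟨k, hk⟩ := hcof _ (hlv hb)
      exact ⟨k, hlv.lt_iff_lt.1 (by rw [hinv]; exact hk)⟩

/-! ### Cardinal arithmetic and the main theorem -/

theorem bounded_of_lt {c : Cardinal.{0}} (hc : c.IsRegular) {ι : Type} (hι : #ι < c)
    (f : ι → Ordinal.{0}) (hf : ∀ i, f i < c.ord) : ∃ b < c.ord, ∀ i, f i < b := by
  refine ⟨⨆ i, (f i + 1), ?_, fun i => ?_⟩
  · exact Cardinal.iSup_lt_ord_of_isRegular hc hι fun i =>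
      (Cardinal.isSuccLimit_ord hc.aleph0_le).succ_lt (hf i)
  · exact (lt_add_one _).trans_le (Ordinal.le_iSup (fun i => f i + 1) i)

theorem bounded_toType {c : Cardinal.{0}} (hc : c.IsRegular) {ι : Type} (hι : #ι < c)
    (f : ι → c.ord.ToType) : ∃ b, ∀ i, f i < b := by
  obtain ⟨b, hb, h⟩ := bounded_of_lt hc hι (fun i => (f i : Ordinal.{0}))
    (fun i => (ToType.toOrd (f i)).2)
  obtain ⟨x, rfl⟩ := (lt_iff_toType _ _).1 hb
  exact ⟨x, fun i => (toType_strictMono _).lt_iff_lt.1 (h i)⟩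

theorem main (hsq : Square (ℵ_ 2 : Cardinal.{0}).ord)
    (hdom : DominatingLE (ℵ_ 1 : Cardinal.{0}).ord (ℵ_ 2)) (p : Cohen) :
    Forces Fm.existsAlephTwoSouslin p := by
  classical
  have e1 : (ℵ_ 1 : Cardinal.{0}) = Order.succ ℵ₀ := Cardinal.succ_aleph0.symm
  have e2 : (ℵ_ 2 : Cardinal.{0}) = Order.succ (ℵ_ 1) := by
    rw [Cardinal.succ_aleph, one_add_one_eq_two]
  have h01 : (ℵ₀ : Cardinal.{0}) < ℵ_ 1 := Cardinal.aleph0_lt_aleph_one
  have h12 : (ℵ_ 1 : Cardinal.{0}) < ℵ_ 2 := e2 ▸ Order.lt_succ _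
  have r1 : (ℵ_ 1 : Cardinal.{0}).IsRegular := Cardinal.isRegular_aleph_one
  have r2 : (ℵ_ 2 : Cardinal.{0}).IsRegular := e2 ▸ Cardinal.isRegular_succ h01.le
  let W := (ℵ_ 1 : Cardinal.{0}).ord.ToType
  let L := (ℵ_ 2 : Cardinal.{0}).ord.ToType
  have hW : #W = ℵ_ 1 := mk_ord_toType _
  have hL : #L = ℵ_ 2 := mk_ord_toType _
  have : Infinite W := Cardinal.infinite_iff.2 (hW ▸ h01.le)
  have : Infinite L := Cardinal.infinite_iff.2 (hL ▸ (h01.trans h12).le)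
  have hWW : (ℵ_ 1 : Cardinal.{0}) * ℵ_ 1 = ℵ_ 1 := Cardinal.mul_eq_self h01.le
  have hW1 : ∀ w : W, (Set.Iio w).Countable := fun w => by
    rw [← Cardinal.le_aleph0_iff_set_countable, ← Order.lt_succ_iff, ← e1]
    exact mk_Iio_toType_ord_lt w
  have hW2 : ∀ S : Set W, S.Countable → ∃ w, ∀ s ∈ S, s < w := fun S hS => by
    obtain ⟨b, hb⟩ := bounded_toType r1 ((Cardinal.le_aleph0_iff_set_countable.2 hS).trans_lt h01)
      (fun s : S => (s : W))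
    exact ⟨b, fun s hs => hb ⟨s, hs⟩⟩
  have hL1 : ∀ a : L, #(Set.Iio a) ≤ #W := fun a => by
    rw [hW, ← Order.lt_succ_iff, ← e2]
    exact mk_Iio_toType_ord_lt a
  have hL2 : ∀ f : (W × W) × W → L, ∃ b, ∀ i, f i < b := fun f =>
    bounded_toType r2 (by simp only [mk_prod, Cardinal.lift_id, hW, hWW]; exact h12) f
  have hLP : ∀ f : Cohen → L, ∃ b, ∀ i, f i < b := fun f =>
    bounded_toType r2 (mk_le_aleph0.trans_lt (h01.trans h12)) f
  obtain ⟨f1, f2, hf⟩ : ∃ (f1 : L → L) (f2 : L → W × W → W → W),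
      ∀ (ζ : L) (g : W × W → W → W), ∃ γ, f1 γ = ζ ∧ ∀ π i, g π i < f2 γ π i := by
    obtain ⟨𝒟, h𝒟, hd⟩ := hdom
    obtain ⟨e⟩ : Nonempty ((W × W) × W ≃ W) := by
      rw [← Cardinal.eq]
      simp only [mk_prod, Cardinal.lift_id, hW, hWW]
    choose sc hsc using fun w : W => hW2 {w} (Set.countable_singleton w)
    have hle : #(L × 𝒟 × W) ≤ #L := by
      simp only [mk_prod, Cardinal.lift_id, hW, hL]
      have h22 : (ℵ_ 2 : Cardinal.{0}) * ℵ_ 2 = ℵ_ 2 := Cardinal.mul_eq_self (h01.trans h12).le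
      calc ℵ_ 2 * (#𝒟 * ℵ_ 1) ≤ ℵ_ 2 * (ℵ_ 2 * ℵ_ 2) := by gcongr
        _ = ℵ_ 2 := by rw [h22, h22]
    obtain ⟨u⟩ := (Cardinal.le_def _ _).1 hle
    obtain ⟨d0, hd0, -⟩ := hd id
    have : Nonempty 𝒟 := ⟨⟨d0, hd0⟩⟩
    refine ⟨fun γ => (Function.invFun u γ).1,
      fun γ π i => max ((Function.invFun u γ).2.1.1 (e (π, i))) (Function.invFun u γ).2.2,
      fun ζ g => ?_⟩
    obtain ⟨d, hdm, ξ0, hξ⟩ := hd fun w => sc (g (e.symm w).1 (e.symm w).2)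
    obtain ⟨ν, hν⟩ := hW2 _ ((hW1 ξ0).image fun w => g (e.symm w).1 (e.symm w).2)
    refine ⟨u (ζ, ⟨d, hdm⟩, ν), by simp only [Function.leftInverse_invFun u.injective _], fun π i => ?_⟩
    simp only [Function.leftInverse_invFun u.injective _]
    by_cases h : e (π, i) < ξ0
    · exact lt_max_of_lt_right (hν _ ⟨_, h, by simp⟩)
    · refine lt_max_of_lt_left (lt_of_lt_of_le ?_ (hξ _ (not_lt.1 h)))
      simpa using hsc (g π i)
  obtain ⟨A⟩ := exists_ladder (toType_strictMono _) (lt_iff_toType _)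
    (Cardinal.ord_pos.2 r2.pos)
    (fun a ha => bounded_of_lt r2 (by simpa using h01.trans h12) a ha)
    (fun F hF ξ hξ => by
      have hξ' : ξ + 1 < (ℵ_ 2 : Cardinal.{0}).ord :=
        (Cardinal.isSuccLimit_ord r2.aleph0_le).succ_lt hξ
      obtain ⟨b, hb, h⟩ := bounded_of_lt r2 (ι := (ξ + 1).ToType)
        (by rw [mk_toType]; exact Cardinal.lt_ord.1 hξ') (fun i => F (i : Ordinal.{0}))
        (fun i => hF _ (lt_trans (ToType.toOrd i).2 hξ'))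
      refine ⟨b, hb, fun η hη => ?_⟩
      obtain ⟨x, rfl⟩ := (lt_iff_toType (ξ + 1) η).1 (Order.lt_add_one_iff.2 hη)
      exact h x) hsq
  obtain ⟨par, up, up', g1, g2, g3, g4, g5, g6⟩ := exists_nodes (W := W) hL1
  obtain ⟨D, hD1, hD2, hS⟩ := exists_good hW1 hW2 hL1 hL2 f1 f2 hf A cohenGen par up g1 g2 g6
  have hS' := chain_small D hLP (fun b x hx => by
    rw [hD1] at hx ⊢
    rw [hD2]
    exact ⟨up b x, up' b x, g5 b x hx, g1 b x, g3 b x, g2 b x hx, g4 b x hx⟩) (hD1 ▸ hS)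
  refine forces_ex_intro (oN Cohen.one (ℵ_ 2 : Cardinal.{0}).ord)
    ⟨forces_isAlephTwo Cohen.le_one p, forces_ex_intro _ (forces_ex_intro _
      (forces_isSouslin Cohen.le_one D (toType_strictMono _) (lt_iff_toType _)
        (fun a => ⟨(a, Classical.arbitrary W), by rw [hD1]⟩) hLP (hD1 ▸ hS) hS' (fun a => ?_) p))⟩
  have hle : #(Set.Iio a × W) ≤ #W := by
    rw [mk_prod, Cardinal.lift_id, Cardinal.lift_id]
    exact (mul_le_mul_left (hL1 a) _).trans (by rw [hW, hWW])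
  obtain ⟨u⟩ := (Cardinal.le_def _ _).1 hle
  refine ⟨(ℵ_ 1 : Cardinal.{0}).ord, Cardinal.ord_lt_ord.2 h12,
    fun x => if h : x.1 < a then (u (⟨x.1, h⟩, x.2) : Ordinal.{0}) else 0, fun x hx => ?_,
    fun x hx y hy h => ?_⟩
  · rw [hD1] at hx
    have hx' : x.1 < a := hx
    simp only [dif_pos hx']
    exact (ToType.toOrd _).2
  · rw [hD1] at hx hy
    have hx' : x.1 < a := hx
    have hy' : y.1 < a := hy
    simp only [dif_pos hx', dif_pos hy'] at h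
    have := u.injective ((toType_strictMono _).injective h)
    simp only [Prod.mk.injEq, Subtype.mk.injEq] at this
    exact Prod.ext this.1 this.2

end Pool.Agent.Lib.MP_40ade9_lc
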