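import Pool.Agent.Lib.MP_40ade9_lc.Names
import Pool.Agent.Lib.MP_40ade9_lc.Comb

/-! The tree name is forced to be a Souslin tree. -/

set_option autoImplicit false

namespace Pool.Agent.Lib.MP_40ade9_lc

open Ordinal Cardinal

variable {P : Type} [Preorder P] {one : P} (h1 : ∀ p : P, p ≤ one)
variable {L X : Type} [LinearOrder L] [WellFoundedLT L] (D : Data L X P)

/-- name of a node -/
noncomputable def nd (one : P) (x : X) : PName P := oN one (embeddingToCardinal x).ord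

/-- name of the set of nodes -/
noncomputable def TN (one : P) (X : Type) : PName P := relN (fun _ (_ : X) => True) (nd one)

/-- name of the tree order -/
noncomputable def RN (one : P) : PName P :=
  relN (fun q (xy : X × X) => D.R q xy.1 xy.2) (fun xy => op one (nd one xy.1) (nd one xy.2))

include h1

theorem nd_eq {x y : X} {p : P} : ForcesEq (nd one x) (nd one y) p ↔ x = y := by
  rw [nd, nd, forcesEq_on h1, Cardinal.ord_injective.eq_iff, embeddingToCardinal.injective.eq_iff]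

omit h1 in
theorem mem_TN {z : PName P} {q : P} :
    ForcesMem z (TN one X) q ↔ ∀ r ≤ q, ∃ s ≤ r, ∃ x : X, ForcesEq z (nd one x) s := by
  rw [TN, forcesMem_relN (fun _ _ _ _ _ => trivial)]
  simp only [true_and]

omit h1 in
theorem nd_mem_TN (x : X) (q : P) : ForcesMem (nd one x) (TN one X) q :=
  mem_TN.2 fun r _ => ⟨r, le_rfl, x, ForcesEq.refl _ _⟩

theorem mem_RN {u v : PName P} {q : P} : ForcesMem (op one u v) (RN D one) q ↔
    ∀ r ≤ q, ∃ s ≤ r, ∃ x y, D.R s x y ∧ ForcesEq u (nd one x) s ∧ ForcesEq v (nd one y) s := by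
  rw [RN, forcesMem_op_relN h1 (fun _ _ _ h hq => h.mono hq)]
  simp only [Prod.exists]

theorem mem_RN_of {u v : PName P} {q : P} {x y : X} (h : D.R q x y)
    (hu : ForcesEq u (nd one x) q) (hv : ForcesEq v (nd one y) q) :
    ForcesMem (op one u v) (RN D one) q :=
  (mem_RN h1 D).2 fun r hr => ⟨r, le_rfl, x, y, h.mono hr, hu.mono hr, hv.mono hr⟩

theorem R_of_mem_RN {u v : PName P} {q : P} {x y : X} (h : ForcesMem (op one u v) (RN D one) q)
    (hu : ForcesEq u (nd one x) q) (hv : ForcesEq v (nd one y) q) : ∃ r ≤ q, D.R r x y := by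
  obtain ⟨s, hs, x', y', hR, e1, e2⟩ := (mem_RN h1 D).1 h q le_rfl
  have ex : x = x' := (nd_eq h1).1 ((hu.mono hs).symm.trans e1)
  have ey : y = y' := (nd_eq h1).1 ((hv.mono hs).symm.trans e2)
  exact ⟨s, hs, ex ▸ ey ▸ hR⟩

theorem forces_isStrictOrder (p : P) : Forces (Fm.isStrictOrder (TN one X) (RN D one)) p := by
  simp only [Fm.isStrictOrder, forces_and, forces_all, forces_imp, forces_mem, forces_not,
    forces_app h1]
  refine ⟨fun w q _ hw => ?_, fun a q _ ha => ?_, fun a b c q _ h => ?_⟩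
  · refine forces_ex.2 fun r hr => ?_
    obtain ⟨s, hs, ⟨x, y⟩, -, he⟩ :=
      (forcesMem_relN (S := fun q (xy : X × X) => D.R q xy.1 xy.2)
        (fun _ _ _ h hq => h.mono hq)).1 hw r hr
    exact ⟨s, hs, nd one x, forces_ex_intro (nd one y)
      ⟨(forces_isPair h1).2 he, nd_mem_TN x s, nd_mem_TN y s⟩⟩
  · obtain ⟨s, -, x, y, hR, e1, e2⟩ := (mem_RN h1 D).1 ha q le_rfl
    have : x = y := (nd_eq h1).1 (e1.symm.trans e2)
    subst this
    exact lt_irrefl _ hR.lt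
  · refine ForcesMem.of_dense fun r hr => ?_
    obtain ⟨s, hs, x, y, hR, e1, e2⟩ := (mem_RN h1 D).1 h.1 r hr
    obtain ⟨t, ht, y', z, hR', e1', e2'⟩ := (mem_RN h1 D).1 h.2 s (hs.trans hr)
    have : y = y' := (nd_eq h1).1 ((e2.mono ht).symm.trans e1')
    subst this
    exact ⟨t, ht.trans hs, mem_RN_of h1 D ((hR.mono ht).trans hR') (e1.mono ht) e2'⟩

theorem forces_hasHeight {lv : L → Ordinal.{0}} (hlv : StrictMono lv)
    (hinit : ∀ a ξ, ξ < lv a → ∃ b, lv b = ξ) {t : PName P} {y : X} {p : P}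
    (ht : ForcesEq t (nd one y) p) :
    Forces (Fm.hasHeight (RN D one) t (oN one (lv (D.h y)))) p := by
  have hS : ∀ (p q : P) (x : X), D.R p x y → q ≤ p → D.R q x y := fun _ _ _ h hq => h.mono hq
  refine ⟨forces_isOrdinal_on h1 _ p, forces_ex_intro
    (relN (fun q x => D.R q x y) fun x => op one (nd one x) (oN one (lv (D.h x)))) ⟨?_, ?_⟩⟩
  · refine forces_ex_intro (relN (fun q x => D.R q x y) (nd one)) ⟨?_, ?_⟩
    · simp only [forces_all, forces_iff, forces_mem, forces_app h1]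
      refine fun s => ⟨fun q hq hs => ?_, fun q hq hs => ?_⟩
      · refine ForcesMem.of_dense fun r hr => ?_
        obtain ⟨w, hw, x, hR, he⟩ := (forcesMem_relN hS).1 hs r hr
        exact ⟨w, hw, mem_RN_of h1 D hR he (ht.mono (hw.trans (hr.trans hq)))⟩
      · refine (forcesMem_relN hS).2 fun r hr => ?_
        obtain ⟨w, hw, x, y', hR, e1, e2⟩ := (mem_RN h1 D).1 hs r hr
        have : y = y' := (nd_eq h1).1 ((ht.mono (hw.trans (hr.trans hq))).symm.trans e2)
        subst this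
        exact ⟨w, hw, x, hR, e1⟩
    · refine forces_bij_relN h1 hS (rep_relN hS _ p) (fun z q _ => ?_) (fun s x x' hx hx' => ?_)
      · rw [forcesMem_on h1]
        constructor
        · intro h r hr
          obtain ⟨s, hs, a, ha, he⟩ := h r hr
          obtain ⟨b, rfl⟩ := hinit _ _ ha
          obtain ⟨w, hw, x, hx, hR⟩ := Data.pred_dense y b (hlv.lt_iff_lt.1 ha) s
          exact ⟨w, hw.trans hs, x, hR, hx ▸ he.mono hw⟩
        · intro h r hr
          obtain ⟨s, hs, x, hR, he⟩ := h r hr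
          exact ⟨s, hs, _, hlv hR.lt, he⟩
      · rw [nd_eq h1, forcesEq_on h1, hlv.injective.eq_iff]
        exact ⟨fun h => h ▸ rfl, fun h => hx.unique hx' h⟩
  · simp only [forces_all, forces_imp, forces_and, forces_iff, forces_mem, forces_app h1]
    refine fun s s' a a' q _ h => ⟨fun r hr hR => ?_, fun r hr ha => ?_⟩
    · refine ForcesMem.of_dense fun w hw => ?_
      obtain ⟨w1, hw1, x, hx, e1, e2⟩ := (forcesMem_op_relN h1 hS).1 h.1 w (hw.trans hr)
      obtain ⟨w2, hw2, x', hx', e1', e2'⟩ :=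
        (forcesMem_op_relN h1 hS).1 h.2 w1 (hw1.trans (hw.trans hr))
      obtain ⟨w3, hw3, hxx⟩ := R_of_mem_RN h1 D (hR.mono (hw2.trans (hw1.trans hw)))
        (e1.mono hw2) e1'
      exact ⟨w3, hw3.trans (hw2.trans hw1), (forcesMem_on_of_eq h1 (e2.mono (hw3.trans hw2))
        (hlv hxx.lt)).congr_right (e2'.mono hw3).symm⟩
    · refine ForcesMem.of_dense fun w hw => ?_
      obtain ⟨w1, hw1, x, hx, e1, e2⟩ := (forcesMem_op_relN h1 hS).1 h.1 w (hw.trans hr)
      obtain ⟨w2, hw2, x', hx', e1', e2'⟩ :=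
        (forcesMem_op_relN h1 hS).1 h.2 w1 (hw1.trans (hw.trans hr))
      have hlt : D.h x < D.h x' := hlv.lt_iff_lt.1 ((forcesMem_on_on h1).1
        (((ha.mono (hw2.trans (hw1.trans hw))).congr_left (e2.mono hw2)).congr_right e2'))
      obtain ⟨w3, hw3, u, hu, hR⟩ := Data.pred_dense x' _ hlt w2
      have : u = x := (hR.trans (hx'.mono hw3)).unique (hx.mono (hw3.trans hw2)) hu
      subst this
      exact ⟨w3, hw3.trans (hw2.trans hw1),
        mem_RN_of h1 D hR (e1.mono (hw3.trans hw2)) (e1'.mono hw3)⟩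

theorem forces_hasHeight_congr {R t x x' : PName P} {p : P} (h : Forces (Fm.hasHeight R t x) p)
    (he : ForcesEq x x' p) : Forces (Fm.hasHeight R t x') p := by
  obtain ⟨ho, hg⟩ := h
  constructor
  · simp only [Fm.isOrdinal, forces_and, forces_all, forces_imp, forces_mem, forces_sub] at ho ⊢
    refine ⟨fun y q hq hy z r hr hz => ?_, fun y z q hq hyz => ?_⟩
    · exact (ho.1 y q hq (hy.congr_right (he.symm.mono hq)) z r hr hz).congr_right
        (he.mono (hr.trans hq))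
    · exact ho.2 y z q hq ⟨hyz.1.congr_right (he.symm.mono hq),
        hyz.2.congr_right (he.symm.mono hq)⟩
  · refine forces_ex.2 fun q hq => ?_
    obtain ⟨r, hr, g, hg1, hg2⟩ := forces_ex.1 hg q hq
    refine ⟨r, hr, g, forces_ex.2 fun s hs => ?_, hg2⟩
    obtain ⟨w, hw, E, hE1, hE2⟩ := forces_ex.1 hg1 s hs
    refine ⟨w, hw, E, hE1, ?_⟩
    have he' := he.mono (hw.trans (hs.trans (hr.trans hq)))
    rw [forces_bij h1] at hE2 ⊢
    refine ⟨fun v q' hq' hv r' hr' => ?_, hE2.2.1, fun b q' hq' hb => ?_, hE2.2.2.2⟩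
    · obtain ⟨s', hs', a, b, e1, e2, e3⟩ := hE2.1 v q' hq' hv r' hr'
      exact ⟨s', hs', a, b, e1, e2, e3.congr_right (he'.mono (hs'.trans (hr'.trans hq')))⟩
    · exact hE2.2.2.1 b q' hq' (hb.congr_right (he'.symm.mono hq'))

theorem forces_isTree {o : Ordinal.{0}} {lv : L → Ordinal.{0}} (hlv : StrictMono lv)
    (hr : ∀ ξ, ξ < o ↔ ∃ a, lv a = ξ) (hsurj : ∀ a, ∃ x, D.h x = a) (p : P) :
    Forces (Fm.isTree (TN one X) (RN D one) (oN one o)) p := by
  have hinit : ∀ a ξ, ξ < lv a → ∃ b, lv b = ξ := fun a ξ h =>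
    (hr ξ).1 (h.trans ((hr _).2 ⟨a, rfl⟩))
  simp only [Fm.isTree, forces_and, forces_all, forces_imp, forces_mem]
  refine ⟨forces_isStrictOrder h1 D p, fun t q _ ht => ?_, fun x q _ hx => ?_⟩
  · refine forces_ex.2 fun r hr' => ?_
    obtain ⟨s, hs, y, he⟩ := mem_TN.1 ht r hr'
    exact ⟨s, hs, oN one (lv (D.h y)), (forcesMem_on_on h1).2 ((hr _).2 ⟨_, rfl⟩),
      forces_hasHeight h1 D hlv hinit he⟩
  · refine forces_ex.2 fun r hr' => ?_
    obtain ⟨s, hs, ξ, hξ, he⟩ := (forcesMem_on h1).1 hx r hr'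
    obtain ⟨a, rfl⟩ := (hr ξ).1 hξ
    obtain ⟨y, rfl⟩ := hsurj a
    exact ⟨s, hs, nd one y, nd_mem_TN y s, forces_hasHeight_congr h1
      (forces_hasHeight h1 D hlv hinit (ForcesEq.refl _ _)) he.symm⟩

theorem forces_cardLt {o m : Ordinal.{0}} (hm : m < o) {A : PName P} {p : P}
    (hA : Forces (Fm.sub A (TN one X)) p) {U : Set X} (j : X → Ordinal.{0})
    (hj : ∀ x ∈ U, j x < m) (hinj : Set.InjOn j U)
    (hU : ∀ q ≤ p, ∀ x, ForcesMem (nd one x) A q → x ∈ U) :
    Forces (Fm.cardLt A (oN one o)) p := by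
  have hS : ∀ (q r : P) (x : X), (q ≤ p ∧ ForcesMem (nd one x) A q) → r ≤ q →
      (r ≤ p ∧ ForcesMem (nd one x) A r) := fun _ _ _ h hq => ⟨hq.trans h.1, h.2.mono hq⟩
  refine forces_ex_intro (oN one m) ⟨(forcesMem_on_on h1).2 hm, forces_ex_intro
    (relN (fun q x => q ≤ p ∧ ForcesMem (nd one x) A q) fun x => oN one (j x)) ⟨?_, ?_⟩⟩
  · refine forces_sub.2 fun z q _ hz => ForcesMem.of_dense fun r hr => ?_
    obtain ⟨s, hs, x, hx, he⟩ := (forcesMem_relN hS).1 hz r hr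
    exact ⟨s, hs, forcesMem_on_of_eq h1 he (hj x (hU s hx.1 x hx.2))⟩
  · refine forces_ex_intro _ (forces_bij_relN h1 hS (a := nd one) (fun z q hq => ?_)
      (rep_relN hS _ p) (fun s x x' hx hx' => ?_))
    · constructor
      · intro hz r hr
        obtain ⟨s, hs, x, he⟩ := mem_TN.1 (forces_sub.1 hA z q hq hz) r hr
        exact ⟨s, hs, x, ⟨hs.trans (hr.trans hq), (hz.mono (hs.trans hr)).congr_left he⟩, he⟩
      · intro h
        refine ForcesMem.of_dense fun r hr => ?_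
        obtain ⟨s, hs, x, hx, he⟩ := h r hr
        exact ⟨s, hs, hx.2.congr_left he.symm⟩
    · rw [nd_eq h1, forcesEq_on h1]
      exact ⟨fun h => h ▸ rfl, fun h => hinj (hU s hx.1 x hx.2) (hU s hx'.1 x' hx'.2) h⟩

theorem forces_isSouslin [Nonempty L] {o : Ordinal.{0}} {lv : L → Ordinal.{0}} (hlv : StrictMono lv)
    (hr : ∀ ξ, ξ < o ↔ ∃ a, lv a = ξ) (hsurj : ∀ a, ∃ x, D.h x = a)
    (hL : ∀ f : P → L, ∃ b, ∀ i, f i < b)
    (hS : ∀ (p : P) (B : Set X), (∀ a, ∃ y ∈ B, a ≤ D.h y) →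
        ∃ q ≤ p, ∃ x ∈ B, ∃ y ∈ B, D.R q x y)
    (hS' : ∀ (p : P) (B : Set X), (∀ a, ∃ y ∈ B, a ≤ D.h y) →
        ∃ q ≤ p, ∃ x ∈ B, ∃ y ∈ B, x ≠ y ∧ ∀ r ≤ q, ¬ D.R r x y ∧ ¬ D.R r y x)
    (hsmall : ∀ a : L, ∃ m < o, ∃ j : X → Ordinal.{0},
      (∀ x ∈ {x | D.h x < a}, j x < m) ∧ Set.InjOn j {x | D.h x < a}) (p : P) :
    Forces (Fm.isSouslin (TN one X) (RN D one) (oN one o)) p := by
  refine ⟨forces_isTree h1 D hlv hr hsurj p, forces_all.2 fun A => forces_imp.2 fun q _ hA => ?_⟩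
  refine Forces.of_dense fun r hr' => ?_
  obtain ⟨s, hs, hA'⟩ := forces_or.1 hA r hr'
  refine ⟨s, hs, ?_⟩
  have hsub : Forces (Fm.sub A (TN one X)) s := hA'.elim (fun h => h.1) (fun h => h.1)
  have hbd : ∀ w : P, ∃ a, w ≤ s → ∀ x, ForcesMem (nd one x) A w → D.h x < a := by
    intro w
    by_contra hc
    push Not at hc
    have hws : w ≤ s := (hc (Classical.arbitrary L)).1
    have hB : ∀ a, ∃ y ∈ {x | ForcesMem (nd one x) A w}, a ≤ D.h y := fun a =>
      (hc a).2.imp fun x hx => ⟨hx.1, hx.2⟩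
    rcases hA' with h | h
    · obtain ⟨w', hw', x, hx, y, hy, hne, hinc⟩ := hS' w _ hB
      have h2 := h.2
      simp only [forces_all, forces_imp, forces_and, forces_mem] at h2
      obtain ⟨w1, hw1, h3 | h3⟩ := forces_or.1 (h2 (nd one x) (nd one y) w hws ⟨hx, hy⟩) w' hw'
      · obtain ⟨w2, hw2, hR⟩ := R_of_mem_RN h1 D ((forces_app h1).1 h3) (ForcesEq.refl _ _)
          (ForcesEq.refl _ _)
        exact (hinc w2 (hw2.trans hw1)).1 hR
      · obtain ⟨w2, hw2, h4 | h4⟩ := forces_or.1 h3 w1 le_rfl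
        · exact hne ((nd_eq h1).1 h4)
        · obtain ⟨w3, hw3, hR⟩ := R_of_mem_RN h1 D ((forces_app h1).1 h4) (ForcesEq.refl _ _)
            (ForcesEq.refl _ _)
          exact (hinc w3 (hw3.trans (hw2.trans hw1))).2 hR
    · obtain ⟨w', hw', x, hx, y, hy, hR⟩ := hS w _ hB
      have h2 := h.2
      simp only [forces_all, forces_imp, forces_and, forces_mem, forces_not, forces_app h1] at h2
      exact h2 (nd one x) (nd one y) w hws ⟨hx, hy⟩ w' hw'
        (mem_RN_of h1 D hR (ForcesEq.refl _ _) (ForcesEq.refl _ _))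
  choose f hf using hbd
  obtain ⟨b, hb⟩ := hL f
  obtain ⟨m, hm, j, hj, hinj⟩ := hsmall b
  exact forces_cardLt h1 hm hsub j hj hinj fun w hw x hx => (hf w hw x hx).trans (hb w)

end Pool.Agent.Lib.MP_40ade9_lc
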