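import Mathlib

/-! A name for a tree, built along a coherent sequence of ladders.  `R D p u y` means that the
condition `p` puts the node `u` below the node `y`. -/

set_option autoImplicit false

namespace Pool.Agent.Lib.MP_40ade9_lc

open Classical

/-- Ground-model data for the construction of the tree. -/
structure Data (L X P : Type) [LinearOrder L] [Preorder P] where
  h : X → L
  par : X → X
  up : L → X → X
  C : L → Set L
  top : P
  K : P → L → X → P → X → Prop
  h_up : ∀ b x, h (up b x) = b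
  par_up : ∀ b x, h x < b → par (up b x) = x
  h_par : ∀ y a, a < h y → h (par y) < h y
  C_lt : ∀ a, ∀ c ∈ C a, c < a
  C_cof : ∀ a, ∀ b < a, ∃ c ∈ C a, b ≤ c
  C_coh : ∀ a, ∀ c ∈ C a, (∃ e ∈ C a, e < c) → (∀ e ∈ C a, e < c → ∃ e' ∈ C a, e < e' ∧ e' < c) →
    C c = C a ∩ Set.Iio c
  le_top : ∀ p, p ≤ top
  K_mono : ∀ p q c t u w, K p c t u w → q ≤ p → K q c t u w
  K_fun : ∀ p c t u w w', K p c t u w → K p c t u w' → w = w'
  K_dense : ∀ p c t u, ∃ q ≤ p, ∃ w, K q c t u w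

theorem exists_maxAnti {P : Type} [Preorder P] (E : Set P) : ∃ M ⊆ E,
    (∀ q ∈ M, ∀ q' ∈ M, ∀ r, r ≤ q → r ≤ q' → q = q') ∧
    ∀ q ∈ E, ∃ q' ∈ M, ∃ r, r ≤ q ∧ r ≤ q' := by
  obtain ⟨M, hM⟩ := zorn_subset {M : Set P | M ⊆ E ∧
      ∀ q ∈ M, ∀ q' ∈ M, ∀ r, r ≤ q → r ≤ q' → q = q'} (fun c hc hch => by
    refine ⟨⋃₀ c, ⟨Set.sUnion_subset fun M hM => (hc hM).1, ?_⟩,
      fun M hM => Set.subset_sUnion_of_mem hM⟩
    rintro q ⟨M, hM, hq⟩ q' ⟨M', hM', hq'⟩
    rcases hch.total hM hM' with h | h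
    · exact (hc hM').2 q (h hq) q' hq'
    · exact (hc hM).2 q hq q' (h hq'))
  refine ⟨M, hM.prop.1, hM.prop.2, fun q hq => ?_⟩
  by_contra hc
  push Not at hc
  have : insert q M ⊆ M := by
    refine hM.le_of_ge ⟨Set.insert_subset hq hM.prop.1, ?_⟩ (Set.subset_insert _ _)
    rintro a (rfl | ha) b (rfl | hb) r h1 h2
    · rfl
    · exact absurd h2 (hc b hb r h1)
    · exact absurd h1 (hc a ha r h2)
    · exact hM.prop.2 a ha b hb r h1 h2
  exact hc q (this (Set.mem_insert _ _)) q le_rfl le_rfl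

namespace Data

variable {L X P : Type} [LinearOrder L] [Preorder P] (D : Data L X P)

/-- `q` extends `u`, decides the candidate node and whether it has property `S`. -/
def Dec (c : L) (S : P → X → Prop) (t : X) (u : P) : Set P :=
  {q | q ≤ u ∧ ∃ w, D.K q c t u w ∧ (S q w ∨ ∀ r ≤ q, ¬ S r w)}

/-- The node chosen by `q`. -/
noncomputable def pick (c : L) (S : P → X → Prop) (t : X) (u q : P) : X :=
  if h : ∃ w, D.K q c t u w ∧ S q w then h.choose else t

/-- `p` decides that the chosen node is `s`, through the canonical condition `u'`. -/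
def Seal (c : L) (S : P → X → Prop) (t : X) (u p : P) (s : X) (u' : P) : Prop :=
  u' ∈ (exists_maxAnti (D.Dec c S t u)).choose ∧ p ≤ u' ∧ s = D.pick c S t u u'

variable {D}

theorem Seal.dec {c : L} {S : P → X → Prop} {t s : X} {u p u' : P} (h : D.Seal c S t u p s u') :
    u' ∈ D.Dec c S t u := (exists_maxAnti (D.Dec c S t u)).choose_spec.1 h.1

theorem Seal.unique {c : L} {S : P → X → Prop} {t s s' : X} {u p u' u'' : P}
    (h : D.Seal c S t u p s u') (h' : D.Seal c S t u p s' u'') : s = s' ∧ u' = u'' := by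
  have : u' = u'' := (exists_maxAnti (D.Dec c S t u)).choose_spec.2.1 _ h.1 _ h'.1 p h.2.1 h'.2.1
  exact ⟨by rw [h.2.2, h'.2.2, this], this⟩

theorem seal_dense (c : L) (S : P → X → Prop) (t : X) {u p : P} (hp : p ≤ u) :
    ∃ q ≤ p, ∃ s u', D.Seal c S t u q s u' := by
  have : ∃ q ≤ p, q ∈ D.Dec c S t u := by
    obtain ⟨q, hq, w, hw⟩ := D.K_dense p c t u
    by_cases h : ∃ r ≤ q, S r w
    · obtain ⟨r, hr, hS⟩ := h
      exact ⟨r, hr.trans hq, hr.trans (hq.trans hp), w, D.K_mono _ _ _ _ _ _ hw hr, Or.inl hS⟩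
    · push Not at h
      exact ⟨q, hq, hq.trans hp, w, hw, Or.inr h⟩
  obtain ⟨q, hq, hd⟩ := this
  obtain ⟨q', hq', r, h1, h2⟩ := (exists_maxAnti (D.Dec c S t u)).choose_spec.2.2 q hd
  exact ⟨r, h1.trans hq, _, q', hq', h2, rfl⟩

theorem Seal.cases {c : L} {S : P → X → Prop} (hS : ∀ p q z, S p z → q ≤ p → S q z) {t s : X}
    {u p u' : P} (h : D.Seal c S t u p s u') : s = t ∨ S p s := by
  rw [h.2.2, pick]
  split_ifs with hex
  · exact Or.inr (hS _ _ _ hex.choose_spec.2 h.2.1)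
  · exact Or.inl rfl

theorem Seal.key {c : L} {S : P → X → Prop} {t s : X} {u p u' : P} (h : D.Seal c S t u p s u')
    {z : X} (hK : D.K p c t u z) (hSz : S p z) : s = z := by
  obtain ⟨-, w, hw, h2⟩ := h.dec
  have hwz : w = z := D.K_fun p c t u _ _ (D.K_mono _ _ _ _ _ _ hw h.2.1) hK
  subst hwz
  rcases h2 with h2 | h2
  · have hex : ∃ w, D.K u' c t u w ∧ S u' w := ⟨w, hw, h2⟩
    rw [h.2.2, pick, dif_pos hex]
    exact D.K_fun u' c t u _ _ hex.choose_spec.1 hw
  · exact absurd hSz (h2 p h.2.1)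

variable (D)

/-- `Ch R A x p c t u`: the condition `p` decides, through the canonical condition `u`, that the
canonical chain above `x` along the ladder `A` passes through the node `t` at level `c`. -/
inductive Ch (R : P → X → X → Prop) (A : Set L) (x : X) (p : P) : L → X → P → Prop
  | start {c : L} : c ∈ A → D.h x < c →
      (∀ e ∈ A, D.h x < e → e < c → ∃ e' ∈ A, e < e' ∧ e' < c) → Ch R A x p c (D.up c x) D.top
  | step {e c : L} {t s : X} {u u' : P} : e ∈ A → c ∈ A → e < c → (∀ z ∈ A, e < z → c ≤ z) →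
      Ch R A x p e t u → D.Seal c (fun q z => D.h z < c ∧ R q t z) t u p s u' →
      Ch R A x p c (D.up c s) u'

variable {D}

theorem Ch.level {R : P → X → X → Prop} {A : Set L} {x t : X} {p u : P} {c : L}
    (h : D.Ch R A x p c t u) : D.h t = c ∧ c ∈ A ∧ D.h x < c := by
  induction h with
  | start h1 h2 _ => exact ⟨D.h_up _ _, h1, h2⟩
  | step _ h2 h3 _ _ _ ih => exact ⟨D.h_up _ _, h2, ih.2.2.trans h3⟩

theorem Ch.le {R : P → X → X → Prop} {A : Set L} {x t : X} {p u : P} {c : L}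
    (h : D.Ch R A x p c t u) : p ≤ u := by
  cases h with
  | start _ _ _ => exact D.le_top _
  | step _ _ _ _ _ h6 => exact h6.2.1

theorem Ch.of_le {R : P → X → X → Prop} {A : Set L} {x t : X} {p u : P} {c : L}
    (h : D.Ch R A x p c t u) {q : P} (hq : q ≤ u) : D.Ch R A x q c t u := by
  induction h with
  | start h1 h2 h3 => exact Ch.start h1 h2 h3
  | step h1 h2 h3 h4 _ h6 ih =>
    exact Ch.step h1 h2 h3 h4 (ih (hq.trans h6.dec.1)) ⟨h6.1, hq, h6.2.2⟩

theorem Ch.mono {R : P → X → X → Prop} {A : Set L} {x t : X} {p q u : P} {c : L}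
    (h : D.Ch R A x p c t u) (hq : q ≤ p) : D.Ch R A x q c t u := h.of_le (hq.trans h.le)

theorem Ch.congr {R R' : P → X → X → Prop} {A A' : Set L} {x t : X} {p u : P} {c b : L}
    (hR : ∀ q u v, D.h v < b → (R q u v ↔ R' q u v)) (hA : ∀ e < b, e ∈ A ↔ e ∈ A')
    (h : D.Ch R A x p c t u) (hc : c < b) : D.Ch R' A' x p c t u := by
  induction h with
  | @start c h1 h2 h3 =>
    refine Ch.start ((hA _ hc).1 h1) h2 fun e he h4 h5 => ?_
    obtain ⟨e', he', h6, h7⟩ := h3 e ((hA _ (h5.trans hc)).2 he) h4 h5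
    exact ⟨e', (hA _ (h7.trans hc)).1 he', h6, h7⟩
  | @step e c t s u u' h1 h2 h3 h4 _ h6 ih =>
    refine Ch.step ((hA _ (h3.trans hc)).1 h1) ((hA _ hc).1 h2) h3 (fun z hz hez => ?_)
      (ih (h3.trans hc)) ?_
    · by_contra hlt
      push Not at hlt
      exact absurd (h4 z ((hA _ (hlt.trans hc)).2 hz) hez) (not_le.2 hlt)
    · have : (fun q z => D.h z < c ∧ R' q t z) = (fun q z => D.h z < c ∧ R q t z) := by
        funext q z
        apply propext
        exact and_congr_right fun hz => (hR q t z (hz.trans hc)).symm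
      rw [this]
      exact h6

theorem Ch.unique {R : P → X → X → Prop} {A : Set L} {x t t' : X} {p u u' : P} {c : L}
    (h : D.Ch R A x p c t u) (h' : D.Ch R A x p c t' u') : t = t' ∧ u = u' := by
  induction h generalizing t' u' with
  | @start c h1 h2 h3 =>
    cases h' with
    | start _ _ _ => exact ⟨rfl, rfl⟩
    | step g1 _ g3 g4 g5 _ =>
      obtain ⟨e', he', h6, h7⟩ := h3 _ g1 g5.level.2.2 g3
      exact absurd (g4 e' he' h6) (not_le.2 h7)
  | @step e c t s u0 u1 h1 h2 h3 h4 h5 h6 ih =>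
    cases h' with
    | start _ _ g3 =>
      obtain ⟨e', he', h6, h7⟩ := g3 _ h1 h5.level.2.2 h3
      exact absurd (h4 e' he' h6) (not_le.2 h7)
    | @step e' _ t' s' u0' _ g1 _ g3 g4 g5 g6 =>
      have hee : e = e' := by
        rcases lt_trichotomy e e' with hlt | heq | hlt
        · exact absurd (h4 e' g1 hlt) (not_le.2 g3)
        · exact heq
        · exact absurd (g4 e h1 hlt) (not_le.2 h3)
      subst hee
      obtain ⟨rfl, rfl⟩ := ih g5
      obtain ⟨rfl, rfl⟩ := h6.unique g6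
      exact ⟨rfl, rfl⟩

variable [WellFoundedLT L]

theorem ch_dense (R : P → X → X → Prop) (A : Set L) (x : X) (c : L) :
    c ∈ A → D.h x < c → ∀ p, ∃ q ≤ p, ∃ t u, D.Ch R A x q c t u := by
  induction c using WellFoundedLT.induction with
  | ind c ih =>
    intro hc hx p
    by_cases h : ∀ e ∈ A, D.h x < e → e < c → ∃ e' ∈ A, e < e' ∧ e' < c
    · exact ⟨p, le_rfl, _, _, Ch.start hc hx h⟩
    · push Not at h
      obtain ⟨e, he, h1, h2, h3⟩ := h
      obtain ⟨q, hq, t, u, ht⟩ := ih e h2 he h1 p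
      obtain ⟨r, hr, s, u', hs⟩ := seal_dense (D := D) c (fun q z => D.h z < c ∧ R q t z) t ht.le
      exact ⟨r, hr.trans hq, _, _, Ch.step he hc h2 h3 (ht.mono hr) hs⟩

variable (D)

/-- One step of the recursive definition of the order. -/
def Rstep (R : P → X → X → Prop) (y : X) (p : P) (u : X) : Prop :=
  D.h (D.par y) < D.h y ∧ (u = D.par y ∨ R p u (D.par y) ∨
    ∃ c t v, D.Ch R (D.C (D.h y)) (D.par y) p c t v ∧ (u = t ∨ R p u t))

/-- The order, by recursion on the level of the upper node. -/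
noncomputable def Rf : X → P → X → Prop :=
  (InvImage.wf D.h (wellFounded_lt (α := L))).fix fun y ih =>
    D.Rstep (fun q u v => ∃ hv : D.h v < D.h y, ih v hv q u) y

/-- `p` puts `u` below `y`. -/
def R (p : P) (u y : X) : Prop := D.Rf y p u

theorem R_iff (p : P) (u y : X) : D.R p u y ↔ D.Rstep D.R y p u := by
  have h0 : D.Rf y = D.Rstep (fun q u v => ∃ _ : D.h v < D.h y, D.Rf v q u) y := by
    rw [Rf, WellFounded.fix_eq]
  have hR : ∀ q u v, D.h v < D.h y →
      ((∃ _ : D.h v < D.h y, D.Rf v q u) ↔ D.R q u v) :=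
    fun q u v hv => ⟨fun ⟨_, h⟩ => h, fun h => ⟨hv, h⟩⟩
  rw [R, h0, Rstep, Rstep]
  refine and_congr_right fun hp => or_congr Iff.rfl (or_congr (hR _ _ _ hp) ?_)
  constructor
  · rintro ⟨c, t, v, h1, h2⟩
    have hc := D.C_lt _ _ h1.level.2.1
    refine ⟨c, t, v, h1.congr hR (fun _ _ => Iff.rfl) hc, h2.imp id fun h => ?_⟩
    exact (hR _ _ _ (h1.level.1 ▸ hc)).1 h
  · rintro ⟨c, t, v, h1, h2⟩
    have hc := D.C_lt _ _ h1.level.2.1
    refine ⟨c, t, v, h1.congr (fun q u v hv => (hR q u v hv).symm) (fun _ _ => Iff.rfl) hc,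
      h2.imp id fun h => ?_⟩
    exact (hR _ _ _ (h1.level.1 ▸ hc)).2 h

variable {D}

theorem R.lt {p : P} {u y : X} (h : D.R p u y) : D.h u < D.h y := by
  induction hy : D.h y using WellFoundedLT.induction generalizing y with
  | ind a ih =>
    subst hy
    obtain ⟨h1, h2 | h2 | ⟨c, t, v0, h2, h3⟩⟩ := (D.R_iff p u y).1 h
    · rw [h2]; exact h1
    · exact (ih _ h1 h2 rfl).trans h1
    · have hc : D.h t < D.h y := h2.level.1 ▸ D.C_lt _ _ h2.level.2.1
      rcases h3 with h3 | h3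
      · rw [h3]; exact hc
      · exact (ih _ hc h3 rfl).trans hc

theorem R.mono {p q : P} {u y : X} (h : D.R p u y) (hq : q ≤ p) : D.R q u y := by
  induction hy : D.h y using WellFoundedLT.induction generalizing y with
  | ind a ih =>
    subst hy
    rw [R_iff] at h ⊢
    obtain ⟨h1, h2 | h2 | ⟨c, t, v0, h2, h3⟩⟩ := h
    · exact ⟨h1, Or.inl h2⟩
    · exact ⟨h1, Or.inr (Or.inl (ih _ h1 h2 rfl))⟩
    · have hc : D.h t < D.h y := h2.level.1 ▸ D.C_lt _ _ h2.level.2.1
      exact ⟨h1, Or.inr (Or.inr ⟨c, t, v0, h2.mono hq, h3.imp id fun h3 => ih _ hc h3 rfl⟩)⟩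

theorem R.trans {p : P} {u v y : X} (huv : D.R p u v) (h : D.R p v y) : D.R p u y := by
  induction hy : D.h y using WellFoundedLT.induction generalizing y with
  | ind a ih =>
    subst hy
    rw [R_iff] at h ⊢
    obtain ⟨h1, h2 | h2 | ⟨c, t, v0, h2, h3⟩⟩ := h
    · exact ⟨h1, Or.inr (Or.inl (h2 ▸ huv))⟩
    · exact ⟨h1, Or.inr (Or.inl (ih _ h1 h2 rfl))⟩
    · have hc : D.h t < D.h y := h2.level.1 ▸ D.C_lt _ _ h2.level.2.1
      refine ⟨h1, Or.inr (Or.inr ⟨c, t, v0, h2, Or.inr ?_⟩)⟩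
      rcases h3 with h3 | h3
      · exact h3 ▸ huv
      · exact ih _ hc h3 rfl

theorem R_par (p : P) {y : X} (h : D.h (D.par y) < D.h y) : D.R p (D.par y) y :=
  (D.R_iff _ _ _).2 ⟨h, Or.inl rfl⟩

theorem R_up (p : P) {x : X} {b : L} (h : D.h x < b) : D.R p x (D.up b x) := by
  have h1 := D.par_up b x h
  have := R_par (D := D) p (y := D.up b x) (by rw [h1, D.h_up]; exact h)
  rwa [h1] at this

theorem R_ch {p v : P} {y t : X} {c : L} (h : D.h (D.par y) < D.h y)
    (hc : D.Ch D.R (D.C (D.h y)) (D.par y) p c t v) : D.R p t y :=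
  (D.R_iff _ _ _).2 ⟨h, Or.inr (Or.inr ⟨c, t, v, hc, Or.inl rfl⟩)⟩

theorem S_mono (c : L) (t : X) : ∀ (p q : P) (z : X), (D.h z < c ∧ D.R p t z) → q ≤ p →
    (D.h z < c ∧ D.R q t z) := fun _ _ _ h hq => ⟨h.1, h.2.mono hq⟩

theorem seal_R {p u u' : P} {e c : L} {t s : X} (ht : D.h t = e) (hec : e < c)
    (h : D.Seal c (fun q z => D.h z < c ∧ D.R q t z) t u p s u') : D.R p t (D.up c s) := by
  rcases h.cases (S_mono c t) with h1 | h1
  · rw [h1]; exact R_up p (ht ▸ hec)
  · exact h1.2.trans (R_up p h1.1)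

theorem Ch.R_start {A : Set L} {x t : X} {p v : P} {c : L} (h : D.Ch D.R A x p c t v) :
    D.R p x t := by
  induction h with
  | start _ h2 _ => exact R_up _ h2
  | step _ _ h3 _ h5 h6 ih => exact ih.trans (seal_R h5.level.1 h3 h6)

theorem Ch.R_lt {a : L} {x t t' : X} {p v v' : P} {c c' : L} (h : D.Ch D.R (D.C a) x p c t v)
    (h' : D.Ch D.R (D.C a) x p c' t' v') (hc : c < c') : D.R p t t' := by
  induction h' with
  | @start c' h1 h2 h3 =>
    have hC : D.C c' = D.C a ∩ Set.Iio c' := by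
      refine D.C_coh a c' h1 ⟨c, h.level.2.1, hc⟩ fun e he hec => ?_
      by_cases hx : D.h x < e
      · exact h3 e he hx hec
      · exact ⟨c, h.level.2.1, (not_lt.1 hx).trans_lt h.level.2.2, hc⟩
    have hp := D.par_up c' x h2
    have hh := D.h_up c' x
    refine R_ch (c := c) (v := v) (by rw [hp, hh]; exact h2) ?_
    rw [hp, hh]
    refine h.congr (fun _ _ _ _ => Iff.rfl) (fun e he => ?_) hc
    rw [hC]
    exact ⟨fun h => ⟨h, he⟩, fun h => h.1⟩
  | @step e c' t0 s u0 u1 h1 h2 h3 h4 h5 h6 ih =>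
    have hce : c ≤ e := by
      by_contra hlt
      push Not at hlt
      exact absurd (h4 c h.level.2.1 hlt) (not_le.2 hc)
    have h7 := seal_R h5.level.1 h3 h6
    rcases hce.lt_or_eq with hlt | heq
    · exact (ih hlt).trans h7
    · subst heq
      rw [(h.unique h5).1]
      exact h7

theorem pred_dense (y : X) : ∀ b < D.h y, ∀ p, ∃ q ≤ p, ∃ u, D.h u = b ∧ D.R q u y := by
  induction hy : D.h y using WellFoundedLT.induction generalizing y with
  | ind a ih =>
    subst hy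
    intro b hb p
    have h1 := D.h_par y b hb
    rcases lt_trichotomy b (D.h (D.par y)) with hlt | heq | hlt
    · obtain ⟨q, hq, u, hu, hR⟩ := ih _ h1 _ rfl b hlt p
      exact ⟨q, hq, u, hu, hR.trans (R_par q h1)⟩
    · exact ⟨p, le_rfl, _, heq.symm, R_par p h1⟩
    · obtain ⟨c, hc, hbc⟩ := D.C_cof _ b hb
      obtain ⟨q, hq, t, v, ht⟩ := ch_dense (D := D) D.R (D.C (D.h y)) (D.par y) c hc
        (hlt.trans_le hbc) p
      rcases hbc.lt_or_eq with hbc | hbc
      · obtain ⟨r, hr, u, hu, hR⟩ := ih _ (ht.level.1 ▸ D.C_lt _ _ hc) t rfl b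
          (ht.level.1 ▸ hbc) q
        exact ⟨r, hr.trans hq, u, hu, hR.trans (R_ch h1 (ht.mono hr))⟩
      · exact ⟨q, hq, t, ht.level.1.trans hbc.symm, R_ch h1 ht⟩

theorem R.unique {p : P} {u u' y : X} (h : D.R p u y) (h' : D.R p u' y)
    (hu : D.h u = D.h u') : u = u' := by
  induction hy : D.h y using WellFoundedLT.induction generalizing y with
  | ind a ih =>
    subst hy
    have key : ∀ w, D.h w < D.h y → (u = w ∨ D.R p u w) → (u' = w ∨ D.R p u' w) → u = u' := by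
      intro w hw h1 h2
      rcases h1 with h1 | h1 <;> rcases h2 with h2 | h2
      · rw [h1, h2]
      · exact absurd h2.lt (by rw [← hu, h1]; exact lt_irrefl _)
      · exact absurd h1.lt (by rw [hu, h2]; exact lt_irrefl _)
      · exact ih _ hw h1 h2 rfl
    have up1 : ∀ {v w w' : X}, (v = w ∨ D.R p v w) → D.R p w w' → (v = w' ∨ D.R p v w') := by
      intro v w w' h1 h2
      rcases h1 with h1 | h1
      · exact Or.inr (h1 ▸ h2)
      · exact Or.inr (h1.trans h2)
    rw [R_iff] at h h'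
    obtain ⟨h1, h2⟩ := h
    obtain ⟨-, h2'⟩ := h'
    rw [← or_assoc] at h2 h2'
    rcases h2 with h2 | ⟨c, t, v, h2, h3⟩ <;> rcases h2' with h2' | ⟨c', t', v', h2', h3'⟩
    · exact key _ h1 h2 h2'
    · exact key t' (h2'.level.1 ▸ D.C_lt _ _ h2'.level.2.1) (up1 h2 h2'.R_start) h3'
    · exact key t (h2.level.1 ▸ D.C_lt _ _ h2.level.2.1) h3 (up1 h2' h2.R_start)
    · rcases lt_trichotomy c c' with hlt | heq | hlt
      · exact key t' (h2'.level.1 ▸ D.C_lt _ _ h2'.level.2.1) (up1 h3 (h2.R_lt h2' hlt)) h3'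
      · subst heq
        have := (h2.unique h2').1
        subst this
        exact key t (h2.level.1 ▸ D.C_lt _ _ h2.level.2.1) h3 h3'
      · exact key t (h2.level.1 ▸ D.C_lt _ _ h2.level.2.1) h3 (up1 h3' (h2'.R_lt h2 hlt))

/-- The sealing step. -/
theorem sealing {p u : P} {y t z : X} {e c : L} (h1 : D.h (D.par y) < D.h y)
    (he : e ∈ D.C (D.h y)) (hc : c ∈ D.C (D.h y)) (hec : e < c)
    (hcons : ∀ w ∈ D.C (D.h y), e < w → c ≤ w)
    (ht : D.Ch D.R (D.C (D.h y)) (D.par y) p e t u) (hK : D.K p c t u z)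
    (hzc : D.h z < c) (hR : D.R p t z) : ∃ q ≤ p, D.R q z y := by
  obtain ⟨q, hq, s, u', hs⟩ := seal_dense (D := D) c (fun q z => D.h z < c ∧ D.R q t z) t ht.le
  have hsz := hs.key (D.K_mono _ _ _ _ _ _ hK hq) ⟨hzc, hR.mono hq⟩
  subst hsz
  exact ⟨q, hq, (R_up q hzc).trans (R_ch h1 (Ch.step he hc hec hcons (ht.mono hq) hs))⟩

end Data

end Pool.Agent.Lib.MP_40ade9_lc
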